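import Pool.Agent.H226.RT.AprN
import Pool.Graph.R_pool_sql_team_seeded_64922ed1.X96.DM.One

/-!
The nonlinear term with weights of the triads of frequencies.
-/

open MeasureTheory Set Filter Topology
open scoped ENNReal
open H459R3.NS Pool.Agent.X96.HT Pool.Agent.X96.DM
open Pool.Agent.H226.RT (tri)

namespace Pool.Agent.H226.SW

variable {ζ : Finset K3 → ℝ} {U : K3 → C3} {k p q : K3}

/-- the projection onto the orthogonal complement of `k` -/
noncomputable def lry (k : K3) (a : C3) : C3 := a - (dp (kc k) a / (kn k : ℂ) ^ 2) • kc k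

/-- the convection term with weights -/
noncomputable def cvt (ζ : Finset K3 → ℝ) (U : K3 → C3) (k : K3) : C3 :=
  ∑' p : K3, (ζ (tri k p (k - p)) : ℂ) •
    ((2 * Real.pi * Complex.I * dp (kc (k - p)) (U p)) • U (k - p))

lemma hel_true_add_false (hk : k ≠ 0) (a : C3) : hel true k a + hel false k a = lry k a := by
  unfold hel lry
  rw [if_neg hk, if_neg hk]
  funext j
  simp only [sg, Pi.add_apply, Pi.sub_apply, Pi.smul_apply, smul_eq_mul]
  push_cast
  ring

lemma tri_neg1 (k p q : K3) : tri (-k) p q = tri k p q := by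
  ext x; simp only [tri, Finset.mem_insert, Finset.mem_singleton, neg_neg]; tauto

lemma bil_rwt (hdiv : ∀ k, dp (kc k) (U k) = 0) (h0 : U 0 = 0) (k p : K3) :
    bil (rwt ζ) k p (k - p) (U p) (U (k - p))
      = (ζ (tri k p (k - p)) : ℂ) • (hel true k ((2 * Real.pi * Complex.I
          * dp (kc (k - p)) (U p)) • U (k - p))
        + hel false k ((2 * Real.pi * Complex.I * dp (kc (k - p)) (U p)) • U (k - p))) := by
  rw [← bil_one hdiv h0 k p]
  unfold bil rwt
  simp only [tri_neg1, Finset.smul_sum, Complex.ofReal_one, one_smul]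

lemma nonl_rwt {H : ℝ} (hζ : ∀ τ, |ζ τ| ≤ H) (hdiv : ∀ k, dp (kc k) (U k) = 0) (h0 : U 0 = 0)
    (hU : Summable fun p => ‖U p‖) (hU1 : Summable fun p => kn p * ‖U p‖) (hk : k ≠ 0) :
    nonl (rwt ζ) U k = lry k (cvt ζ U k) := by
  set f : K3 → C3 := fun p => (ζ (tri k p (k - p)) : ℂ) •
    ((2 * Real.pi * Complex.I * dp (kc (k - p)) (U p)) • U (k - p)) with hf
  have hH0 : 0 ≤ H := (abs_nonneg _).trans (hζ ∅)
  have hpi := Real.pi_pos
  have hU0 : ∀ p, ‖U p‖ ≤ ∑' p, ‖U p‖ := fun p => hU.le_tsum p fun q _ => norm_nonneg _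
  have hs : Summable f := by
    refine Summable.of_norm_bounded (g := fun p => H * (2 * Real.pi * (3 * (∑' p, ‖U p‖)))
      * (kn (k - p) * ‖U (k - p)‖)) ?_ fun p => ?_
    · exact (((Equiv.subLeft k).summable_iff (f := fun p => kn p * ‖U p‖)).2 hU1).mul_left _
    · simp only [hf]
      rw [norm_smul, norm_smul, Complex.norm_real, Real.norm_eq_abs, norm_mul, norm_mul, norm_mul,
        Complex.norm_I, mul_one, Complex.norm_two, Complex.norm_real, Real.norm_eq_abs,
        abs_of_pos hpi]
      have h1 := norm_dp_le (kc (k - p)) (U p)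
      have h2 := norm_kc_le (k - p)
      have h3 := kn_nonneg (k - p)
      calc |ζ (tri k p (k - p))| * (2 * Real.pi * ‖dp (kc (k - p)) (U p)‖ * ‖U (k - p)‖)
          ≤ H * (2 * Real.pi * (3 * (kn (k - p) * (∑' p, ‖U p‖))) * ‖U (k - p)‖) := by
            gcongr
            · exact hζ _
            · exact h1.trans (by gcongr; exact hU0 p)
        _ = _ := by ring
  have h1 := hs.hasSum
  have h3 := (h1.map (helA true k) (hel_continuous true k)).add
    (h1.map (helA false k) (hel_continuous false k))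
  have e : (fun p => bil (rwt ζ) k p (k - p) (U p) (U (k - p)))
      = fun p => (⇑(helA true k) ∘ f) p + (⇑(helA false k) ∘ f) p := by
    funext p
    rw [bil_rwt hdiv h0 k p]
    show _ = hel true k (f p) + hel false k (f p)
    simp only [hf, hel_smul, smul_add]
  unfold nonl
  rw [e, h3.tsum_eq, ← hel_true_add_false hk]
  rfl

end Pool.Agent.H226.SW
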