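import Pool.Agent.H226.RT.FluxH

/-!
The flux and its absorption: the size of the weights depends on the frequency, and the triads with a
very short frequency are free.
-/

open MeasureTheory Set Filter Topology
open scoped ENNReal
open H459R3.NS Pool.Agent.X96.HT Pool.Agent.X96.DM

namespace Pool.Agent.H226.SW

variable {η : Md → Md → Md → ℝ} {U : K3 → C3} {S : Finset K3} {k p q : K3} {Hf Γ D : K3 → ℝ}
  {H : ℝ} {W : ℕ → ℝ} {J : ℕ}

/-- In a triad whose third frequency is the shortest, the weight is at most `Hf` of the first one,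
or the third one is very short with respect to the first one. -/
structure BdN (Hf Γ : K3 → ℝ) (H : ℝ) (η : Md → Md → Md → ℝ) : Prop where
  f0 : ∀ k, 0 ≤ Hf k
  g0 : ∀ k, 0 ≤ Γ k
  bd : ∀ a b c, |η a b c| ≤ H
  alt : ∀ a b c : Md, a.1 + b.1 + c.1 = 0 → kn c.1 ≤ kn a.1 → kn c.1 ≤ kn b.1 →
    |η a b c| ≤ Hf a.1 ∨ kn c.1 ^ 5 ≤ Γ a.1 ^ 2

/-- the bound of the weights; `k` is a long frequency and `q` the short one -/
noncomputable def Mn (Hf Γ : K3 → ℝ) (H : ℝ) (k q : K3) : ℝ :=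
  Hf k + if kn q ^ 5 ≤ Γ k ^ 2 then H else 0

lemma BdN.H0 (hB : BdN Hf Γ H η) : 0 ≤ H :=
  (abs_nonneg _).trans (hB.bd (0, true) (0, true) (0, true))

lemma BdN.Mn_nonneg (hB : BdN Hf Γ H η) (k q : K3) : 0 ≤ Mn Hf Γ H k q := by
  unfold Mn
  have := hB.f0 k
  have := hB.H0
  positivity

lemma BdN.le (hB : BdN Hf Γ H η) (a b c : Md) (h : a.1 + b.1 + c.1 = 0)
    (h1 : kn c.1 ≤ kn a.1) (h2 : kn c.1 ≤ kn b.1) : |η a b c| ≤ Mn Hf Γ H a.1 c.1 := by
  have hH := hB.H0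
  have hf := hB.f0 a.1
  unfold Mn
  rcases hB.alt a b c h h1 h2 with h3 | h3
  · have : 0 ≤ (if kn c.1 ^ 5 ≤ Γ a.1 ^ 2 then H else 0) := by positivity
    linarith
  · rw [if_pos h3]
    linarith [hB.bd a b c]

/-- the symmetrized production by one triad -/
noncomputable def Fs (η : Md → Md → Md → ℝ) (L : ℝ) (U : K3 → C3) (k p q : K3) : ℂ :=
  ∑ r : Bool, ∑ s : Bool, ∑ t : Bool, (η (k, r) (p, s) (q, t) : ℂ) *
      Gs (ps L (kn k)) (ps L (kn p)) (ps L (kn q)) (kc k) (kc p) (kc q) (par r k (U k))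
        (par s p (U p)) (par t q (U q))

lemma Fs_rot (hη : IsWeight η) (L : ℝ) (U : K3 → C3) (k p q : K3) :
    Fs η L U p q k = Fs η L U k p q := by
  unfold Fs
  have e : ∀ r s t : Bool, (η (p, s) (q, t) (k, r) : ℂ) *
      Gs (ps L (kn p)) (ps L (kn q)) (ps L (kn k)) (kc p) (kc q) (kc k) (par s p (U p))
        (par t q (U q)) (par r k (U k)) = (η (k, r) (p, s) (q, t) : ℂ) *
      Gs (ps L (kn k)) (ps L (kn p)) (ps L (kn q)) (kc k) (kc p) (kc q) (par r k (U k))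
        (par s p (U p)) (par t q (U q)) := by
    intro r s t
    rw [hη.rot (k, r) (p, s) (q, t), ← Gs_rot]
  simp only [Fintype.sum_bool, e]
  ring

/-- the bound when the first frequency is the shortest -/
lemma Fs_le1 (hη : IsWeight η) (hB : BdN Hf Γ H η) (hdiv : ∀ k, dp (kc k) (U k) = 0) {L : ℝ}
    (hL : 0 < L) (h : k + p + q = 0) (hkp : kn k ≤ kn p) (hkq : kn k ≤ kn q) :
    ‖Fs η L U k p q‖ ≤ 81 * (lo L U k * (Mn Hf Γ H p k * hi L U p ^ 2
      + Mn Hf Γ H q k * hi L U q ^ 2)) := by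
  set M1 := Mn Hf Γ H p k with hM1
  set M2 := Mn Hf Γ H q k with hM2
  have m1 : 0 ≤ M1 := hB.Mn_nonneg _ _
  have m2 : 0 ≤ M2 := hB.Mn_nonneg _ _
  have hle : ∀ r s t : Bool, |η (k, r) (p, s) (q, t)| ≤ min M1 M2 := by
    intro r s t
    refine le_min ?_ ?_
    · rw [← hη.rot (k, r) (p, s) (q, t)]
      exact hB.le (p, s) (q, t) (k, r) (by rw [← h]; simp only; abel) hkp hkq
    · rw [← hη.rot (k, r) (p, s) (q, t), ← hη.swap (p, s) (q, t) (k, r)]
      exact hB.le (q, t) (p, s) (k, r) (by rw [← h]; simp only; abel) hkq hkp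
  have hh0 : 0 ≤ min M1 M2 := le_min m1 m2
  have l1 : lo L U k = ∑ r : Bool, (if kn k < 2 * L then kn k * ‖par r k (U k)‖ else 0) := by
    unfold lo
    rw [bt_eq]
    split_ifs
    · rw [Finset.mul_sum]
    · simp
  have l2 : ∀ k, hi L U k = ∑ r : Bool, (if L / 2 ≤ kn k then ‖par r k (U k)‖ else 0) := by
    intro k
    unfold hi
    rw [bt_eq]
    split_ifs
    · rfl
    · simp
  have h1 : ‖Fs η L U k p q‖ ≤ min M1 M2 * (162 * (lo L U k * hi L U p * hi L U q)) := by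
    unfold Fs
    calc _ ≤ ∑ r : Bool, ∑ s : Bool, ∑ t : Bool,
        min M1 M2 * (162 * ((if kn k < 2 * L then kn k * ‖par r k (U k)‖ else 0)
          * (if L / 2 ≤ kn p then ‖par s p (U p)‖ else 0)
          * (if L / 2 ≤ kn q then ‖par t q (U q)‖ else 0))) := by
          refine (norm_sum_le _ _).trans (Finset.sum_le_sum fun r _ => ?_)
          refine (norm_sum_le _ _).trans (Finset.sum_le_sum fun s _ => ?_)
          refine (norm_sum_le _ _).trans (Finset.sum_le_sum fun t _ => ?_)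
          rw [norm_mul, Complex.norm_real, Real.norm_eq_abs]
          exact mul_le_mul (hle r s t) (Gs_ps1 hL h hkp hkq (hdiv k) (hdiv p) (hdiv q) r s t)
            (norm_nonneg _) hh0
      _ = _ := by
          rw [l1, l2 p, l2 q]
          simp only [Fintype.sum_bool]
          ring
  have a1 := lo_nonneg L U k
  have b1 := hi_nonneg L U p
  have b2 := hi_nonneg L U q
  have h2 : min M1 M2 * (hi L U p * hi L U q)
      ≤ 1 / 2 * (M1 * hi L U p ^ 2 + M2 * hi L U q ^ 2) := by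
    have u1 : min M1 M2 * hi L U p ^ 2 ≤ M1 * hi L U p ^ 2 := by
      gcongr; exact min_le_left _ _
    have u2 : min M1 M2 * hi L U q ^ 2 ≤ M2 * hi L U q ^ 2 := by
      gcongr; exact min_le_right _ _
    have u3 : 0 ≤ min M1 M2 * (hi L U p - hi L U q) ^ 2 := by positivity
    nlinarith
  calc ‖Fs η L U k p q‖ ≤ min M1 M2 * (162 * (lo L U k * hi L U p * hi L U q)) := h1
    _ = 162 * lo L U k * (min M1 M2 * (hi L U p * hi L U q)) := by ring
    _ ≤ 162 * lo L U k * (1 / 2 * (M1 * hi L U p ^ 2 + M2 * hi L U q ^ 2)) := by gcongr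
    _ = _ := by ring

lemma Fs_le (hη : IsWeight η) (hB : BdN Hf Γ H η) (hdiv : ∀ k, dp (kc k) (U k) = 0) {L : ℝ}
    (hL : 0 < L) (h : k + p + q = 0) :
    ‖Fs η L U k p q‖ ≤ 81 * (lo L U k * (Mn Hf Γ H p k * hi L U p ^ 2
      + Mn Hf Γ H q k * hi L U q ^ 2)
      + lo L U p * (Mn Hf Γ H q p * hi L U q ^ 2 + Mn Hf Γ H k p * hi L U k ^ 2)
      + lo L U q * (Mn Hf Γ H k q * hi L U k ^ 2 + Mn Hf Γ H p q * hi L U p ^ 2)) := by
  have hn : ∀ k p q : K3, 0 ≤ lo L U k * (Mn Hf Γ H p k * hi L U p ^ 2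
      + Mn Hf Γ H q k * hi L U q ^ 2) := by
    intro k p q
    have := lo_nonneg L U k
    have := hB.Mn_nonneg p k
    have := hB.Mn_nonneg q k
    positivity
  have n1 := hn k p q
  have n2 := hn p q k
  have n3 := hn q k p
  rcases le_total (kn k) (kn p) with h1 | h1
  · rcases le_total (kn k) (kn q) with h2 | h2
    · have := Fs_le1 hη hB hdiv hL h h1 h2
      linarith
    · have h3 := Fs_le1 hη hB hdiv hL (k := q) (p := k) (q := p) (by rw [← h]; abel) h2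
        (h2.trans h1)
      rw [← Fs_rot hη L U q k p] at h3
      linarith
  · rcases le_total (kn p) (kn q) with h2 | h2
    · have h3 := Fs_le1 hη hB hdiv hL (k := p) (p := q) (q := k) (by rw [← h]; abel) h2 h1
      rw [Fs_rot hη L U k p q] at h3
      linarith
    · have h3 := Fs_le1 hη hB hdiv hL (k := q) (p := k) (q := p) (by rw [← h]; abel)
        (h2.trans h1) h2
      rw [← Fs_rot hη L U q k p] at h3
      linarith

lemma tsum_swap (F : K3 → K3 → ℝ≥0∞) : ∑' x : K3 × K3, F x.2 x.1 = ∑' x : K3 × K3, F x.1 x.2 :=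
  (Equiv.prodComm K3 K3).tsum_eq fun x : K3 × K3 => F x.1 x.2

lemma tsum_23 (F : K3 → K3 → ℝ≥0∞) :
    ∑' x : K3 × K3, F x.1 (-x.1 - x.2) = ∑' x : K3 × K3, F x.1 x.2 :=
  inv23.tsum_eq fun x : K3 × K3 => F x.1 x.2

lemma tsum_23' (F : K3 → K3 → ℝ≥0∞) :
    ∑' x : K3 × K3, F x.2 (-x.1 - x.2) = ∑' x : K3 × K3, F x.1 x.2 := by
  rw [← tsum_23 F, ← tsum_swap (fun a b => F a (-a - b))]
  refine tsum_congr fun x => ?_
  rw [show -x.2 - x.1 = -x.1 - x.2 by abel]

lemma tsum_31 (F : K3 → K3 → ℝ≥0∞) :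
    ∑' x : K3 × K3, F (-x.1 - x.2) x.1 = ∑' x : K3 × K3, F x.1 x.2 := by
  rw [tsum_23 (fun a b => F b a), tsum_swap]

lemma tsum_32 (F : K3 → K3 → ℝ≥0∞) :
    ∑' x : K3 × K3, F (-x.1 - x.2) x.2 = ∑' x : K3 × K3, F x.1 x.2 := by
  rw [tsum_23' (fun a b => F b a), tsum_swap]

/-- the gradient of the very low frequencies -/
lemma glr_le (hg : 0 ≤ Γ p) {R : ℝ} (hR : Real.sqrt (∑ k ∈ S, ∑ i, ‖U k i‖ ^ 2) ≤ R)
    (h0 : (0 : K3) ∉ S) :
    (∑ k ∈ S, if kn k ^ 5 ≤ Γ p ^ 2 then kn k * ‖U k‖ else 0) ≤ 6 * Γ p * R := by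
  have hR0 : 0 ≤ R := (Real.sqrt_nonneg _).trans hR
  set A := S.filter fun k => kn k ^ 5 ≤ Γ p ^ 2 with hA
  rw [← Finset.sum_filter, ← hA]
  rcases A.eq_empty_or_nonempty with h | h
  · rw [h, Finset.sum_empty]
    positivity
  obtain ⟨m, hm, hmax⟩ := A.exists_max_image kn h
  have hmA := (Finset.mem_filter.1 hm)
  have hm0 : m ≠ 0 := fun e => h0 (e ▸ hmA.1)
  have hk1 := one_le_kn hm0
  have hcard : (A.card : ℝ) ≤ 27 * kn m ^ 3 := by
    have h2 : A ⊆ (finite_cube ⌊kn m⌋₊).toFinset := by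
      intro k hk
      rw [Set.Finite.mem_toFinset]
      show N k ≤ ⌊kn m⌋₊
      exact Nat.le_floor ((N_le_kn k).trans (hmax k hk))
    have h3 := Finset.card_le_card h2
    have h4 : (A.card : ℝ) ≤ (2 * (⌊kn m⌋₊ : ℕ) + 1) ^ 3 := by
      rw [← card_cube]; exact_mod_cast h3
    refine h4.trans ?_
    have h5 : (⌊kn m⌋₊ : ℝ) ≤ kn m := Nat.floor_le (kn_nonneg m)
    calc (2 * (⌊kn m⌋₊ : ℝ) + 1) ^ 3 ≤ (3 * kn m) ^ 3 := by
          gcongr
          linarith
      _ = _ := by ring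
  have h1 : ∑ k ∈ A, kn k * ‖U k‖
      ≤ Real.sqrt (∑ k ∈ A, kn k ^ 2) * Real.sqrt (∑ k ∈ A, ‖U k‖ ^ 2) :=
    Real.sum_mul_le_sqrt_mul_sqrt A kn fun k => ‖U k‖
  have h2 : ∑ k ∈ A, kn k ^ 2 ≤ (6 * Γ p) ^ 2 := by
    calc ∑ k ∈ A, kn k ^ 2 ≤ ∑ _k ∈ A, kn m ^ 2 := by
          refine Finset.sum_le_sum fun k hk => ?_
          have := hmax k hk
          have := kn_nonneg k
          gcongr
      _ = A.card * kn m ^ 2 := by rw [Finset.sum_const, nsmul_eq_mul]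
      _ ≤ (27 * kn m ^ 3) * kn m ^ 2 := by gcongr
      _ = 27 * kn m ^ 5 := by ring
      _ ≤ 27 * Γ p ^ 2 := by linarith [hmA.2]
      _ ≤ _ := by nlinarith [sq_nonneg (Γ p)]
  have h3 : ∑ k ∈ A, ‖U k‖ ^ 2 ≤ ∑ k ∈ S, ∑ i, ‖U k i‖ ^ 2 := by
    refine (Finset.sum_le_sum fun k _ => sq_le_sum (U k)).trans ?_
    exact Finset.sum_le_sum_of_subset_of_nonneg (Finset.filter_subset _ _)
      fun k _ _ => by positivity
  refine h1.trans ?_
  calc Real.sqrt (∑ k ∈ A, kn k ^ 2) * Real.sqrt (∑ k ∈ A, ‖U k‖ ^ 2)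
      ≤ Real.sqrt ((6 * Γ p) ^ 2) * Real.sqrt (∑ k ∈ S, ∑ i, ‖U k i‖ ^ 2) := by gcongr
    _ ≤ (6 * Γ p) * R := by
        rw [Real.sqrt_sq (by positivity)]
        gcongr

/-- The flux through the shell of the frequencies between `L` and `2 L`. -/
theorem fluxN (hη : IsWeight η) (hB : BdN Hf Γ H η) (h0 : (0 : K3) ∉ S) (hS : ∀ k ∉ S, U k = 0)
    (hdiv : ∀ k, dp (kc k) (U k) = 0) {R : ℝ}
    (hR : Real.sqrt (∑ k ∈ S, ∑ i, ‖U k i‖ ^ 2) ≤ R) {L : ℝ} (hL : 0 < L) :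
    ‖T3s (fw η (fun k => ps L (kn k)) U)‖
      ≤ 2187 * (gl S L U * egH Hf S L U) + 2187 * (6 * H * R) * egH Γ S L U := by
  have hH0 := hB.H0
  have h1 := T3s_sym (S3s_fin (η := η) (fun k => ps L (kn k)) hS)
  have e1 : (fun k p q => (fw η (fun k => ps L (kn k)) U k p q + fw η (fun k => ps L (kn k)) U k q p)
      + (fw η (fun k => ps L (kn k)) U p q k + fw η (fun k => ps L (kn k)) U p k q)
      + (fw η (fun k => ps L (kn k)) U q k p + fw η (fun k => ps L (kn k)) U q p k))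
      = fun k p q => Fs η L U k p q := by
    funext k p q; exact fw_sym hη _ U k p q
  rw [e1] at h1
  set X : K3 → ℝ≥0∞ := fun k => ENNReal.ofReal (lo L U k) with hX
  set Q : K3 → K3 → ℝ≥0∞ := fun k p => ENNReal.ofReal (Mn Hf Γ H p k * hi L U p ^ 2) with hQ
  set F : K3 → K3 → ℝ≥0∞ := fun k p => X k * Q k p with hF
  have hMh : ∀ k p, 0 ≤ Mn Hf Γ H p k * hi L U p ^ 2 := fun k p => by
    have := hB.Mn_nonneg p k; positivity
  have hQadd : ∀ k p q, ENNReal.ofReal (lo L U k * (Mn Hf Γ H p k * hi L U p ^ 2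
      + Mn Hf Γ H q k * hi L U q ^ 2)) = F k p + F k q := by
    intro k p q
    rw [ENNReal.ofReal_mul (lo_nonneg L U k), ENNReal.ofReal_add (hMh k p) (hMh k q), mul_add]
  have hn : ∀ k p q : K3, 0 ≤ lo L U k * (Mn Hf Γ H p k * hi L U p ^ 2
      + Mn Hf Γ H q k * hi L U q ^ 2) := by
    intro k p q
    have := lo_nonneg L U k
    have := hMh k p
    have := hMh k q
    positivity
  have h2 : ∀ x : K3 × K3, ‖Fs η L U x.1 x.2 (-x.1 - x.2)‖ₑ
      ≤ ENNReal.ofReal 81 * ((F x.1 x.2 + F x.1 (-x.1 - x.2)) + (F x.2 (-x.1 - x.2) + F x.2 x.1)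
        + (F (-x.1 - x.2) x.1 + F (-x.1 - x.2) x.2)) := by
    intro x
    have h3 := Fs_le hη hB hdiv hL (k := x.1) (p := x.2) (q := -x.1 - x.2) (by abel)
    rw [← ofReal_norm]
    refine (ENNReal.ofReal_le_ofReal h3).trans (le_of_eq ?_)
    rw [ENNReal.ofReal_mul (by norm_num),
      ENNReal.ofReal_add (add_nonneg (hn _ _ _) (hn _ _ _)) (hn _ _ _),
      ENNReal.ofReal_add (hn _ _ _) (hn _ _ _), hQadd, hQadd, hQadd]
  have h4 : ‖(6 : ℂ) * T3s (fw η (fun k => ps L (kn k)) U)‖ₑ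
      ≤ ENNReal.ofReal 81 * (6 * ∑' x : K3 × K3, F x.1 x.2) := by
    rw [h1]
    refine enorm_T3s_le.trans ((ENNReal.tsum_le_tsum h2).trans ?_)
    rw [ENNReal.tsum_mul_left, ENNReal.tsum_add, ENNReal.tsum_add, ENNReal.tsum_add,
      ENNReal.tsum_add, ENNReal.tsum_add, tsum_23, tsum_23', tsum_swap, tsum_31, tsum_32]
    refine le_of_eq ?_
    ring
  have zlo : ∀ k ∉ S, lo L U k = 0 := by
    intro k hk
    unfold lo
    rw [hS k hk]
    simp [bt, par_at_zero]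
  have zhi : ∀ k ∉ S, hi L U k = 0 := by
    intro k hk
    unfold hi
    rw [hS k hk]
    simp [bt, par_at_zero]
  have hFr : ∀ k p, F k p = ENNReal.ofReal (lo L U k * (Mn Hf Γ H p k * hi L U p ^ 2)) := by
    intro k p
    rw [ENNReal.ofReal_mul (lo_nonneg L U k)]
  have hFn : ∀ k p, 0 ≤ lo L U k * (Mn Hf Γ H p k * hi L U p ^ 2) := fun k p =>
    mul_nonneg (lo_nonneg L U k) (hMh k p)
  have sF : ∑' x : K3 × K3, F x.1 x.2 = ENNReal.ofReal (∑ p ∈ S, ∑ k ∈ S,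
      lo L U k * (Mn Hf Γ H p k * hi L U p ^ 2)) := by
    rw [tsum_eq_sum (s := S ×ˢ S) (fun x hx => ?_), Finset.sum_product, Finset.sum_comm,
      ENNReal.ofReal_sum_of_nonneg fun p _ => Finset.sum_nonneg fun k _ => hFn k p]
    · refine Finset.sum_congr rfl fun p _ => ?_
      rw [ENNReal.ofReal_sum_of_nonneg fun k _ => hFn k p]
      exact Finset.sum_congr rfl fun k _ => hFr k p
    · rw [hFr]
      rw [Finset.mem_product, not_and_or] at hx
      rcases hx with hx | hx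
      · rw [zlo _ hx, zero_mul, ENNReal.ofReal_zero]
      · rw [zhi _ hx]; simp
  have h5 : ENNReal.ofReal (6 * ‖T3s (fw η (fun k => ps L (kn k)) U)‖)
      ≤ ENNReal.ofReal (81 * (6 * ∑ p ∈ S, ∑ k ∈ S,
      lo L U k * (Mn Hf Γ H p k * hi L U p ^ 2))) := by
    rw [enorm_mul, ← ofReal_norm, ← ofReal_norm] at h4
    rw [ENNReal.ofReal_mul (by norm_num : (0 : ℝ) ≤ 6)]
    have e6 : ENNReal.ofReal ‖(6 : ℂ)‖ = ENNReal.ofReal 6 := by norm_num
    rw [e6] at h4
    refine h4.trans ?_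
    rw [ENNReal.ofReal_mul (p := 81) (by norm_num), ENNReal.ofReal_mul (p := 6) (by norm_num)]
    have e3 : ENNReal.ofReal 6 = 6 := by norm_num
    rw [e3, sF]
  have hsn : 0 ≤ ∑ p ∈ S, ∑ k ∈ S, lo L U k * (Mn Hf Γ H p k * hi L U p ^ 2) :=
    Finset.sum_nonneg fun p _ => Finset.sum_nonneg fun k _ => hFn k p
  have h6 := (ENNReal.ofReal_le_ofReal_iff (by positivity)).1 h5
  have hR0 : 0 ≤ R := (Real.sqrt_nonneg _).trans hR
  have h7 : ∑ p ∈ S, ∑ k ∈ S, lo L U k * (Mn Hf Γ H p k * hi L U p ^ 2)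
      ≤ 27 * (gl S L U * egH Hf S L U) + 27 * (6 * H * R) * egH Γ S L U := by
    have h8 : ∀ p ∈ S, ∑ k ∈ S, lo L U k * (Mn Hf Γ H p k * hi L U p ^ 2)
        ≤ 27 * (gl S L U * (if L / 2 ≤ kn p then Hf p * ∑ i, ‖U p i‖ ^ 2 else 0))
          + 27 * (6 * H * R) * (if L / 2 ≤ kn p then Γ p * ∑ i, ‖U p i‖ ^ 2 else 0) := by
      intro p _
      have hfp := hB.f0 p
      have hgp := hB.g0 p
      by_cases hp : L / 2 ≤ kn p
      · rw [if_pos hp, if_pos hp]
        have h9 : hi L U p ^ 2 ≤ 9 * ∑ i, ‖U p i‖ ^ 2 := by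
          unfold hi
          rw [if_pos hp]
          exact bt_sq_le p (U p)
        have h10 : ∑ k ∈ S, lo L U k * Mn Hf Γ H p k
            ≤ 3 * (Hf p * gl S L U) + 3 * (H * (6 * Γ p * R)) := by
          have h11 := glr_le (p := p) (S := S) (U := U) hgp hR h0
          have h12 : ∀ k ∈ S, lo L U k * Mn Hf Γ H p k
              ≤ 3 * (Hf p * (if kn k < 2 * L then kn k * ‖U k‖ else 0))
                + 3 * (H * (if kn k ^ 5 ≤ Γ p ^ 2 then kn k * ‖U k‖ else 0)) := by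
            intro k _
            have h13 := bt_le k (U k)
            have h14 := kn_nonneg k
            have h15 := bt_nonneg k (U k)
            unfold lo Mn
            by_cases a1 : kn k < 2 * L
            · rw [if_pos a1, if_pos a1]
              by_cases a2 : kn k ^ 5 ≤ Γ p ^ 2
              · rw [if_pos a2, if_pos a2]
                calc kn k * bt k (U k) * (Hf p + H) ≤ kn k * (3 * ‖U k‖) * (Hf p + H) := by gcongr
                  _ = _ := by ring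
              · rw [if_neg a2, if_neg a2]
                calc kn k * bt k (U k) * (Hf p + 0) ≤ kn k * (3 * ‖U k‖) * (Hf p + 0) := by gcongr
                  _ = _ := by ring
            · rw [if_neg a1, if_neg a1]
              have : 0 ≤ (if kn k ^ 5 ≤ Γ p ^ 2 then kn k * ‖U k‖ else 0) := by positivity
              have : 0 ≤ 3 * (H * (if kn k ^ 5 ≤ Γ p ^ 2 then kn k * ‖U k‖ else 0)) := by
                positivity
              linarith
          refine (Finset.sum_le_sum h12).trans ?_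
          rw [Finset.sum_add_distrib, ← Finset.mul_sum, ← Finset.mul_sum, ← Finset.mul_sum,
            ← Finset.mul_sum]
          unfold gl
          gcongr
        have h16 : ∑ k ∈ S, lo L U k * (Mn Hf Γ H p k * hi L U p ^ 2)
            = (∑ k ∈ S, lo L U k * Mn Hf Γ H p k) * hi L U p ^ 2 := by
          rw [Finset.sum_mul]
          exact Finset.sum_congr rfl fun k _ => by ring
        rw [h16]
        have hgl := gl_nonneg S L U
        calc (∑ k ∈ S, lo L U k * Mn Hf Γ H p k) * hi L U p ^ 2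
            ≤ (3 * (Hf p * gl S L U) + 3 * (H * (6 * Γ p * R))) * (9 * ∑ i, ‖U p i‖ ^ 2) := by
              gcongr
          _ = _ := by ring
      · rw [if_neg hp, if_neg hp]
        have : hi L U p = 0 := by
          unfold hi; rw [if_neg hp]
        simp [this]
    refine (Finset.sum_le_sum h8).trans (le_of_eq ?_)
    unfold egH
    rw [Finset.sum_add_distrib, ← Finset.mul_sum, ← Finset.mul_sum, ← Finset.mul_sum]
  linarith

/-- The production of the weighted norm. -/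
lemma prod_wtN (hη : IsWeight η) (hB : BdN Hf Γ H η) (h0 : (0 : K3) ∉ S) {U : K3 → C3}
    (hS : ∀ k ∉ S, U k = 0) (hdiv : ∀ k, dp (kc k) (U k) = 0) {R : ℝ}
    (hR : Real.sqrt (∑ k ∈ S, ∑ i, ‖U k i‖ ^ 2) ≤ R) (hW : Monotone W) (J : ℕ) :
    ‖T3s (fw η (wt W J) U)‖ ≤ 2187 *
      ∑ j ∈ Finset.range J, (W (j + 1) - W j) * (gl S (2 ^ j) U * egH Hf S (2 ^ j) U)
      + ∑ j ∈ Finset.range J, (W (j + 1) - W j) * (2187 * (6 * H * R) * egH Γ S (2 ^ j) U) := by
  have e : wt W J = fun k => ∑ j ∈ Finset.range (J + 1), cf W j * wf j k := by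
    funext k
    rw [Finset.sum_range_succ']
    unfold wt
    simp only [cf, wf, mul_one]
    rw [add_comm]
  rw [e, T3s_lin (S := S) _ _ _ hS, Finset.sum_range_succ']
  simp only [cf, wf]
  rw [T3s_const hη hS hdiv, mul_zero, add_zero]
  refine (norm_sum_le _ _).trans ?_
  rw [Finset.mul_sum, ← Finset.sum_add_distrib]
  refine Finset.sum_le_sum fun j _ => ?_
  have h2 := sub_nonneg.2 (hW (Nat.le_succ j))
  rw [norm_mul, Complex.norm_real, Real.norm_eq_abs, abs_of_nonneg h2]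
  have h3 := fluxN hη hB h0 hS hdiv hR (L := 2 ^ j) (by positivity)
  calc (W (j + 1) - W j) * ‖T3s (fw η (fun k => ps (2 ^ j) (kn k)) U)‖
      ≤ (W (j + 1) - W j) * (2187 * (gl S (2 ^ j) U * egH Hf S (2 ^ j) U)
        + 2187 * (6 * H * R) * egH Γ S (2 ^ j) U) := by
        simp only [Nat.succ_eq_add_one] at h2
        gcongr
    _ = _ := by ring

/-- Absorption by the dissipation. -/
lemma absorbG {U : K3 → C3} (hf : ∀ k, 0 ≤ Hf k) (h0 : (0 : K3) ∉ S) (hW : Monotone W)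
    (hD0 : ∀ k, 0 ≤ D k) (hJ : ∀ k ∈ S, kn k ≤ 2 ^ J) {γ : ℕ → ℝ} (hγ0 : ∀ j, 0 ≤ γ j)
    (h : ∀ i, ∀ k ∈ S, 2 ^ i ≤ kn k →
      (∑ j ∈ Finset.range (i + 2), (W (j + 1) - W j) * γ j) * Hf k ≤ W i * D k) :
    ∑ j ∈ Finset.range J, (W (j + 1) - W j) * (γ j * egH Hf S (2 ^ j) U)
      ≤ nw S (fun k => wt W J k * D k) U := by
  have hd : ∀ j, 0 ≤ W (j + 1) - W j := fun j => sub_nonneg.2 (hW (Nat.le_succ j))
  have h4 : ∑ j ∈ Finset.range J, (W (j + 1) - W j) * (γ j * egH Hf S (2 ^ j) U)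
      = ∑ k ∈ S, (∑ j ∈ Finset.range J, if (2 : ℝ) ^ j / 2 ≤ kn k then (W (j + 1) - W j) * γ j else 0)
        * (Hf k * ∑ i, ‖U k i‖ ^ 2) := by
    have e : ∀ j, (W (j + 1) - W j) * (γ j * egH Hf S (2 ^ j) U)
        = ∑ k ∈ S, (if (2 : ℝ) ^ j / 2 ≤ kn k then (W (j + 1) - W j) * γ j else 0)
          * (Hf k * ∑ i, ‖U k i‖ ^ 2) := by
      intro j
      unfold egH
      rw [← mul_assoc, Finset.mul_sum]
      refine Finset.sum_congr rfl fun k _ => ?_
      split_ifs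
      · rfl
      · simp
    simp_rw [e]
    rw [Finset.sum_comm]
    exact Finset.sum_congr rfl fun k _ => (Finset.sum_mul _ _ _).symm
  rw [h4]
  unfold nw
  refine Finset.sum_le_sum fun k hk => ?_
  have hk0 : k ≠ 0 := fun e => h0 (e ▸ hk)
  obtain ⟨i, hi1, hi2⟩ := exists_dyadic hk0
  have hiJ : i ≤ J := by
    by_contra hc
    have h5 : (2 : ℝ) ^ J < 2 ^ i := pow_lt_pow_right₀ (by norm_num) (by omega)
    linarith [hJ k hk]
  have h5 : (∑ j ∈ Finset.range J, if (2 : ℝ) ^ j / 2 ≤ kn k then (W (j + 1) - W j) * γ j else 0)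
      ≤ ∑ j ∈ Finset.range (i + 2), (W (j + 1) - W j) * γ j := by
    rw [← Finset.sum_filter]
    refine Finset.sum_le_sum_of_subset_of_nonneg (fun j hj => ?_) fun j _ _ =>
      mul_nonneg (hd j) (hγ0 j)
    rw [Finset.mem_filter] at hj
    rw [Finset.mem_range]
    by_contra hc
    have h6 : (2 : ℝ) ^ (i + 2) ≤ 2 ^ j := pow_le_pow_right₀ (by norm_num) (by omega)
    have h7 : (2 : ℝ) ^ (i + 2) = 2 * 2 ^ (i + 1) := by ring
    linarith [hj.2]
  have hfk := hf k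
  have hDk := hD0 k
  have h6 := wt_ge hW hi1 hiJ
  have h7 : (∑ j ∈ Finset.range J, if (2 : ℝ) ^ j / 2 ≤ kn k then (W (j + 1) - W j) * γ j else 0)
      * Hf k ≤ wt W J k * D k :=
    calc _ ≤ (∑ j ∈ Finset.range (i + 2), (W (j + 1) - W j) * γ j) * Hf k := by gcongr
      _ ≤ W i * D k := h i k hk hi1
      _ ≤ _ := by gcongr
  calc _ = ((∑ j ∈ Finset.range J, if (2 : ℝ) ^ j / 2 ≤ kn k then (W (j + 1) - W j) * γ j else 0)
      * Hf k) * ∑ i, ‖U k i‖ ^ 2 := by ring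
    _ ≤ _ := by gcongr

end Pool.Agent.H226.SW
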