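import Pool.Agent.H226.RT.Rabs
import Pool.Agent.H226.RT.FluxN

/-!
A priori bounds of the Galerkin approximations, for the sum of a weight with a bound which depends
on the frequency and a tame weight.
-/

open MeasureTheory Set Filter Topology
open scoped ENNReal InnerProductSpace NNReal
open H459R3.NS Pool.Agent.X96.HT Pool.Agent.X96.DM
open Pool.Agent.H226.RT (tri cub mem_cub Tame nn nn_nonneg)

namespace Pool.Agent.H226.SW

variable {η : Md → Md → Md → ℝ} {ζ : Finset K3 → ℝ} {D Hf Γ' : K3 → ℝ} {S : Finset K3}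
  {W σ : ℕ → ℝ} {J : ℕ} {U : K3 → C3} {C H H₁ : ℝ}

/-- the sum of a deterministic weight and a weight of triads -/
def addw (η : Md → Md → Md → ℝ) (ζ : Finset K3 → ℝ) (a b c : Md) : ℝ := η a b c + rwt ζ a b c

lemma isWeight_addw (hη : IsWeight η) (hζ : ∀ τ, |ζ τ| ≤ H) : IsWeight (addw η ζ) := by
  have h := isWeight_rwt hζ
  obtain ⟨H', hH'⟩ := hη.bdd
  refine ⟨fun a b c => ?_, fun a b c => ?_, fun a b c => ?_, ⟨H' + H, fun a b c => ?_⟩⟩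
  · unfold addw; rw [hη.swap, h.swap]
  · unfold addw; rw [hη.rot, h.rot]
  · unfold addw; rw [hη.neg, h.neg]
  · unfold addw
    exact (abs_add_le _ _).trans (add_le_add (hH' a b c) (hζ _))

lemma T3s_addw (hS : ∀ k ∉ S, U k = 0) (w : K3 → ℝ) :
    T3s (fw (addw η ζ) w U) = T3s (fw η w U) + T3s (fw (rwt ζ) w U) := by
  unfold T3s
  rw [← Summable.tsum_add (S3s_fin w hS) (S3s_fin w hS)]
  refine tsum_congr fun x => ?_
  unfold fw addw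
  push_cast
  simp only [Fintype.sum_bool]
  ring

/-- The derivative of the weighted norm is nonpositive. -/
lemma dval2 (hη : IsWeight η) (hB : BdN Hf Γ' H₁ η) (hC : 0 ≤ C) (hT : Tame C ζ)
    (hζ : ∀ τ, |ζ τ| ≤ H)
    (hS : ∀ k ∉ S, U k = 0) (hdiv : ∀ k, dp (kc k) (U k) = 0) (h0 : (0 : K3) ∉ S)
    (hW : Monotone W) {j₀ s : ℕ} (hW1 : ∀ j, j ≤ j₀ + 1 → W j = 1)
    (hWr : ∀ j, W (j + 1) ≤ 2 ^ s * W j) (hJ : ∀ k ∈ S, kn k ≤ 2 ^ J) (hD0 : ∀ k, 0 ≤ D k)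
    {m Γ : ℕ → ℝ} (hm0 : ∀ j, 0 ≤ m j) (hm : ∀ j, ∀ k ∈ S, 2 ^ j ≤ kn k → m j * Hf k ≤ D k)
    (hΓ0 : ∀ j, 0 ≤ Γ j)
    (hWm : ∀ i, ∑ j ∈ Finset.range (i + 2), (W (j + 1) - W j) * Γ j ≤ W i * m i)
    (hΓ : ∀ j, 4 * Real.pi * 2187 * gl S (2 ^ j) U ≤ Γ j) {R : ℝ}
    (hR : Real.sqrt (∑ k ∈ S, ∑ i, ‖U k i‖ ^ 2) ≤ R)
    (hDr : ∀ b, j₀ ≤ b → ∀ k ∈ S, 2 ^ b ≤ kn k →
      8 * Real.pi * (5184 * C * R * (2 ^ s) ^ 2) * ((b + 3) ^ 3 * 2 ^ b) ≤ D k)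
    (hDn : ∀ k ∈ S, 2 ^ j₀ ≤ kn k → 8 * Real.pi * (2187 * 6 * R * (2 ^ s) ^ 2) * (H₁ * Γ' k) ≤ D k) :
    -(2 * nw S (fun k => wt W J k * D k) U) - 4 * Real.pi * (T3s (fw (addw η ζ) (wt W J) U)).re
      ≤ 0 := by
  have hpi := Real.pi_pos
  have hW0 : W 0 = 1 := hW1 0 (by omega)
  have hR0 : 0 ≤ R := (Real.sqrt_nonneg _).trans hR
  have hH0 := hB.H0
  have h1 := prod_wtN hη hB h0 hS hdiv hR hW J
  have h2 := absorbH (D := D) (U := U) hB.f0 h0 hW (by rw [hW0]; norm_num) hJ hm0 hm hΓ0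
    (K := 4 * Real.pi * 2187) hΓ hWm
  have h3 := rand_absorb (D := fun k => D k / 2) hC hT hζ h0 hS hdiv hW hW1 hWr hJ
    (fun k => by have := hD0 k; positivity) hR (fun b hb k hk hbk => by
      have := hDr b hb k hk hbk
      linarith)
  have h3' : nw S (fun k => wt W J k * (D k / 2)) U = nw S (fun k => wt W J k * D k) U / 2 := by
    unfold nw
    rw [Finset.sum_div]
    exact Finset.sum_congr rfl fun k _ => by ring
  rw [h3'] at h3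
  set K : ℝ := 4 * Real.pi * (2187 * (6 * H₁ * R)) with hK
  have hK0 : 0 ≤ K := by positivity
  have h8 := absorbG (Hf := Γ') (D := fun k => D k / 2) (U := U) (W := W) (J := J) hB.g0 h0 hW
    (fun k => by have := hD0 k; positivity) hJ (γ := fun _ => K) (fun _ => hK0) (fun i k hk hik => by
      rw [← Finset.sum_mul, Finset.sum_range_sub, hW0]
      have hΓk := hB.g0 k
      have hDk := hD0 k
      rcases le_or_gt (i + 2) (j₀ + 1) with hi | hi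
      · rw [hW1 _ hi, sub_self, zero_mul, zero_mul]
        have : 0 ≤ W i := by
          have := hW (Nat.zero_le i)
          linarith
        positivity
      · have hWi : 0 ≤ W i := by
          have := hW (Nat.zero_le i)
          linarith
        have h9 : W (i + 2) ≤ (2 ^ s) ^ 2 * W i := by
          calc W (i + 2) ≤ 2 ^ s * W (i + 1) := hWr (i + 1)
            _ ≤ 2 ^ s * (2 ^ s * W i) := by gcongr; exact hWr i
            _ = _ := by ring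
        have h10 := hDn k hk (le_trans (pow_le_pow_right₀ (by norm_num) (by omega)) hik)
        calc (W (i + 2) - 1) * K * Γ' k ≤ ((2 ^ s) ^ 2 * W i) * K * Γ' k := by
              gcongr
              linarith
          _ = W i * (8 * Real.pi * (2187 * 6 * R * (2 ^ s) ^ 2) * (H₁ * Γ' k) / 2) := by
              rw [hK]; ring
          _ ≤ W i * (D k / 2) := by gcongr)
  rw [h3'] at h8
  rw [T3s_addw hS, Complex.add_re]
  have h4 : -(T3s (fw η (wt W J) U)).re ≤ ‖T3s (fw η (wt W J) U)‖ :=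
    (neg_le_abs _).trans (Complex.abs_re_le_norm _)
  have h5 : -(T3s (fw (rwt ζ) (wt W J) U)).re ≤ ‖T3s (fw (rwt ζ) (wt W J) U)‖ :=
    (neg_le_abs _).trans (Complex.abs_re_le_norm _)
  have h6 : 4 * Real.pi * (-(T3s (fw η (wt W J) U)).re)
      ≤ 4 * Real.pi * 2187 * ∑ j ∈ Finset.range J, (W (j + 1) - W j)
        * (gl S (2 ^ j) U * egH Hf S (2 ^ j) U)
        + ∑ j ∈ Finset.range J, (W (j + 1) - W j) * (K * egH Γ' S (2 ^ j) U) := by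
    calc 4 * Real.pi * (-(T3s (fw η (wt W J) U)).re)
        ≤ 4 * Real.pi * (2187 * ∑ j ∈ Finset.range J, (W (j + 1) - W j)
        * (gl S (2 ^ j) U * egH Hf S (2 ^ j) U)
        + ∑ j ∈ Finset.range J, (W (j + 1) - W j)
          * (2187 * (6 * H₁ * R) * egH Γ' S (2 ^ j) U)) := by
          gcongr
          exact h4.trans h1
      _ = _ := by
          rw [mul_add, ← mul_assoc, Finset.mul_sum (f := fun j => (W (j + 1) - W j)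
          * (2187 * (6 * H₁ * R) * egH Γ' S (2 ^ j) U))]
          congr 1
          refine Finset.sum_congr rfl fun j _ => ?_
          rw [hK]
          ring
  have h7 : 4 * Real.pi * (-(T3s (fw (rwt ζ) (wt W J) U)).re)
      ≤ 4 * Real.pi * ‖T3s (fw (rwt ζ) (wt W J) U)‖ := by gcongr
  linarith

lemma energy_le_nw (hW : Monotone W) (hW0 : W 0 = 1) (U : K3 → C3) :
    ∑ k ∈ S, ∑ i, ‖U k i‖ ^ 2 ≤ nw S (wt W J) U := by
  unfold nw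
  refine Finset.sum_le_sum fun k _ => ?_
  have h1 : 1 ≤ wt W J k := by rw [← hW0]; exact wt_ge_zero hW k
  have h2 : 0 ≤ ∑ i, ‖U k i‖ ^ 2 := by positivity
  nlinarith

/-- The weighted norm stays below twice its initial bound. -/
theorem nw_bound2 (hη : IsWeight η) (hB : BdN Hf Γ' H₁ η) (hC : 0 ≤ C) (hT : Tame C ζ)
    (hζ : ∀ τ, |ζ τ| ≤ H) {T : ℝ}
    {a : ℝ → K3 → C3} (h : GalD (addw η ζ) D T S a) (h0 : (0 : K3) ∉ S) (hW : Monotone W)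
    (hW1 : ∀ j, 1 ≤ W j) {j₀ s : ℕ} (hWe : ∀ j, j ≤ j₀ + 1 → W j = 1)
    (hWr : ∀ j, W (j + 1) ≤ 2 ^ s * W j) (hJ : ∀ k ∈ S, kn k ≤ 2 ^ J) (hσ : Shells σ S) {m : ℕ → ℝ}
    (hm0 : ∀ j, 0 ≤ m j) (hD0 : ∀ k, 0 ≤ D k) (hm : ∀ j, ∀ k ∈ S, 2 ^ j ≤ kn k → m j * Hf k ≤ D k)
    {δ Y : ℝ} (hY : 0 < Y) (hδ : 4 * Real.pi * 2187 * Real.sqrt (2 * Y) * δ ≤ 1)
    (hWm : ∀ i, ∑ j ∈ Finset.range (i + 2), (W (j + 1) - W j)
      * Real.sqrt (∑ i ∈ Finset.range (j + 1), σ i / W i) ≤ δ * (W i * m i))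
    (hDr : ∀ b, j₀ ≤ b → ∀ k ∈ S, 2 ^ b ≤ kn k →
      8 * Real.pi * (5184 * C * Real.sqrt (2 * Y) * (2 ^ s) ^ 2) * ((b + 3) ^ 3 * 2 ^ b) ≤ D k)
    (hDn : ∀ k ∈ S, 2 ^ j₀ ≤ kn k →
      8 * Real.pi * (2187 * 6 * Real.sqrt (2 * Y) * (2 ^ s) ^ 2) * (H₁ * Γ' k) ≤ D k)
    (hstart : nw S (wt W J) (a 0) ≤ Y) : ∀ t ∈ Icc 0 T, nw S (wt W J) (a t) ≤ 2 * Y := by
  intro t₁ ht₁
  have hT0 : 0 ≤ T := ht₁.1.trans ht₁.2
  have hW0 : W 0 = 1 := hWe 0 (by omega)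
  set K : ℝ := 4 * Real.pi * 2187 with hK
  have hK0 : 0 ≤ K := by positivity
  set e : ℝ := Y / (2 * (1 + T)) with he
  have he0 : 0 < e := by positivity
  set F' : ℝ → ℝ := fun t => -(2 * nw S (fun k => wt W J k * D k) (a t))
    - 4 * Real.pi * (T3s (fw (addw η ζ) (wt W J) (a t))).re with hF'
  have hd : ∀ t ∈ Icc 0 T, HasDerivWithinAt (fun s => nw S (wt W J) (a s)) (F' t) (Icc 0 T) t :=
    fun t ht => h.nw_deriv (isWeight_addw hη hζ) (wt_neg W J) ht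
  have hBd : ∀ t ∈ Icc 0 T, Y + e * t ≤ 2 * Y := by
    intro t ht
    have h1 : e * t ≤ e * (2 * (1 + T)) := by
      gcongr
      linarith [ht.2]
    have h2 : e * (2 * (1 + T)) = Y := by rw [he]; field_simp
    linarith
  have key := image_le_of_deriv_right_lt_deriv_boundary'
    (f := fun s => nw S (wt W J) (a s)) (f' := F') (a := 0) (b := T)
    (fun t ht => (hd t ht).continuousWithinAt)
    (fun t ht => (hd t ⟨ht.1, ht.2.le⟩).mono_of_mem_nhdsWithin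
      (mem_of_superset (Icc_mem_nhdsGE ht.2) (Icc_subset_Icc_left ht.1)))
    (B := fun t => Y + e * t) (B' := fun _ => e) (by simpa using hstart)
    (by fun_prop)
    (fun t _ => by
      have h1 : HasDerivAt (fun t => Y + e * t) e t := by
        simpa using ((hasDerivAt_id t).const_mul e).const_add Y
      exact h1.hasDerivWithinAt)
    (fun t ht hEq => by
      refine lt_of_le_of_lt ?_ he0
      have htI : t ∈ Icc 0 T := ⟨ht.1, ht.2.le⟩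
      have hle : nw S (wt W J) (a t) ≤ 2 * Y := by
        rw [hEq]; exact hBd t htI
      have hR : Real.sqrt (∑ k ∈ S, ∑ i, ‖a t k i‖ ^ 2) ≤ Real.sqrt (2 * Y) :=
        Real.sqrt_le_sqrt ((energy_le_nw hW hW0 (a t)).trans hle)
      refine dval2 hη hB hC hT hζ (h.supp t) (h.div t) h0 hW hWe hWr hJ hD0 hm0 hm
        (Γ := fun j => K * (Real.sqrt (∑ i ∈ Finset.range (j + 1), σ i / W i)
          * Real.sqrt (2 * Y))) (fun j => by positivity) (fun i => ?_) (fun j => ?_) hR hDr hDn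
      · have h2 : ∑ j ∈ Finset.range (i + 2), (W (j + 1) - W j)
            * (K * (Real.sqrt (∑ i ∈ Finset.range (j + 1), σ i / W i) * Real.sqrt (2 * Y)))
            = (K * Real.sqrt (2 * Y)) * ∑ j ∈ Finset.range (i + 2), (W (j + 1) - W j)
            * Real.sqrt (∑ i ∈ Finset.range (j + 1), σ i / W i) := by
          rw [Finset.mul_sum]
          exact Finset.sum_congr rfl fun j _ => by ring
        rw [h2]
        have h3 : 0 ≤ W i * m i := mul_nonneg (by linarith [hW1 i]) (hm0 i)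
        calc (K * Real.sqrt (2 * Y)) * ∑ j ∈ Finset.range (i + 2), (W (j + 1) - W j)
            * Real.sqrt (∑ i ∈ Finset.range (j + 1), σ i / W i)
            ≤ (K * Real.sqrt (2 * Y)) * (δ * (W i * m i)) := by
              gcongr
              exact hWm i
          _ = (K * Real.sqrt (2 * Y) * δ) * (W i * m i) := by ring
          _ ≤ 1 * (W i * m i) := by gcongr
          _ = _ := one_mul _
      · have h4 := gl_le (U := a t) h0 hW hW1 hJ hσ j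
        have h5 : Real.sqrt (nw S (wt W J) (a t)) ≤ Real.sqrt (2 * Y) := Real.sqrt_le_sqrt hle
        have h6 : gl S (2 ^ j) (a t) ≤ Real.sqrt (∑ i ∈ Finset.range (j + 1), σ i / W i)
            * Real.sqrt (2 * Y) := h4.trans (by gcongr)
        gcongr)
  exact (key ht₁).trans (hBd t₁ ht₁)

/-- If the gradient is bounded, all the norms are. -/
theorem high_bound2 (hη : IsWeight η) (hB : BdN Hf Γ' H₁ η) (hC : 0 ≤ C) (hTm : Tame C ζ)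
    (hζ : ∀ τ, |ζ τ| ≤ H) {m : ℕ → ℝ}
    (hm0 : ∀ j, 0 ≤ m j) (hD0 : ∀ k, 0 ≤ D k) {G A0 As R : ℝ} (hG : 0 ≤ G) {s i₀ : ℕ}
    (hi₀ : ∀ i, i₀ ≤ i → 4 * Real.pi * 2187 * G * (2 ^ s) ^ 2 ≤ m i)
    {T : ℝ} {a : ℝ → K3 → C3} (h : GalD (addw η ζ) D T S a) (h0 : (0 : K3) ∉ S)
    (hm : ∀ j, ∀ k ∈ S, 2 ^ j ≤ kn k → m j * Hf k ≤ D k)
    (hg : ∀ t ∈ Icc 0 T, ∀ L, gl S L (a t) ≤ G)
    (hR : ∀ t ∈ Icc 0 T, Real.sqrt (∑ k ∈ S, ∑ i, ‖a t k i‖ ^ 2) ≤ R)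
    (hDr : ∀ b, i₀ ≤ b → ∀ k ∈ S, 2 ^ b ≤ kn k →
      8 * Real.pi * (5184 * C * R * (2 ^ s) ^ 2) * ((b + 3) ^ 3 * 2 ^ b) ≤ D k)
    (hDn : ∀ k ∈ S, 2 ^ i₀ ≤ kn k → 8 * Real.pi * (2187 * 6 * R * (2 ^ s) ^ 2) * (H₁ * Γ' k) ≤ D k)
    (hA0 : hn 0 (a 0) ≤ A0) (hAs : hn s (a 0) ≤ As) :
    ∀ t ∈ Icc 0 T, hn s (a t) ≤ 2 ^ s * (2 ^ s) ^ (i₀ + 1) * (A0 + 2 ^ s / (2 ^ s) ^ i₀ * As) := by
  intro t ht
  obtain ⟨J, hJ⟩ := exists_J S
  set K : ℝ := 4 * Real.pi * 2187 with hK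
  have hK0 : 0 ≤ K := by positivity
  set W : ℕ → ℝ := fun j => ((2 : ℝ) ^ s) ^ (j - (i₀ + 1)) with hWdef
  have hW : Monotone W := geo_mono s (i₀ + 1)
  have h2s : (1 : ℝ) ≤ 2 ^ s := one_le_pow₀ (by norm_num)
  have hW1 : ∀ j, 1 ≤ W j := fun j => one_le_pow₀ h2s
  have hWe : ∀ j, j ≤ i₀ + 1 → W j = 1 := fun j hj => by
    simp only [hWdef]; rw [Nat.sub_eq_zero_of_le hj, pow_zero]
  have hWr : ∀ j, W (j + 1) ≤ 2 ^ s * W j := by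
    intro j
    simp only [hWdef]
    rw [← pow_succ']
    exact pow_le_pow_right₀ h2s (by omega)
  have hWm : ∀ i, ∑ j ∈ Finset.range (i + 2), (W (j + 1) - W j) * (K * G) ≤ W i * m i := by
    intro i
    rw [← Finset.sum_mul, Finset.sum_range_sub]
    have hW0 : W 0 = 1 := hWe 0 (by omega)
    have hWi : 0 ≤ W i := by linarith [hW1 i]
    rcases le_or_gt (i + 2) (i₀ + 1) with hi | hi
    · rw [hWe _ hi, hW0, sub_self, zero_mul]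
      exact mul_nonneg hWi (hm0 i)
    · have h1 : W (i + 2) ≤ (2 ^ s) ^ 2 * W i := by
        simp only [hWdef]
        rw [← pow_add]
        exact pow_le_pow_right₀ h2s (by omega)
      have h2 := hi₀ i (by omega)
      calc (W (i + 2) - W 0) * (K * G) ≤ ((2 ^ s) ^ 2 * W i) * (K * G) := by
            gcongr
            linarith
        _ = W i * (K * G * (2 ^ s) ^ 2) := by ring
        _ ≤ W i * m i := by gcongr
  have hanti := anti_of_deriv (z := fun s => nw S (wt W J) (a s))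
    (z' := fun t => -(2 * nw S (fun k => wt W J k * D k) (a t))
      - 4 * Real.pi * (T3s (fw (addw η ζ) (wt W J) (a t))).re)
    (fun t ht => h.nw_deriv (isWeight_addw hη hζ) (wt_neg W J) ht)
    (fun t ht => dval2 hη hB hC hTm hζ (h.supp t) (h.div t) h0 hW hWe hWr hJ hD0 hm0 hm
      (Γ := fun _ => K * G) (fun _ => by positivity) hWm
      (fun j => by
        have := hg t ht (2 ^ j)
        gcongr) (hR t ht) hDr hDn) ht
  have h3 := nw_le_hn (J := J) h0 (h.supp 0) (s := s) (j₀ := i₀) hW hWe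
    (fun j => pow_le_pow_right₀ h2s (by omega))
  have h4 := hn_le_nw h0 (h.supp t) hJ (s := s) hW (c := 1 / (2 ^ s) ^ (i₀ + 1)) (by positivity)
    (fun j => by
      simp only [hWdef]
      rw [one_div, inv_mul_le_iff₀ (by positivity), ← pow_add]
      exact pow_le_pow_right₀ h2s (by omega))
  calc hn s (a t) ≤ 2 ^ s / (1 / (2 ^ s) ^ (i₀ + 1)) * nw S (wt W J) (a t) := h4
    _ = 2 ^ s * (2 ^ s) ^ (i₀ + 1) * nw S (wt W J) (a t) := by field_simp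
    _ ≤ 2 ^ s * (2 ^ s) ^ (i₀ + 1) * (A0 + 2 ^ s / (2 ^ s) ^ i₀ * As) := by
        gcongr
        refine hanti.trans (h3.trans ?_)
        gcongr

/-- The a priori bounds, from a sequence of weights. -/
theorem apriori_of_weights2 {A₀ : ℕ → ℝ} {j₀ : ℕ} {Y δ : ℝ} (hY : 0 < Y)
    (hδ : 4 * Real.pi * 2187 * Real.sqrt (2 * Y) * δ ≤ 1)
    (hstart : A₀ 0 + 2 ^ 6 / (2 ^ 6) ^ j₀ * A₀ 6 ≤ Y)
    (hη : IsWeight η) (hB : BdN Hf Γ' H₁ η) (hC : 0 ≤ C) (hTm : Tame C ζ) (hζ : ∀ τ, |ζ τ| ≤ H)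
    (hD0 : ∀ k, 0 ≤ D k) {m d : ℕ → ℝ}
    (hm0 : ∀ j, 0 ≤ m j) {Λ : Set K3}
    (hm : ∀ j, ∀ k ∈ Λ, 2 ^ j ≤ kn k → m j * Hf k ≤ D k)
    (hdD : ∀ j, ∀ k ∈ Λ, 2 ^ j ≤ kn k → d j ≤ D k)
    (hd : ∀ K : ℝ, ∃ b₀ : ℕ, ∀ b : ℕ, b₀ ≤ b → K * (1 + C * (((b : ℝ) + 3) ^ 3 * 2 ^ b)) ≤ d b)
    (hdj : ∀ b, j₀ ≤ b →
      8 * Real.pi * (5184 * C * Real.sqrt (2 * Y) * (2 ^ 6) ^ 2) * (((b : ℝ) + 3) ^ 3 * 2 ^ b) ≤ d b)
    (hDn : ∀ k ∈ Λ, 2 ^ j₀ ≤ kn k →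
      8 * Real.pi * (2187 * 6 * Real.sqrt (2 * Y) * (2 ^ 6) ^ 2) * (H₁ * Γ' k) ≤ D k)
    (hΛσ : ∀ S : Finset K3, ↑S ⊆ Λ → Shells σ S)
    (hW : Monotone W) (hW1 : ∀ j, 1 ≤ W j) (hWe : ∀ j, j ≤ j₀ + 1 → W j = 1)
    (hWs : ∀ j, W j ≤ (2 ^ 6) ^ (j - j₀)) (hWr : ∀ j, W (j + 1) ≤ 2 ^ 6 * W j)
    {c : ℝ} (hc : 0 < c) (hWc : ∀ j, c * (2 ^ 6) ^ j ≤ W j)
    (hWm : ∀ i, ∑ j ∈ Finset.range (i + 2), (W (j + 1) - W j)
      * Real.sqrt (∑ i ∈ Finset.range (j + 1), σ i / W i) ≤ δ * (W i * m i)) :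
    ∃ B : ℕ → ℝ, ∀ S : Finset K3, (0 : K3) ∉ S → ↑S ⊆ Λ → ∀ (T : ℝ) (a : ℝ → K3 → C3),
      GalD (addw η ζ) D T S a → (∀ n, hn n (a 0) ≤ A₀ n) → ∀ t ∈ Icc 0 T, ∀ n,
        hn n (a t) ≤ B n := by
  have hH' := hB.bd
  have hH0 : 0 ≤ H₁ := hB.H0
  set R : ℝ := Real.sqrt (2 * Y) with hRdef
  have hR0 : 0 ≤ R := Real.sqrt_nonneg _
  set G : ℝ := cS * Real.sqrt (2 ^ 6 / c * (2 * Y)) with hG
  have hG0 : 0 ≤ G := mul_nonneg cS_nonneg (Real.sqrt_nonneg _)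
  have hpi := Real.pi_pos
  -- the constant bound of the deterministic part
  have hB' : BdN (fun _ => H₁ + 1) (fun _ => 0) H₁ η :=
    ⟨fun _ => by positivity, fun _ => le_rfl, hH',
      fun a b c _ _ _ => Or.inl ((hH' a b c).trans (by linarith))⟩
  set m' : ℕ → ℝ := fun j => max (d j) 0 / (H₁ + 1) with hm'
  have hm'0 : ∀ j, 0 ≤ m' j := fun j => by simp only [hm']; positivity
  have hm'D : ∀ j, ∀ k ∈ Λ, 2 ^ j ≤ kn k → m' j * (H₁ + 1) ≤ D k := by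
    intro j k hk hjk
    simp only [hm']
    rw [div_mul_cancel₀ _ (by positivity)]
    exact max_le (hdD j k hk hjk) (hD0 k)
  have hex : ∀ s : ℕ, ∃ i₀ : ℕ, ∀ i, i₀ ≤ i → 4 * Real.pi * 2187 * G * (2 ^ s) ^ 2 ≤ m' i ∧
      8 * Real.pi * (5184 * C * R * (2 ^ s) ^ 2) * (((i : ℝ) + 3) ^ 3 * 2 ^ i) ≤ d i := by
    intro s
    set K : ℝ := (H₁ + 1) * (4 * Real.pi * 2187 * G * (2 ^ s) ^ 2)
      + 8 * Real.pi * (5184 * R * (2 ^ s) ^ 2) with hK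
    obtain ⟨b₀, hb₀⟩ := hd K
    refine ⟨b₀, fun i hi => ?_⟩
    have h1 := hb₀ i hi
    have h2 : 0 ≤ C * (((i : ℝ) + 3) ^ 3 * 2 ^ i) := by positivity
    have h3 : 0 ≤ (H₁ + 1) * (4 * Real.pi * 2187 * G * (2 ^ s) ^ 2) := by positivity
    have h4 : 0 ≤ 8 * Real.pi * (5184 * R * (2 ^ s) ^ 2) := by positivity
    constructor
    · simp only [hm']
      rw [le_div_iff₀ (by positivity)]
      refine le_trans ?_ (le_max_left _ _)
      refine le_trans ?_ h1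
      have h5 : 0 ≤ K * (C * (((i : ℝ) + 3) ^ 3 * 2 ^ i)) := by
        rw [hK]; positivity
      nlinarith
    · refine le_trans ?_ h1
      have h5 : 0 ≤ (H₁ + 1) * (4 * Real.pi * 2187 * G * (2 ^ s) ^ 2)
          * (C * (((i : ℝ) + 3) ^ 3 * 2 ^ i)) := by positivity
      calc 8 * Real.pi * (5184 * C * R * (2 ^ s) ^ 2) * (((i : ℝ) + 3) ^ 3 * 2 ^ i)
          = 8 * Real.pi * (5184 * R * (2 ^ s) ^ 2) * (C * (((i : ℝ) + 3) ^ 3 * 2 ^ i)) := by ring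
        _ ≤ K * (1 + C * (((i : ℝ) + 3) ^ 3 * 2 ^ i)) := by rw [hK]; nlinarith
  choose i₀ hi₀ using hex
  refine ⟨fun s => 2 ^ s * (2 ^ s) ^ (i₀ s + 1) * (A₀ 0 + 2 ^ s / (2 ^ s) ^ i₀ s * A₀ s),
    fun S h0 hSΛ T a h hA => ?_⟩
  obtain ⟨J, hJ⟩ := exists_J S
  have hmS : ∀ j, ∀ k ∈ S, 2 ^ j ≤ kn k → m j * Hf k ≤ D k := fun j k hk => hm j k (hSΛ hk)
  have hmS' : ∀ j, ∀ k ∈ S, 2 ^ j ≤ kn k → m' j * (H₁ + 1) ≤ D k := fun j k hk =>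
    hm'D j k (hSΛ hk)
  have hst : nw S (wt W J) (a 0) ≤ Y := by
    refine (nw_le_hn h0 (h.supp 0) (s := 6) hW hWe hWs).trans (le_trans ?_ hstart)
    have h1 := hA 0
    have h2 := hA 6
    gcongr
  have hb := nw_bound2 hη hB hC hTm hζ h h0 hW hW1 hWe hWr hJ (hΛσ S hSΛ) hm0 hD0 hmS hY hδ hWm
    (fun b hb k hk hbk => (hdj b hb).trans (hdD b k (hSΛ hk) hbk))
    (fun k hk hjk => hDn k (hSΛ hk) hjk) hst
  have hW0 : W 0 = 1 := hWe 0 (by omega)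
  have hRt : ∀ t ∈ Icc 0 T, Real.sqrt (∑ k ∈ S, ∑ i, ‖a t k i‖ ^ 2) ≤ R := fun t ht =>
    Real.sqrt_le_sqrt ((energy_le_nw hW hW0 (a t)).trans (hb t ht))
  have hg : ∀ t ∈ Icc 0 T, ∀ L, gl S L (a t) ≤ G := by
    intro t ht L
    refine (gl_le_hn h0 (h.supp t) L).trans ?_
    rw [hG]
    have h3 := hn_le_nw h0 (h.supp t) hJ (s := 6) hW hc hWc
    have h4 := hb t ht
    have h5 := cS_nonneg
    gcongr
    exact h3.trans (by gcongr)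
  intro t ht n
  exact high_bound2 hη hB' hC hTm hζ hm'0 hD0 hG0 (fun i hi => (hi₀ n i hi).1) h h0 hmS' hg hRt
    (fun b hb k hk hbk => ((hi₀ n b hb).2).trans (hdD b k (hSΛ hk) hbk))
    (fun k _ _ => by rw [mul_zero, mul_zero]; exact hD0 k) (hA 0) (hA n) t ht

/-- The a priori bounds. -/
theorem apriori2 (A00 A06 : ℝ) : ∃ (j₀ : ℕ) (A K : ℝ), ∀ (j₁ : ℕ), j₀ ≤ j₁ → ∀ A₀ : ℕ → ℝ,
    A₀ 0 ≤ A00 → A₀ 6 ≤ A06 → ∀ (η : Md → Md → Md → ℝ) (Hf Γ' : K3 → ℝ) (H₁ : ℝ), IsWeight η →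
    BdN Hf Γ' H₁ η →
    ∀ (C H : ℝ) (ζ : Finset K3 → ℝ), 0 ≤ C → Tame C ζ → (∀ τ, |ζ τ| ≤ H) →
    ∀ D : K3 → ℝ, (∀ k, 0 ≤ D k) → ∀ m d : ℕ → ℝ,
    Monotone m → (∀ j, 0 ≤ m j) → ∀ Λ : Set K3,
    (∀ j, ∀ k ∈ Λ, 2 ^ j ≤ kn k → m j * Hf k ≤ D k) →
    (∀ j, ∀ k ∈ Λ, 2 ^ j ≤ kn k → d j ≤ D k) →
    (∀ K : ℝ, ∃ b₀ : ℕ, ∀ b : ℕ, b₀ ≤ b → K * (1 + C * (((b : ℝ) + 3) ^ 3 * 2 ^ b)) ≤ d b) →
    (∀ b, j₁ ≤ b → K * C * (((b : ℝ) + 3) ^ 3 * 2 ^ b) ≤ d b) →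
    (∀ k ∈ Λ, 2 ^ j₁ ≤ kn k → K * H₁ * Γ' k ≤ D k) →
    (∃ n, A ≤ ∑ j ∈ Finset.Ico j₁ n, m j * rr j) →
    ∃ B : ℕ → ℝ, ∀ S : Finset K3, (0 : K3) ∉ S → ↑S ⊆ Λ → ∀ (T : ℝ) (a : ℝ → K3 → C3),
      GalD (addw η ζ) D T S a → (∀ n, hn n (a 0) ≤ A₀ n) → ∀ t ∈ Icc 0 T, ∀ n,
        hn n (a t) ≤ B n := by
  set Y : ℝ := |A00| + 1 with hY
  have hY0 : 0 < Y := by positivity
  set K : ℝ := 4 * Real.pi * 2187 with hK
  have hK0 : 0 ≤ K := by positivity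
  set δ : ℝ := 1 / (K * Real.sqrt (2 * Y) + 1) with hδ
  have hδ0 : 0 < δ := by positivity
  have hδ1 : K * Real.sqrt (2 * Y) * δ ≤ 1 := by
    rw [hδ, mul_one_div, div_le_one (by positivity)]
    linarith
  obtain ⟨A, hA0, hA⟩ := exists_weights (s := 6) le_rfl (δ := δ / Real.sqrt 500) (by positivity)
  obtain ⟨j₀, hj₀⟩ : ∃ j₀ : ℕ, (2 : ℝ) ^ 6 / (2 ^ 6) ^ j₀ * |A06| ≤ 1 := by
    obtain ⟨j₀, hj₀⟩ := pow_unbounded_of_one_lt ((2 : ℝ) ^ 6 * |A06|)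
      (by norm_num : (1 : ℝ) < 2 ^ 6)
    refine ⟨j₀, ?_⟩
    rw [div_mul_eq_mul_div, div_le_one (by positivity)]
    exact hj₀.le
  refine ⟨j₀, A, 8 * Real.pi * (2187 * 6 * Real.sqrt (2 * Y) * (2 ^ 6) ^ 2),
    fun j₁ hj₁ A₀ h00 h06 η Hf Γ' H₁ hη hB C H ζ hC hTm hζ D hD0 m d hmm hm0 Λ hm hdD hd hdj hDn
      ⟨n, hn'⟩ => ?_⟩
  obtain ⟨W, hW, hW1, hWe, hWs, ⟨c, hc, hWc⟩, hWr, hWm⟩ := hA j₁ n m hmm hm0 hn'
  refine apriori_of_weights2 (σ := fun i => 500 * 32 ^ i) (W := W) (δ := δ) (Y := Y)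
    (j₀ := j₁) (A₀ := A₀) hY0 hδ1 ?_ hη hB hC hTm hζ hD0 hm0 hm hdD hd (fun b hb => ?_)
    (fun k hk hjk => ?_) (fun S _ => shells_full S) hW hW1 hWe hWs hWr hc hWc fun i => ?_
  · have h1 := le_abs_self A00
    have h2 : (2 : ℝ) ^ 6 / (2 ^ 6) ^ j₁ * A₀ 6 ≤ 2 ^ 6 / (2 ^ 6) ^ j₀ * |A06| := by
      have h3 : A₀ 6 ≤ |A06| := h06.trans (le_abs_self _)
      calc (2 : ℝ) ^ 6 / (2 ^ 6) ^ j₁ * A₀ 6 ≤ 2 ^ 6 / (2 ^ 6) ^ j₁ * |A06| := by gcongr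
        _ ≤ _ := by gcongr; norm_num
    linarith
  · refine le_trans ?_ (hdj b hb)
    have : (0 : ℝ) ≤ (b : ℝ) := by positivity
    have hpi := Real.pi_pos
    calc 8 * Real.pi * (5184 * C * Real.sqrt (2 * Y) * (2 ^ 6) ^ 2) * (((b : ℝ) + 3) ^ 3 * 2 ^ b)
        ≤ 8 * Real.pi * ((2187 * 6) * C * Real.sqrt (2 * Y) * (2 ^ 6) ^ 2)
          * (((b : ℝ) + 3) ^ 3 * 2 ^ b) := by
          gcongr
          norm_num
      _ = _ := by ring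
  · refine le_trans (le_of_eq ?_) (hDn k hk hjk)
    ring
  · have h3 : ∀ j, Real.sqrt (∑ i ∈ Finset.range (j + 1), 500 * 32 ^ i / W i)
        = Real.sqrt 500 * Real.sqrt (QW W j) := by
      intro j
      rw [← Real.sqrt_mul (by norm_num)]
      unfold QW
      rw [Finset.mul_sum]
      congr 1
      exact Finset.sum_congr rfl fun i _ => by ring
    simp_rw [h3]
    have h4 : ∑ j ∈ Finset.range (i + 2), (W (j + 1) - W j) * (Real.sqrt 500 * Real.sqrt (QW W j))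
        = Real.sqrt 500 * ∑ j ∈ Finset.range (i + 2), (W (j + 1) - W j) * Real.sqrt (QW W j) := by
      rw [Finset.mul_sum]
      exact Finset.sum_congr rfl fun j _ => by ring
    rw [h4]
    calc Real.sqrt 500 * ∑ j ∈ Finset.range (i + 2), (W (j + 1) - W j) * Real.sqrt (QW W j)
        ≤ Real.sqrt 500 * (δ / Real.sqrt 500 * (W i * m i)) := by
          gcongr
          exact hWm i
      _ = δ * (W i * m i) := by field_simp

end Pool.Agent.H226.SW
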