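import Pool.Agent.H226.RT.Lp
import Pool.Agent.H226.SW.Uniq2
import Pool.Agent.H226.SW.Sol

/-!
Existence of smooth solutions, for weights which are the sum of a controlled part and a tame part.
-/

open MeasureTheory Set Filter Topology
open scoped ENNReal NNReal ContDiff
open H459R3.NS Pool.Agent.X96.HT Pool.Agent.X96.DM
open Pool.Agent.H226.RT (tri Tame)

namespace Pool.Agent.H226.SW

variable {θ θb : Finset K3 → ℝ} {D e : K3 → ℝ} {Λ : Set K3} {Cd : ℝ} {r : ℕ} {H C : ℝ}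
  {m : ℕ → ℝ}

lemma tri_subset (hΛ : ∀ k ∈ Λ, -k ∈ Λ) {k p q : K3} (hk : k ∈ Λ) (hp : p ∈ Λ) (hq : q ∈ Λ) :
    (↑(tri k p q) : Set K3) ⊆ Λ := by
  intro x hx
  rw [Finset.mem_coe] at hx
  simp only [tri, Finset.mem_insert, Finset.mem_singleton] at hx
  rcases hx with rfl | rfl | rfl | rfl | rfl | rfl
  · exact hk
  · exact hp
  · exact hq
  · exact hΛ _ hk
  · exact hΛ _ hp
  · exact hΛ _ hq

lemma of_tri_subset {k p q : K3} (h : (↑(tri k p q) : Set K3) ⊆ Λ) : k ∈ Λ ∧ p ∈ Λ ∧ q ∈ Λ :=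
  ⟨h (by simp [tri]), h (by simp [tri]), h (by simp [tri])⟩

open Classical in
/-- the weights of the triads in `Λ` -/
noncomputable def cut (Λ : Set K3) (θ : Finset K3 → ℝ) (τ : Finset K3) : ℝ :=
  if (↑τ : Set K3) ⊆ Λ then θ τ else 0

lemma cut_le (hθ : ∀ τ, |θ τ| ≤ H) (τ : Finset K3) : |cut Λ θ τ| ≤ H := by
  unfold cut
  split_ifs
  · exact hθ τ
  · rw [abs_zero]; exact (abs_nonneg _).trans (hθ ∅)

lemma bil_zero_left (η : Md → Md → Md → ℝ) (k p q : K3) (c : C3) : bil η k p q 0 c = 0 := by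
  have h := bil_smul_left η k p q 0 0 c
  rwa [zero_smul, zero_smul] at h

lemma bil_zero_right (η : Md → Md → Md → ℝ) (k p q : K3) (b : C3) : bil η k p q b 0 = 0 := by
  have h := bil_smul_right η k p q 0 b 0
  rwa [zero_smul, zero_smul] at h

lemma galD_cut {S : Finset K3} (hΛ : ∀ k ∈ Λ, -k ∈ Λ) (hS : ↑S ⊆ Λ) {T : ℝ} {a : ℝ → K3 → C3}
    (h : GalD (rwt θ) D T S a) :
    GalD (addw (rwt (cut Λ θb)) (fun τ => θ τ - θb τ)) D T S a := by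
  refine ⟨h.supp, h.real, h.div, fun t ht k hk i => ?_⟩
  have e : nonl (addw (rwt (cut Λ θb)) (fun τ => θ τ - θb τ)) (a t) k = nonl (rwt θ) (a t) k := by
    unfold nonl
    refine tsum_congr fun p => ?_
    by_cases hp : p ∈ S
    · by_cases hq : k - p ∈ S
      · unfold bil
        refine Finset.sum_congr rfl fun r _ => Finset.sum_congr rfl fun s _ =>
          Finset.sum_congr rfl fun t _ => ?_
        have e1 : addw (rwt (cut Λ θb)) (fun τ => θ τ - θb τ) (-k, r) (p, s) (k - p, t)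
            = rwt θ (-k, r) (p, s) (k - p, t) := by
          unfold addw rwt cut
          simp only
          rw [if_pos (tri_subset hΛ (hΛ _ (hS hk)) (hS hp) (hS hq))]
          ring
        rw [e1]
      · rw [h.supp t _ hq, bil_zero_right, bil_zero_right]
    · rw [h.supp t _ hp, bil_zero_left, bil_zero_left]
  rw [e]
  exact h.deriv t ht k hk i

/-- a lower bound of the dissipation by a sequence -/
lemma exists_d (hD0 : ∀ k, 0 ≤ D k)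
    (hG : ∀ K : ℝ, ∃ R : ℝ, ∀ k ∈ Λ, R ≤ kn k → K * (kn k * Real.log (kn k) ^ 3) ≤ D k) :
    ∃ d : ℕ → ℝ, (∀ j, ∀ k ∈ Λ, 2 ^ j ≤ kn k → d j ≤ D k) ∧ ∀ C : ℝ, 0 ≤ C → ∀ K : ℝ, ∃ b₀ : ℕ,
      ∀ b : ℕ, b₀ ≤ b → K * (1 + C * (((b : ℝ) + 3) ^ 3 * 2 ^ b)) ≤ d b := by
  refine ⟨fun j => sInf (insert ((j : ℝ) * (1 + ((j : ℝ) + 3) ^ 3 * 2 ^ j))
    (D '' {k | k ∈ Λ ∧ 2 ^ j ≤ kn k})), fun j k hk hjk => ?_, fun C hC K => ?_⟩
  · refine csInf_le ⟨0, ?_⟩ (Or.inr ⟨k, ⟨hk, hjk⟩, rfl⟩)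
    rintro x (rfl | ⟨k, -, rfl⟩)
    · positivity
    · exact hD0 k
  · obtain ⟨R, hR⟩ := hG (|K| * (8 + 512 * C))
    obtain ⟨b₁, hb₁⟩ := exists_nat_ge (|K| * (1 + C))
    obtain ⟨b₂, hb₂⟩ := pow_unbounded_of_one_lt R (by norm_num : (1 : ℝ) < 2)
    refine ⟨max (max b₁ b₂) 1, fun b hb => ?_⟩
    have hbb1 : b₁ ≤ b := (le_max_left _ _).trans ((le_max_left _ _).trans hb)
    have hbb2 : b₂ ≤ b := (le_max_right _ _).trans ((le_max_left _ _).trans hb)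
    have hbb3 : 1 ≤ b := (le_max_right _ _).trans hb
    have hb1 : (1 : ℝ) ≤ b := by exact_mod_cast hbb3
    set y : ℝ := ((b : ℝ) + 3) ^ 3 * 2 ^ b with hy
    have hy0 : 0 ≤ y := by positivity
    have hK : K * (1 + C * y) ≤ |K| * (1 + C * y) := by
      gcongr
      exact le_abs_self K
    refine le_csInf ⟨_, Or.inl rfl⟩ ?_
    rintro x (rfl | ⟨k, ⟨hk, hbk⟩, rfl⟩)
    · have h1 : |K| * (1 + C) ≤ b := hb₁.trans (by exact_mod_cast hbb1)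
      calc K * (1 + C * y) ≤ |K| * (1 + C * y) := hK
        _ ≤ |K| * ((1 + C) * (1 + y)) := by
            gcongr
            nlinarith
        _ = (|K| * (1 + C)) * (1 + y) := by ring
        _ ≤ b * (1 + y) := by gcongr
    · have h1 : R ≤ kn k := hb₂.le.trans
        ((pow_le_pow_right₀ (by norm_num) hbb2).trans hbk)
      have h2 := hR k hk h1
      have hpow : (0 : ℝ) < 2 ^ b := by positivity
      have hkn : 0 < kn k := hpow.trans_le hbk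
      have h3 : (b : ℝ) / 2 ≤ Real.log (kn k) := by
        have h4 : Real.log (2 ^ b) ≤ Real.log (kn k) := Real.log_le_log hpow hbk
        rw [Real.log_pow] at h4
        have h5 := Real.log_two_gt_d9
        have h6 : (b : ℝ) * (1 / 2) ≤ b * Real.log 2 := by
          gcongr
          linarith
        linarith
      set l := Real.log (kn k) with hl
      have hl0 : 1 / 2 ≤ l := by linarith
      have h7 : y ≤ 512 * (kn k * l ^ 3) := by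
        calc y ≤ (8 * l) ^ 3 * kn k := by
              rw [hy]
              gcongr
              linarith
          _ = _ := by ring
      have h8 : 1 ≤ 8 * (kn k * l ^ 3) := by
        have h9 : (1 / 2 : ℝ) ^ 3 ≤ l ^ 3 := by gcongr
        have h10 : (1 : ℝ) ≤ kn k := by
          refine le_trans ?_ hbk
          exact one_le_pow₀ (by norm_num)
        calc (1 : ℝ) = 8 * (1 * (1 / 2) ^ 3) := by norm_num
          _ ≤ 8 * (kn k * l ^ 3) := by gcongr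
      calc K * (1 + C * y) ≤ |K| * (1 + C * y) := hK
        _ ≤ |K| * (8 * (kn k * l ^ 3) + C * (512 * (kn k * l ^ 3))) := by gcongr
        _ = |K| * (8 + 512 * C) * (kn k * l ^ 3) := by ring
        _ ≤ D k := h2

/-- the bound of the controlled part -/
noncomputable def Hs (Λ : Set K3) (θb : Finset K3 → ℝ) (Γ : K3 → ℝ) (k : K3) : ℝ :=
  sSup (insert 0 {x | ∃ p q : K3, (k ∈ Λ ∧ p ∈ Λ ∧ q ∈ Λ) ∧ k + p + q = 0 ∧ kn q ≤ kn k
    ∧ kn q ≤ kn p ∧ ¬(kn q ^ 5 ≤ Γ k ^ 2) ∧ x = |θb (tri k p q)|})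

lemma Hs_bdd (hθb : ∀ τ, |θb τ| ≤ H) (Γ : K3 → ℝ) (k : K3) :
    BddAbove (insert 0 {x | ∃ p q : K3, (k ∈ Λ ∧ p ∈ Λ ∧ q ∈ Λ) ∧ k + p + q = 0 ∧ kn q ≤ kn k
    ∧ kn q ≤ kn p ∧ ¬(kn q ^ 5 ≤ Γ k ^ 2) ∧ x = |θb (tri k p q)|}) := by
  refine ⟨H, ?_⟩
  rintro x (rfl | ⟨p, q, -, -, -, -, -, rfl⟩)
  · exact (abs_nonneg _).trans (hθb ∅)
  · exact hθb _

lemma bdN_Hs (hθb : ∀ τ, |θb τ| ≤ H) {Γ : K3 → ℝ} (hΓ : ∀ k, 0 ≤ Γ k) :
    BdN (Hs Λ θb Γ) Γ H (rwt (cut Λ θb)) := by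
  have h0 : ∀ k, 0 ≤ Hs Λ θb Γ k := fun k => le_csSup (Hs_bdd hθb Γ k) (Or.inl rfl)
  refine ⟨h0, hΓ, fun a b c => cut_le hθb _, fun a b c hs h1 h2 => ?_⟩
  by_cases h3 : kn c.1 ^ 5 ≤ Γ a.1 ^ 2
  · exact Or.inr h3
  · left
    unfold rwt cut
    split_ifs with h4
    · have h5 := of_tri_subset h4
      exact le_csSup (Hs_bdd hθb Γ a.1) (Or.inr ⟨b.1, c.1, h5, hs, h1, h2, h3, rfl⟩)
    · rw [abs_zero]; exact h0 _

/-- the a priori bounds -/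
theorem core_ap (hθ : ∀ τ, |θ τ| ≤ H) (hθb : ∀ τ, |θb τ| ≤ H)
    (hC : 0 ≤ C) (hT : Tame C fun τ => θ τ - θb τ) (hD0 : ∀ k, 0 ≤ D k)
    (hΛ : ∀ k ∈ Λ, -k ∈ Λ)
    (hG : ∀ K : ℝ, ∃ R : ℝ, ∀ k ∈ Λ, R ≤ kn k → K * (kn k * Real.log (kn k) ^ 3) ≤ D k)
    (he0 : ∀ k, 0 ≤ e k) (he : ∀ K : ℝ, ∃ R : ℝ, ∀ k ∈ Λ, R ≤ kn k → K * e k ≤ 1)
    (hm0 : ∀ j, 0 ≤ m j) (hms : ¬Summable fun j => m j * rr j)
    (hyp : ∀ k ∈ Λ, ∀ p ∈ Λ, ∀ q ∈ Λ, k + p + q = 0 → kn q ≤ kn k → kn q ≤ kn p →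
      kn q ^ 5 ≤ (e k * D k) ^ 2 ∨ ∀ j : ℕ, 2 ^ j ≤ kn k → m j * |θb (tri k p q)| ≤ D k)
    (A₀ : ℕ → ℝ) :
    ∃ B : ℕ → ℝ, ∀ S : Finset K3, (0 : K3) ∉ S → ↑S ⊆ Λ → ∀ (T : ℝ) (a : ℝ → K3 → C3),
      GalD (rwt θ) D T S a → (∀ n, hn n (a 0) ≤ A₀ n) → ∀ t ∈ Icc 0 T, ∀ n,
        hn n (a t) ≤ B n := by
  obtain ⟨j₀, A, K, hap⟩ := apriori2 (A₀ 0) (A₀ 6)
  obtain ⟨d, hdD, hd⟩ := exists_d hD0 hG
  have hH0 : 0 ≤ H := (abs_nonneg _).trans (hθ ∅)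
  obtain ⟨b₁, hb₁⟩ := hd C hC |K|
  obtain ⟨R₁, hR₁⟩ := he (|K| * H)
  obtain ⟨b₂, hb₂⟩ := pow_unbounded_of_one_lt R₁ (by norm_num : (1 : ℝ) < 2)
  set j₁ := max j₀ (max b₁ b₂) with hj₁
  set Γ : K3 → ℝ := fun k => e k * D k with hΓ
  have hΓ0 : ∀ k, 0 ≤ Γ k := fun k => mul_nonneg (he0 k) (hD0 k)
  have hM0 : ∀ j, 0 ≤ partialSups m j := fun j => (hm0 j).trans (le_partialSups m j)
  have hMH : ∀ j, ∀ k ∈ Λ, 2 ^ j ≤ kn k → partialSups m j * Hs Λ θb Γ k ≤ D k := by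
    intro j k hk hjk
    rcases eq_or_lt_of_le (hM0 j) with h | h
    · rw [← h, zero_mul]; exact hD0 k
    · rw [mul_comm, ← le_div_iff₀ h]
      refine csSup_le ⟨_, Or.inl rfl⟩ ?_
      rintro x (rfl | ⟨p, q, ⟨-, hp, hq⟩, hs, h1, h2, h3, rfl⟩)
      · exact div_nonneg (hD0 k) h.le
      · rw [le_div_iff₀ h, mul_comm]
        rcases eq_or_lt_of_le (abs_nonneg (θb (tri k p q))) with h4 | h4
        · rw [← h4, mul_zero]; exact hD0 k
        · rw [← le_div_iff₀ h4]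
          refine partialSups_le m j _ fun i hi => ?_
          rw [le_div_iff₀ h4]
          rcases hyp k hk p hp q hq hs h1 h2 with h5 | h5
          · exact absurd h5 h3
          · exact h5 i ((pow_le_pow_right₀ (by norm_num) hi).trans hjk)
  obtain ⟨n, hn'⟩ : ∃ n, A ≤ ∑ j ∈ Finset.Ico j₁ n, partialSups m j * rr j := by
    have h1 := (not_summable_iff_tendsto_nat_atTop_of_nonneg
      (fun j => mul_nonneg (hm0 j) (rr_pos j).le)).1 hms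
    obtain ⟨n, hn1, hn2⟩ := ((h1.eventually_ge_atTop
      (A + ∑ j ∈ Finset.range j₁, m j * rr j)).and (eventually_ge_atTop j₁)).exists
    refine ⟨n, ?_⟩
    have h2 : ∑ j ∈ Finset.Ico j₁ n, m j * rr j ≤ ∑ j ∈ Finset.Ico j₁ n, partialSups m j * rr j := by
      refine Finset.sum_le_sum fun j _ => ?_
      have := (rr_pos j).le
      have := le_partialSups m j
      gcongr
    rw [Finset.sum_Ico_eq_sub _ hn2] at h2
    linarith
  have hc1 : ∀ b, j₁ ≤ b → K * C * (((b : ℝ) + 3) ^ 3 * 2 ^ b) ≤ d b := by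
    intro b hb
    refine le_trans ?_ (hb₁ b ((le_max_left _ _).trans ((le_max_right _ _).trans hb)))
    have h1 : K ≤ |K| := le_abs_self K
    have h2 : 0 ≤ ((b : ℝ) + 3) ^ 3 * 2 ^ b := by positivity
    calc K * C * (((b : ℝ) + 3) ^ 3 * 2 ^ b) ≤ |K| * C * (((b : ℝ) + 3) ^ 3 * 2 ^ b) := by gcongr
      _ ≤ |K| * (1 + C * (((b : ℝ) + 3) ^ 3 * 2 ^ b)) := by
          have := abs_nonneg K
          nlinarith
  have hc2 : ∀ k ∈ Λ, 2 ^ j₁ ≤ kn k → K * H * Γ k ≤ D k := by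
    intro k hk hjk
    have h1 : R₁ ≤ kn k := hb₂.le.trans ((pow_le_pow_right₀ (by norm_num)
      ((le_max_right _ _).trans (le_max_right _ _))).trans hjk)
    have h2 := hR₁ k hk h1
    have h3 := hD0 k
    have h4 := he0 k
    calc K * H * Γ k ≤ |K| * H * Γ k := by
          have := hΓ0 k
          gcongr
          exact le_abs_self K
      _ = (|K| * H * e k) * D k := by rw [hΓ]; ring
      _ ≤ 1 * D k := by gcongr
      _ = D k := one_mul _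
  obtain ⟨B, hB⟩ := hap j₁ (le_max_left _ _) A₀ le_rfl le_rfl (rwt (cut Λ θb)) (Hs Λ θb Γ) Γ H
    (isWeight_rwt fun τ => cut_le hθb τ) (bdN_Hs hθb hΓ0) C (H + H) (fun τ => θ τ - θb τ) hC hT
    (fun τ => (abs_sub _ _).trans (add_le_add (hθ τ) (hθb τ))) D hD0 (partialSups m) d
    (partialSups m).monotone hM0 Λ hMH hdD (hd C hC) hc1 hc2 ⟨n, hn'⟩
  exact ⟨B, fun S h0 hS T a h => hB S h0 hS T a (galD_cut hΛ hS h)⟩

end Pool.Agent.H226.SW
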