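import Pool.Agent.H226.SW.Est

/-!
The flux and its absorption, when the size of the weights depends on the frequency.
-/

open MeasureTheory Set Filter Topology
open scoped ENNReal
open H459R3.NS Pool.Agent.X96.HT Pool.Agent.X96.DM

namespace Pool.Agent.H226.SW

variable {η : Md → Md → Md → ℝ} {U : K3 → C3} {S : Finset K3} {k p q : K3} {Hf D : K3 → ℝ}
  {W : ℕ → ℝ} {J : ℕ}

/-- the weights are at most `Hf k` on the triads of the frequency `k` -/
def Bd (Hf : K3 → ℝ) (η : Md → Md → Md → ℝ) : Prop :=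
  ∀ a b c : Md, a.1 + b.1 + c.1 = 0 → |η a b c| ≤ Hf a.1

lemma Bd.nonneg (h : Bd Hf η) (k : K3) : 0 ≤ Hf k :=
  (abs_nonneg _).trans (h (k, true) (0, true) (-k, true) (by simp))

lemma Bd.two (hη : IsWeight η) (h : Bd Hf η) (a b c : Md) (hs : a.1 + b.1 + c.1 = 0) :
    |η a b c| ≤ Hf b.1 := by
  rw [← hη.rot a b c]
  exact h b c a (by rw [← hs]; abel)

lemma Bd.three (hη : IsWeight η) (h : Bd Hf η) (a b c : Md) (hs : a.1 + b.1 + c.1 = 0) :
    |η a b c| ≤ Hf c.1 := by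
  rw [← hη.rot a b c]
  exact Bd.two hη h b c a (by rw [← hs]; abel)

/-- local version of the bound for one triad -/
lemma flux_triad' {L : ℝ} (hL : 0 < L) {h0 : ℝ} (hh0 : 0 ≤ h0)
    (hH : ∀ r s t, |η (k, r) (p, s) (q, t)| ≤ h0) (h : k + p + q = 0)
    (hdiv : ∀ k, dp (kc k) (U k) = 0) :
    ‖∑ r : Bool, ∑ s : Bool, ∑ t : Bool, (η (k, r) (p, s) (q, t) : ℂ) *
      Gs (ps L (kn k)) (ps L (kn p)) (ps L (kn q)) (kc k) (kc p) (kc q) (par r k (U k))
        (par s p (U p)) (par t q (U q))‖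
    ≤ 162 * h0 * (lo L U k * hi L U p * hi L U q + hi L U k * lo L U p * hi L U q
      + hi L U k * hi L U p * lo L U q) := by
  classical
  set η' : Md → Md → Md → ℝ := fun a b c => if a.1 = k ∧ b.1 = p ∧ c.1 = q then η a b c else 0
    with hη'
  have h1 : ∀ a b c, |η' a b c| ≤ h0 := by
    rintro ⟨a, r⟩ ⟨b, s⟩ ⟨c, t⟩
    simp only [hη']
    split_ifs with h2
    · obtain ⟨rfl, rfl, rfl⟩ := h2
      exact hH r s t
    · rw [abs_zero]; exact hh0
  have h2 := flux_triad (η := η') (U := U) hL h1 h hdiv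
  have e : ∀ r s t : Bool, η' (k, r) (p, s) (q, t) = η (k, r) (p, s) (q, t) := by
    intro r s t
    simp [hη']
  simp only [e] at h2
  exact h2

/-- the weighted energy of the high frequencies -/
noncomputable def egH (Hf : K3 → ℝ) (S : Finset K3) (L : ℝ) (U : K3 → C3) : ℝ :=
  ∑ k ∈ S, if L / 2 ≤ kn k then Hf k * ∑ i, ‖U k i‖ ^ 2 else 0

/-- the high frequencies, weighted -/
noncomputable def hiH (Hf : K3 → ℝ) (L : ℝ) (U : K3 → C3) (k : K3) : ℝ :=
  Real.sqrt (Hf k) * hi L U k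

lemma hiH_nonneg (Hf : K3 → ℝ) (L : ℝ) (U : K3 → C3) (k : K3) : 0 ≤ hiH Hf L U k :=
  mul_nonneg (Real.sqrt_nonneg _) (hi_nonneg L U k)

lemma egH_nonneg (hf : ∀ k, 0 ≤ Hf k) (S : Finset K3) (L : ℝ) (U : K3 → C3) :
    0 ≤ egH Hf S L U :=
  Finset.sum_nonneg fun k _ => by
    have := hf k
    positivity

lemma sum_hiH (hf : ∀ k, 0 ≤ Hf k) (L : ℝ) (U : K3 → C3) :
    ∑ k ∈ S, hiH Hf L U k ^ 2 ≤ 9 * egH Hf S L U := by
  unfold egH
  rw [Finset.mul_sum]
  refine Finset.sum_le_sum fun k _ => ?_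
  unfold hiH hi
  rw [mul_pow, Real.sq_sqrt (hf k)]
  have h1 := bt_sq_le k (U k)
  have h2 := hf k
  split_ifs
  · calc Hf k * bt k (U k) ^ 2 ≤ Hf k * (9 * ∑ i, ‖U k i‖ ^ 2) := by gcongr
      _ = _ := by ring
  · simp

/-- The flux through the shell of the frequencies between `L` and `2 L`. -/
theorem fluxH (hη : IsWeight η) (hB : Bd Hf η) (hS : ∀ k ∉ S, U k = 0)
    (hdiv : ∀ k, dp (kc k) (U k) = 0) {L : ℝ} (hL : 0 < L) :
    ‖T3s (fw η (fun k => ps L (kn k)) U)‖ ≤ 2187 * (gl S L U * egH Hf S L U) := by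
  have hf := hB.nonneg
  have h1 := T3s_sym (S3s_fin (η := η) (fun k => ps L (kn k)) hS)
  have e1 : (fun k p q => (fw η (fun k => ps L (kn k)) U k p q + fw η (fun k => ps L (kn k)) U k q p)
      + (fw η (fun k => ps L (kn k)) U p q k + fw η (fun k => ps L (kn k)) U p k q)
      + (fw η (fun k => ps L (kn k)) U q k p + fw η (fun k => ps L (kn k)) U q p k))
      = fun k p q => ∑ r : Bool, ∑ s : Bool, ∑ t : Bool, (η (k, r) (p, s) (q, t) : ℂ) *
      Gs (ps L (kn k)) (ps L (kn p)) (ps L (kn q)) (kc k) (kc p) (kc q) (par r k (U k))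
        (par s p (U p)) (par t q (U q)) := by
    funext k p q; exact fw_sym hη _ U k p q
  rw [e1] at h1
  set X : K3 → ℝ≥0∞ := fun k => ENNReal.ofReal (lo L U k) with hX
  set Y : K3 → ℝ≥0∞ := fun k => ENNReal.ofReal (hiH Hf L U k) with hY
  have h2 : ∀ x : K3 × K3, ‖∑ r : Bool, ∑ s : Bool, ∑ t : Bool,
      (η (x.1, r) (x.2, s) (-x.1 - x.2, t) : ℂ) *
      Gs (ps L (kn x.1)) (ps L (kn x.2)) (ps L (kn (-x.1 - x.2))) (kc x.1) (kc x.2)
        (kc (-x.1 - x.2)) (par r x.1 (U x.1))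
        (par s x.2 (U x.2)) (par t (-x.1 - x.2) (U (-x.1 - x.2)))‖ₑ
      ≤ ENNReal.ofReal 162 * (X x.1 * Y x.2 * Y (-x.1 - x.2)
        + Y x.1 * X x.2 * Y (-x.1 - x.2) + Y x.1 * Y x.2 * X (-x.1 - x.2)) := by
    intro x
    have hs0 : x.1 + x.2 + (-x.1 - x.2) = 0 := by abel
    set h0 : ℝ := min (Hf x.1) (min (Hf x.2) (Hf (-x.1 - x.2))) with hh0
    have hh00 : 0 ≤ h0 := le_min (hf _) (le_min (hf _) (hf _))
    have h3 := flux_triad' (η := η) (U := U) hL hh00 (k := x.1) (p := x.2) (q := -x.1 - x.2)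
      (fun r s t => le_min (hB (x.1, r) (x.2, s) (-x.1 - x.2, t) hs0)
        (le_min (Bd.two hη hB (x.1, r) (x.2, s) (-x.1 - x.2, t) hs0)
          (Bd.three hη hB (x.1, r) (x.2, s) (-x.1 - x.2, t) hs0))) hs0
      hdiv
    have u1 : h0 ≤ Hf x.1 := min_le_left _ _
    have u2 : h0 ≤ Hf x.2 := (min_le_right _ _).trans (min_le_left _ _)
    have u3 : h0 ≤ Hf (-x.1 - x.2) := (min_le_right _ _).trans (min_le_right _ _)
    have g : ∀ {x y : ℝ}, h0 ≤ x → h0 ≤ y → h0 ≤ Real.sqrt x * Real.sqrt y := by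
      intro x y hx hy
      have h1 : 0 ≤ x := hh00.trans hx
      rw [← Real.sqrt_mul h1]
      refine Real.le_sqrt_of_sq_le ?_
      rw [sq]
      exact mul_le_mul hx hy hh00 h1
    have a1 := lo_nonneg L U x.1
    have a2 := lo_nonneg L U x.2
    have a3 := lo_nonneg L U (-x.1 - x.2)
    have b1 := hi_nonneg L U x.1
    have b2 := hi_nonneg L U x.2
    have b3 := hi_nonneg L U (-x.1 - x.2)
    have c1 := hiH_nonneg Hf L U x.1
    have c2 := hiH_nonneg Hf L U x.2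
    have c3 := hiH_nonneg Hf L U (-x.1 - x.2)
    have h4 : 162 * h0 * (lo L U x.1 * hi L U x.2 * hi L U (-x.1 - x.2)
          + hi L U x.1 * lo L U x.2 * hi L U (-x.1 - x.2)
          + hi L U x.1 * hi L U x.2 * lo L U (-x.1 - x.2))
        ≤ 162 * (lo L U x.1 * hiH Hf L U x.2 * hiH Hf L U (-x.1 - x.2)
          + hiH Hf L U x.1 * lo L U x.2 * hiH Hf L U (-x.1 - x.2)
          + hiH Hf L U x.1 * hiH Hf L U x.2 * lo L U (-x.1 - x.2)) := by
      have t1 : h0 * (lo L U x.1 * hi L U x.2 * hi L U (-x.1 - x.2))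
          ≤ lo L U x.1 * hiH Hf L U x.2 * hiH Hf L U (-x.1 - x.2) := by
        unfold hiH
        calc h0 * (lo L U x.1 * hi L U x.2 * hi L U (-x.1 - x.2))
            ≤ (Real.sqrt (Hf x.2) * Real.sqrt (Hf (-x.1 - x.2)))
              * (lo L U x.1 * hi L U x.2 * hi L U (-x.1 - x.2)) := by
              gcongr
              exact g u2 u3
          _ = _ := by ring
      have t2 : h0 * (hi L U x.1 * lo L U x.2 * hi L U (-x.1 - x.2))
          ≤ hiH Hf L U x.1 * lo L U x.2 * hiH Hf L U (-x.1 - x.2) := by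
        unfold hiH
        calc h0 * (hi L U x.1 * lo L U x.2 * hi L U (-x.1 - x.2))
            ≤ (Real.sqrt (Hf x.1) * Real.sqrt (Hf (-x.1 - x.2)))
              * (hi L U x.1 * lo L U x.2 * hi L U (-x.1 - x.2)) := by
              gcongr
              exact g u1 u3
          _ = _ := by ring
      have t3 : h0 * (hi L U x.1 * hi L U x.2 * lo L U (-x.1 - x.2))
          ≤ hiH Hf L U x.1 * hiH Hf L U x.2 * lo L U (-x.1 - x.2) := by
        unfold hiH
        calc h0 * (hi L U x.1 * hi L U x.2 * lo L U (-x.1 - x.2))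
            ≤ (Real.sqrt (Hf x.1) * Real.sqrt (Hf x.2))
              * (hi L U x.1 * hi L U x.2 * lo L U (-x.1 - x.2)) := by
              gcongr
              exact g u1 u2
          _ = _ := by ring
      linarith
    rw [← ofReal_norm]
    refine (ENNReal.ofReal_le_ofReal (h3.trans h4)).trans (le_of_eq ?_)
    rw [ENNReal.ofReal_mul (by norm_num), ENNReal.ofReal_add (by positivity) (by positivity),
      ENNReal.ofReal_add (by positivity) (by positivity), ofReal3 a1 c2, ofReal3 c1 a2,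
      ofReal3 c1 c2]
  have h4 : ‖(6 : ℂ) * T3s (fw η (fun k => ps L (kn k)) U)‖ₑ
      ≤ ENNReal.ofReal 162 * (3 * tz X Y Y) := by
    rw [h1]
    refine enorm_T3s_le.trans ((ENNReal.tsum_le_tsum h2).trans ?_)
    rw [ENNReal.tsum_mul_left, ENNReal.tsum_add, ENNReal.tsum_add]
    have c1 : ∑' p : K3 × K3, X p.1 * Y p.2 * Y (-p.1 - p.2) = tz X Y Y := rfl
    have c2 : ∑' p : K3 × K3, Y p.1 * X p.2 * Y (-p.1 - p.2) = tz X Y Y := tz_comm12 _ _ _
    have c3 : ∑' p : K3 × K3, Y p.1 * Y p.2 * X (-p.1 - p.2) = tz X Y Y := (tz_rot _ _ _).symm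
    rw [c1, c2, c3]
    refine le_of_eq ?_
    ring
  have zlo : ∀ k ∉ S, lo L U k = 0 := by
    intro k hk
    unfold lo
    rw [hS k hk]
    simp [bt, par_at_zero]
  have zhi : ∀ k ∉ S, hiH Hf L U k = 0 := by
    intro k hk
    unfold hiH hi
    rw [hS k hk]
    simp [bt, par_at_zero]
  have sX : ∑' k, X k = ENNReal.ofReal (∑ k ∈ S, lo L U k) := by
    rw [ENNReal.ofReal_sum_of_nonneg fun k _ => lo_nonneg L U k]
    refine tsum_eq_sum fun k hk => ?_
    simp only [hX, zlo k hk, ENNReal.ofReal_zero]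
  have sY : e2 Y * e2 Y = ENNReal.ofReal (∑ k ∈ S, hiH Hf L U k ^ 2) := by
    rw [← sq]
    unfold e2
    rw [enn_half_sq, ENNReal.ofReal_sum_of_nonneg fun k _ => sq_nonneg _]
    rw [tsum_eq_sum (s := S) fun k hk => by simp [hY, zhi k hk]]
    refine Finset.sum_congr rfl fun k _ => ?_
    rw [ENNReal.ofReal_pow (hiH_nonneg Hf L U k)]
  have g0 := gl_nonneg S L U
  have g1 := egH_nonneg hf S L U
  have slo : 0 ≤ ∑ k ∈ S, lo L U k := Finset.sum_nonneg fun k _ => lo_nonneg L U k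
  have shi : 0 ≤ ∑ k ∈ S, hiH Hf L U k ^ 2 := Finset.sum_nonneg fun k _ => sq_nonneg _
  have h5 : ENNReal.ofReal (6 * ‖T3s (fw η (fun k => ps L (kn k)) U)‖)
      ≤ ENNReal.ofReal (162 * (3 * ((∑ k ∈ S, lo L U k) * ∑ k ∈ S, hiH Hf L U k ^ 2))) := by
    rw [enorm_mul, ← ofReal_norm, ← ofReal_norm] at h4
    rw [ENNReal.ofReal_mul (by norm_num : (0 : ℝ) ≤ 6)]
    have e6 : ENNReal.ofReal ‖(6 : ℂ)‖ = ENNReal.ofReal 6 := by norm_num
    rw [e6] at h4
    refine h4.trans ?_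
    rw [ENNReal.ofReal_mul (p := 162) (by positivity), ENNReal.ofReal_mul (p := 3) (by norm_num),
      ENNReal.ofReal_mul slo]
    have e3 : ENNReal.ofReal 3 = 3 := by norm_num
    rw [e3]
    gcongr
    refine (tz_l1 X Y).trans (le_of_eq ?_)
    rw [sX, sY]
  have h6 := (ENNReal.ofReal_le_ofReal_iff (by positivity)).1 h5
  have h7 : (∑ k ∈ S, lo L U k) * ∑ k ∈ S, hiH Hf L U k ^ 2
      ≤ (3 * gl S L U) * (9 * egH Hf S L U) :=
    mul_le_mul (sum_lo L U) (sum_hiH hf L U) shi (by positivity)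
  have h8 : 162 * (3 * ((∑ k ∈ S, lo L U k) * ∑ k ∈ S, hiH Hf L U k ^ 2))
      ≤ 162 * (3 * ((3 * gl S L U) * (9 * egH Hf S L U))) := by gcongr
  linarith

/-- The production of the weighted norm. -/
lemma prod_wtH (hη : IsWeight η) (hB : Bd Hf η) {U : K3 → C3}
    (hS : ∀ k ∉ S, U k = 0) (hdiv : ∀ k, dp (kc k) (U k) = 0) (hW : Monotone W) (J : ℕ) :
    ‖T3s (fw η (wt W J) U)‖ ≤ 2187 *
      ∑ j ∈ Finset.range J, (W (j + 1) - W j) * (gl S (2 ^ j) U * egH Hf S (2 ^ j) U) := by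
  have e : wt W J = fun k => ∑ j ∈ Finset.range (J + 1), cf W j * wf j k := by
    funext k
    rw [Finset.sum_range_succ']
    unfold wt
    simp only [cf, wf, mul_one]
    rw [add_comm]
  rw [e, T3s_lin (S := S) _ _ _ hS, Finset.sum_range_succ']
  simp only [cf, wf]
  rw [T3s_const hη hS hdiv, mul_zero, add_zero]
  refine (norm_sum_le _ _).trans ?_
  rw [Finset.mul_sum]
  refine Finset.sum_le_sum fun j _ => ?_
  have h2 := sub_nonneg.2 (hW (Nat.le_succ j))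
  rw [norm_mul, Complex.norm_real, Real.norm_eq_abs, abs_of_nonneg h2]
  have h3 := fluxH hη hB hS hdiv (L := 2 ^ j) (by positivity)
  calc (W (j + 1) - W j) * ‖T3s (fw η (fun k => ps (2 ^ j) (kn k)) U)‖
      ≤ (W (j + 1) - W j) * (2187 * (gl S (2 ^ j) U * egH Hf S (2 ^ j) U)) := by
        simp only [Nat.succ_eq_add_one] at h2
        gcongr
    _ = _ := by ring

/-- The production is absorbed by the dissipation. -/
lemma absorbH {U : K3 → C3} (hf : ∀ k, 0 ≤ Hf k) (h0 : (0 : K3) ∉ S) (hW : Monotone W)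
    (hW0 : 0 ≤ W 0)
    (hJ : ∀ k ∈ S, kn k ≤ 2 ^ J) {m Γ : ℕ → ℝ} (hm0 : ∀ j, 0 ≤ m j)
    (hm : ∀ j, ∀ k ∈ S, 2 ^ j ≤ kn k → m j * Hf k ≤ D k) (hΓ0 : ∀ j, 0 ≤ Γ j) {K : ℝ}
    (hΓ : ∀ j, K * gl S (2 ^ j) U ≤ Γ j)
    (hWm : ∀ i, ∑ j ∈ Finset.range (i + 2), (W (j + 1) - W j) * Γ j ≤ W i * m i) :
    K * ∑ j ∈ Finset.range J, (W (j + 1) - W j) * (gl S (2 ^ j) U * egH Hf S (2 ^ j) U)
      ≤ nw S (fun k => wt W J k * D k) U := by
  have hd : ∀ j, 0 ≤ W (j + 1) - W j := fun j => sub_nonneg.2 (hW (Nat.le_succ j))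
  have h1 : K * ∑ j ∈ Finset.range J, (W (j + 1) - W j) * (gl S (2 ^ j) U * egH Hf S (2 ^ j) U)
      ≤ ∑ j ∈ Finset.range J, (W (j + 1) - W j) * (Γ j * egH Hf S (2 ^ j) U) := by
    rw [Finset.mul_sum]
    refine Finset.sum_le_sum fun j _ => ?_
    have h2 := hΓ j
    have h3 := egH_nonneg hf S (2 ^ j) U
    calc K * ((W (j + 1) - W j) * (gl S (2 ^ j) U * egH Hf S (2 ^ j) U))
        = (W (j + 1) - W j) * ((K * gl S (2 ^ j) U) * egH Hf S (2 ^ j) U) := by ring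
      _ ≤ _ := by
        have := hd j
        gcongr
  refine h1.trans ?_
  have h4 : ∑ j ∈ Finset.range J, (W (j + 1) - W j) * (Γ j * egH Hf S (2 ^ j) U)
      = ∑ k ∈ S, (∑ j ∈ Finset.range J, if (2 : ℝ) ^ j / 2 ≤ kn k then (W (j + 1) - W j) * Γ j else 0)
        * (Hf k * ∑ i, ‖U k i‖ ^ 2) := by
    have e : ∀ j, (W (j + 1) - W j) * (Γ j * egH Hf S (2 ^ j) U)
        = ∑ k ∈ S, (if (2 : ℝ) ^ j / 2 ≤ kn k then (W (j + 1) - W j) * Γ j else 0)
          * (Hf k * ∑ i, ‖U k i‖ ^ 2) := by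
      intro j
      unfold egH
      rw [← mul_assoc, Finset.mul_sum]
      refine Finset.sum_congr rfl fun k _ => ?_
      split_ifs
      · rfl
      · simp
    simp_rw [e]
    rw [Finset.sum_comm]
    exact Finset.sum_congr rfl fun k _ => (Finset.sum_mul _ _ _).symm
  rw [h4]
  unfold nw
  refine Finset.sum_le_sum fun k hk => ?_
  have hk0 : k ≠ 0 := fun e => h0 (e ▸ hk)
  obtain ⟨i, hi1, hi2⟩ := exists_dyadic hk0
  have hiJ : i ≤ J := by
    by_contra hc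
    have h5 : (2 : ℝ) ^ J < 2 ^ i := pow_lt_pow_right₀ (by norm_num) (by omega)
    linarith [hJ k hk]
  have h5 : (∑ j ∈ Finset.range J, if (2 : ℝ) ^ j / 2 ≤ kn k then (W (j + 1) - W j) * Γ j else 0)
      ≤ ∑ j ∈ Finset.range (i + 2), (W (j + 1) - W j) * Γ j := by
    rw [← Finset.sum_filter]
    refine Finset.sum_le_sum_of_subset_of_nonneg (fun j hj => ?_) fun j _ _ =>
      mul_nonneg (hd j) (hΓ0 j)
    rw [Finset.mem_filter] at hj
    rw [Finset.mem_range]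
    by_contra hc
    have h6 : (2 : ℝ) ^ (i + 2) ≤ 2 ^ j := pow_le_pow_right₀ (by norm_num) (by omega)
    have h7 : (2 : ℝ) ^ (i + 2) = 2 * 2 ^ (i + 1) := by ring
    linarith [hj.2]
  have hfk := hf k
  have h6 : W i * m i * Hf k ≤ wt W J k * D k := by
    have a1 := wt_ge hW hi1 hiJ
    have a2 := hm i k hk hi1
    have a3 := mul_nonneg (hm0 i) hfk
    have a4 : 0 ≤ W i := hW0.trans (hW (Nat.zero_le i))
    have a5 : 0 ≤ wt W J k := a4.trans a1
    calc W i * m i * Hf k = W i * (m i * Hf k) := by ring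
      _ ≤ wt W J k * (m i * Hf k) := by gcongr
      _ ≤ _ := by gcongr
  have h7 : (∑ j ∈ Finset.range J, if (2 : ℝ) ^ j / 2 ≤ kn k then (W (j + 1) - W j) * Γ j else 0)
      * Hf k ≤ wt W J k * D k :=
    le_trans (by gcongr; exact h5.trans (hWm i)) h6
  calc _ = ((∑ j ∈ Finset.range J, if (2 : ℝ) ^ j / 2 ≤ kn k then (W (j + 1) - W j) * Γ j else 0)
      * Hf k) * ∑ i, ‖U k i‖ ^ 2 := by ring
    _ ≤ _ := by gcongr

end Pool.Agent.H226.SW
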