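import Mathlib

/-!
From indicator functions to vectors: norms of trilinear forms.
-/

open Finset

namespace Pool.Agent.H226.RT

variable {ι : Type*}

/-- harmonic numbers -/
noncomputable def hh (n : ℕ) : ℝ := ∑ i ∈ range n, 1 / ((i : ℝ) + 1)

lemma hh_nonneg (n : ℕ) : 0 ≤ hh n := sum_nonneg fun i _ => by positivity

lemma hh_mono {m n : ℕ} (h : m ≤ n) : hh m ≤ hh n :=
  sum_le_sum_of_subset_of_nonneg (range_mono h) fun i _ _ => by positivity

lemma sum_sq_pos [DecidableEq ι] (f : ι → ℝ) {κ : ℝ} :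
    ∀ (n : ℕ) (s : Finset ι), s.card = n → (∀ k ∈ s, 0 ≤ f k) →
      (∀ A ⊆ s, ∑ k ∈ A, f k ≤ κ * Real.sqrt A.card) → ∑ k ∈ s, f k ^ 2 ≤ κ ^ 2 * hh n := by
  intro n
  induction n with
  | zero =>
    intro s hs _ _
    rw [card_eq_zero.1 hs]
    simp [hh]
  | succ n ih =>
    intro s hs hf hA
    have hne : s.Nonempty := by rw [← card_pos]; omega
    obtain ⟨k₀, hk₀, hmin⟩ := exists_min_image s f hne
    have h1 : (n + 1 : ℝ) * f k₀ ≤ κ * Real.sqrt (n + 1) := by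
      have h2 := hA s Subset.rfl
      have h3 : ∑ k ∈ s, f k₀ ≤ ∑ k ∈ s, f k := sum_le_sum hmin
      rw [sum_const, nsmul_eq_mul, hs] at h3
      rw [hs] at h2
      push_cast at h2 h3
      exact h3.trans h2
    have h2 : f k₀ ^ 2 ≤ κ ^ 2 * (1 / ((n : ℝ) + 1)) := by
      have h4 : 0 ≤ f k₀ := hf k₀ hk₀
      have h5 : ((n + 1 : ℝ) * f k₀) ^ 2 ≤ (κ * Real.sqrt (n + 1)) ^ 2 := by gcongr
      rw [mul_pow, mul_pow, Real.sq_sqrt (by positivity)] at h5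
      rw [mul_one_div, le_div_iff₀ (by positivity)]
      have h6 : (0 : ℝ) < n + 1 := by positivity
      nlinarith
    have h3 := ih (s.erase k₀) (by rw [card_erase_of_mem hk₀, hs]; rfl)
      (fun k hk => hf k (mem_of_mem_erase hk)) fun A hA' => hA A (hA'.trans (erase_subset _ _))
    rw [← add_sum_erase s _ hk₀]
    have h4 : hh (n + 1) = hh n + 1 / ((n : ℝ) + 1) := by unfold hh; rw [sum_range_succ]
    rw [h4, mul_add]
    linarith

lemma sum_sq [DecidableEq ι] (f : ι → ℝ) {κ : ℝ} (s : Finset ι)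
    (hA : ∀ A ⊆ s, |∑ k ∈ A, f k| ≤ κ * Real.sqrt A.card) :
    ∑ k ∈ s, f k ^ 2 ≤ 2 * κ ^ 2 * hh s.card := by
  have h1 := sum_sq_pos f _ (s.filter fun k => 0 ≤ f k) rfl
    (fun k hk => (mem_filter.1 hk).2)
    fun A hA' => (le_abs_self _).trans (hA A (hA'.trans (filter_subset _ _)))
  have h2 := sum_sq_pos (fun k => -f k) _ (s.filter fun k => ¬ 0 ≤ f k) rfl
    (fun k hk => by
      have := (mem_filter.1 hk).2
      linarith)
    fun A hA' => by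
      rw [sum_neg_distrib]
      exact (neg_le_abs _).trans (hA A (hA'.trans (filter_subset _ _)))
  rw [← sum_filter_add_sum_filter_not s (fun k => 0 ≤ f k)]
  have h3 : hh (s.filter fun k => 0 ≤ f k).card ≤ hh s.card := hh_mono (card_filter_le _ _)
  have h4 : hh (s.filter fun k => ¬ 0 ≤ f k).card ≤ hh s.card := hh_mono (card_filter_le _ _)
  have h5 : 0 ≤ κ ^ 2 := sq_nonneg κ
  have h6 : κ ^ 2 * hh (s.filter fun k => 0 ≤ f k).card ≤ κ ^ 2 * hh s.card := by gcongr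
  have h7 : κ ^ 2 * hh (s.filter fun k => ¬ 0 ≤ f k).card ≤ κ ^ 2 * hh s.card := by gcongr
  simp only [neg_sq] at h2
  linarith

/-- the norm -/
noncomputable def nn (s : Finset ι) (x : ι → ℝ) : ℝ := Real.sqrt (∑ k ∈ s, x k ^ 2)

lemma nn_nonneg (s : Finset ι) (x : ι → ℝ) : 0 ≤ nn s x := Real.sqrt_nonneg _

/-- one variable -/
lemma lin_bound [DecidableEq ι] (f : ι → ℝ) {κ : ℝ} (hκ : 0 ≤ κ) (s : Finset ι)
    (hA : ∀ A ⊆ s, |∑ k ∈ A, f k| ≤ κ * Real.sqrt A.card) (x : ι → ℝ) :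
    |∑ k ∈ s, f k * x k| ≤ κ * Real.sqrt (2 * hh s.card) * nn s x := by
  have h1 := sum_sq f s hA
  have h2 := sum_mul_sq_le_sq_mul_sq s f x
  have h3 : (∑ k ∈ s, f k * x k) ^ 2 ≤ (κ * Real.sqrt (2 * hh s.card) * nn s x) ^ 2 := by
    have h4 : 0 ≤ hh s.card := hh_nonneg _
    have h5 : 0 ≤ ∑ k ∈ s, x k ^ 2 := sum_nonneg fun _ _ => sq_nonneg _
    unfold nn
    rw [mul_pow, mul_pow, Real.sq_sqrt (by positivity), Real.sq_sqrt h5]
    calc (∑ k ∈ s, f k * x k) ^ 2 ≤ (∑ i ∈ s, f i ^ 2) * ∑ i ∈ s, x i ^ 2 := h2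
      _ ≤ (2 * κ ^ 2 * hh s.card) * ∑ i ∈ s, x i ^ 2 := by gcongr
      _ = _ := by ring
  exact abs_le_of_sq_le_sq h3 (mul_nonneg (mul_nonneg hκ (Real.sqrt_nonneg _)) (nn_nonneg _ _))

/-- three variables -/
lemma tri_bound [DecidableEq ι] (t : ι → ι → ι → ℝ) {κ : ℝ} (hκ : 0 ≤ κ) (s : Finset ι)
    (h : ∀ A ⊆ s, ∀ B ⊆ s, ∀ C ⊆ s, |∑ k ∈ A, ∑ p ∈ B, ∑ q ∈ C, t k p q|
      ≤ κ * Real.sqrt A.card * Real.sqrt B.card * Real.sqrt C.card) (x y z : ι → ℝ) :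
    |∑ k ∈ s, ∑ p ∈ s, ∑ q ∈ s, t k p q * x k * y p * z q|
      ≤ κ * Real.sqrt (2 * hh s.card) ^ 3 * (nn s x * nn s y * nn s z) := by
  set R := Real.sqrt (2 * hh s.card) with hR
  have hR0 : 0 ≤ R := Real.sqrt_nonneg _
  have hx := nn_nonneg s x
  have hy := nn_nonneg s y
  have hz := nn_nonneg s z
  -- first variable
  have h1 : ∀ B ⊆ s, ∀ C ⊆ s, |∑ k ∈ s, (∑ p ∈ B, ∑ q ∈ C, t k p q) * x k|
      ≤ κ * Real.sqrt B.card * Real.sqrt C.card * R * nn s x := by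
    intro B hB C hC
    refine lin_bound _ (by positivity) s (fun A hA => ?_) x
    refine (h A hA B hB C hC).trans (le_of_eq ?_)
    ring
  -- second variable
  have h2 : ∀ C ⊆ s, |∑ p ∈ s, (∑ k ∈ s, ∑ q ∈ C, t k p q * x k) * y p|
      ≤ κ * Real.sqrt C.card * R * nn s x * R * nn s y := by
    intro C hC
    refine lin_bound _ (by positivity) s (fun B hB => ?_) y
    have e : ∑ p ∈ B, ∑ k ∈ s, ∑ q ∈ C, t k p q * x k
        = ∑ k ∈ s, (∑ p ∈ B, ∑ q ∈ C, t k p q) * x k := by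
      rw [sum_comm]
      refine sum_congr rfl fun k _ => ?_
      rw [sum_mul]
      exact sum_congr rfl fun p _ => (sum_mul _ _ _).symm
    rw [e]
    refine (h1 B hB C hC).trans (le_of_eq ?_)
    ring
  -- third variable
  have h3 : |∑ q ∈ s, (∑ k ∈ s, ∑ p ∈ s, t k p q * x k * y p) * z q|
      ≤ κ * R * nn s x * R * nn s y * R * nn s z := by
    refine lin_bound _ (by positivity) s (fun C hC => ?_) z
    have e : ∑ q ∈ C, ∑ k ∈ s, ∑ p ∈ s, t k p q * x k * y p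
        = ∑ p ∈ s, (∑ k ∈ s, ∑ q ∈ C, t k p q * x k) * y p := by
      simp_rw [sum_mul]
      rw [sum_comm, sum_comm (s := s) (t := s)]
      refine sum_congr rfl fun k _ => ?_
      rw [sum_comm]
    rw [e]
    refine (h2 C hC).trans (le_of_eq ?_)
    ring
  have e : ∑ k ∈ s, ∑ p ∈ s, ∑ q ∈ s, t k p q * x k * y p * z q
      = ∑ q ∈ s, (∑ k ∈ s, ∑ p ∈ s, t k p q * x k * y p) * z q := by
    simp_rw [sum_mul]
    rw [sum_comm (s := s) (t := s) (f := fun q k => ∑ p ∈ s, t k p q * x k * y p * z q)]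
    refine sum_congr rfl fun k _ => ?_
    rw [sum_comm]
  rw [e]
  refine h3.trans (le_of_eq ?_)
  ring

end Pool.Agent.H226.RT
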