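import Mathlib
import Pool.Agent.H226.RT.Lin

/-!
Random sums over the triads `k + p + q = 0`: a bound for all triples of subsets.
-/

open Finset MeasureTheory ProbabilityTheory
open scoped ENNReal NNReal

namespace Pool.Agent.H226.RT

variable {G : Type*} [AddCommGroup G] [DecidableEq G]

/-- the unordered triad of the frequencies `k`, `p`, `q`, together with the opposite one -/
def tri (k p q : G) : Finset G := {k, p, q, -k, -p, -q}

lemma card_tri (k p q : G) : (tri k p q).card ≤ 6 := card_le_six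

lemma mem_tri1 (k p q : G) : k ∈ tri k p q := by simp [tri]

lemma mem_tri2 (k p q : G) : p ∈ tri k p q := by simp [tri]

/-- the pairs in `A × B` with third frequency in `C` -/
def pairs (A B C : Finset G) : Finset (G × G) := (A ×ˢ B).filter fun x => -x.1 - x.2 ∈ C

lemma mem_pairs {A B C : Finset G} {x : G × G} :
    x ∈ pairs A B C ↔ x.1 ∈ A ∧ x.2 ∈ B ∧ -x.1 - x.2 ∈ C := by
  unfold pairs; rw [mem_filter, mem_product, and_assoc]

lemma card_pairs1 (A B C : Finset G) : (pairs A B C).card ≤ A.card * B.card := by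
  rw [← card_product]; exact card_le_card (filter_subset _ _)

lemma card_pairs2 (A B C : Finset G) : (pairs A B C).card ≤ A.card * C.card := by
  rw [← card_product]
  refine card_le_card_of_injOn (fun x => (x.1, -x.1 - x.2)) (fun x hx => ?_) ?_
  · have := mem_pairs.1 hx
    exact mem_product.2 ⟨this.1, this.2.2⟩
  · intro x _ y _ h
    simp only [Prod.mk.injEq] at h
    obtain ⟨h1, h2⟩ := h
    rw [h1] at h2
    exact Prod.ext h1 (sub_right_injective h2)

lemma card_pairs3 (A B C : Finset G) : (pairs A B C).card ≤ B.card * C.card := by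
  rw [← card_product]
  refine card_le_card_of_injOn (fun x => (x.2, -x.1 - x.2)) (fun x hx => ?_) ?_
  · have := mem_pairs.1 hx
    exact mem_product.2 ⟨this.2.1, this.2.2⟩
  · intro x _ y _ h
    simp only [Prod.mk.injEq] at h
    obtain ⟨h1, h2⟩ := h
    rw [h1] at h2
    exact Prod.ext (neg_injective (sub_left_injective h2)) h1

lemma card_pairs_mul (A B C : Finset G) :
    (pairs A B C).card * (A.card + B.card + C.card) ≤ 3 * (A.card * B.card * C.card) := by
  have h1 := Nat.mul_le_mul_right C.card (card_pairs1 A B C)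
  have h2 := Nat.mul_le_mul_right B.card (card_pairs2 A B C)
  have h3 := Nat.mul_le_mul_right A.card (card_pairs3 A B C)
  nlinarith

/-- the random sum -/
def rs (X : Finset G → ℝ) (A B C : Finset G) : ℝ :=
  ∑ x ∈ pairs A B C, X (tri x.1 x.2 (-x.1 - x.2))

/-- multiplicities -/
def mult (A B C τ : Finset G) : ℕ :=
  ((pairs A B C).filter fun x => tri x.1 x.2 (-x.1 - x.2) = τ).card

/-- the triads -/
def triads (A B C : Finset G) : Finset (Finset G) :=
  (pairs A B C).image fun x => tri x.1 x.2 (-x.1 - x.2)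

lemma rs_eq (X : Finset G → ℝ) (A B C : Finset G) :
    rs X A B C = ∑ τ ∈ triads A B C, (mult A B C τ : ℝ) * X τ := by
  unfold rs triads mult
  rw [sum_comp]
  simp only [nsmul_eq_mul]

lemma mult_le (A B C τ : Finset G) : mult A B C τ ≤ 36 := by
  unfold mult
  rcases ((pairs A B C).filter fun x => tri x.1 x.2 (-x.1 - x.2) = τ).eq_empty_or_nonempty with h | h
  · rw [h]; simp
  · obtain ⟨y, hy⟩ := h
    have hy2 := (mem_filter.1 hy).2
    have h1 : ((pairs A B C).filter fun x => tri x.1 x.2 (-x.1 - x.2) = τ) ⊆ τ ×ˢ τ := by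
      intro x hx
      have hx2 := (mem_filter.1 hx).2
      rw [mem_product]
      rw [← hx2]
      exact ⟨mem_tri1 _ _ _, mem_tri2 _ _ _⟩
    refine (card_le_card h1).trans ?_
    rw [card_product, ← hy2]
    have := card_tri y.1 y.2 (-y.1 - y.2)
    nlinarith

lemma sum_mult (A B C : Finset G) : ∑ τ ∈ triads A B C, mult A B C τ = (pairs A B C).card := by
  unfold mult triads
  exact (card_eq_sum_card_image _ _).symm

variable {Ω : Type*} [MeasurableSpace Ω] {P : Measure Ω}

lemma subg_mono {X : Ω → ℝ} {c d : ℝ≥0} (h : HasSubgaussianMGF X c P) (hcd : c ≤ d) :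
    HasSubgaussianMGF X d P :=
  ⟨h.integrable_exp_mul, fun t => (h.mgf_le t).trans (by gcongr)⟩

/-- Hoeffding's inequality for the random sums -/
lemma hoeff [IsProbabilityMeasure P] {X : Finset G → Ω → ℝ} (hi : iIndepFun X P) {c : ℝ≥0}
    (hX : ∀ τ, HasSubgaussianMGF (X τ) c P) (A B C : Finset G) {ε : ℝ} (hε : 0 ≤ ε) :
    P.real {ω | ε ≤ rs (fun τ => X τ ω) A B C}
      ≤ Real.exp (-ε ^ 2 / (2 * (36 * c * (pairs A B C).card))) := by
  have h1 : iIndepFun (fun τ => (fun x : ℝ => (mult A B C τ : ℝ) * x) ∘ X τ) P :=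
    hi.comp (fun τ => fun x : ℝ => (mult A B C τ : ℝ) * x) fun τ => by fun_prop
  have h2 : ∀ τ ∈ triads A B C,
      HasSubgaussianMGF ((fun x : ℝ => (mult A B C τ : ℝ) * x) ∘ X τ)
        (36 * (mult A B C τ : ℝ≥0) * c) P := by
    intro τ _
    refine subg_mono ((hX τ).const_mul (mult A B C τ : ℝ)) ?_
    gcongr
    rw [← NNReal.coe_le_coe]
    push_cast
    show (mult A B C τ : ℝ) ^ 2 ≤ 36 * mult A B C τ
    have : (mult A B C τ : ℝ) ≤ 36 := by exact_mod_cast mult_le A B C τ
    have h0 : (0 : ℝ) ≤ mult A B C τ := by positivity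
    nlinarith
  have h3 := HasSubgaussianMGF.measure_sum_ge_le_of_iIndepFun h1 h2 hε
  have e1 : {ω | ε ≤ rs (fun τ => X τ ω) A B C}
      = {ω | ε ≤ ∑ i ∈ triads A B C, ((fun x : ℝ => (mult A B C i : ℝ) * x) ∘ X i) ω} := by
    ext ω
    simp only [Set.mem_ofPred_eq, rs_eq, Function.comp]
  rw [e1]
  refine h3.trans (le_of_eq ?_)
  congr 2
  have e2 : ∑ i ∈ triads A B C, (36 * (mult A B C i : ℝ≥0) * c)
      = 36 * c * ((pairs A B C).card : ℝ≥0) := by
    rw [← sum_mult A B C]
    push_cast
    rw [← sum_mul, ← mul_sum]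
    ring
  push_cast
  have e3 := congrArg (fun x : ℝ≥0 => (x : ℝ)) e2
  push_cast at e3
  rw [e3]

end Pool.Agent.H226.RT
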