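import Pool.Agent.H226.RT.Rest

/-!
The contribution of tame weights is absorbed by the dissipation.
-/

open MeasureTheory Set Filter Topology
open scoped ENNReal
open H459R3.NS Pool.Agent.X96.HT Pool.Agent.X96.DM
open Pool.Agent.H226.RT (tri cub mem_cub Tame nn nn_nonneg)

namespace Pool.Agent.H226.SW

variable {ζ : Finset K3 → ℝ} {U : K3 → C3} {S : Finset K3} {D : K3 → ℝ} {W : ℕ → ℝ} {J : ℕ}

lemma split3 (h0 : (0 : K3) ∉ S) (hJ : ∀ k ∈ S, kn k ≤ 2 ^ J) (F : K3 → K3 → K3 → ℂ) :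
    ∑ k ∈ S, ∑ p ∈ S, ∑ q ∈ S, F k p q = ∑ a ∈ Finset.range (J + 1), ∑ b ∈ Finset.range (J + 1),
      ∑ c ∈ Finset.range (J + 1), ∑ k ∈ Sh S a, ∑ p ∈ Sh S b, ∑ q ∈ Sh S c, F k p q := by
  rw [← sum_Sh h0 hJ]
  refine Finset.sum_congr rfl fun a _ => ?_
  have e1 : ∀ k, ∑ p ∈ S, ∑ q ∈ S, F k p q
      = ∑ b ∈ Finset.range (J + 1), ∑ p ∈ Sh S b, ∑ q ∈ S, F k p q := fun k =>
    (sum_Sh h0 hJ _).symm
  simp_rw [e1]
  rw [Finset.sum_comm]
  refine Finset.sum_congr rfl fun b _ => ?_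
  have e2 : ∀ k p, ∑ q ∈ S, F k p q
      = ∑ c ∈ Finset.range (J + 1), ∑ q ∈ Sh S c, F k p q := fun k p =>
    (sum_Sh h0 hJ _).symm
  simp_rw [e2]
  have e3 : ∀ k, ∑ p ∈ Sh S b, ∑ c ∈ Finset.range (J + 1), ∑ q ∈ Sh S c, F k p q
      = ∑ c ∈ Finset.range (J + 1), ∑ p ∈ Sh S b, ∑ q ∈ Sh S c, F k p q := fun k =>
    Finset.sum_comm
  simp_rw [e3]
  rw [Finset.sum_comm]

lemma T3s_sub_one {η : Md → Md → Md → ℝ} (hη : IsWeight η) (hS : ∀ k ∉ S, U k = 0)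
    (hdiv : ∀ k, dp (kc k) (U k) = 0) (w : K3 → ℝ) :
    T3s (fw η (fun k => w k - 1) U) = T3s (fw η w U) := by
  have h := T3s_const hη hS hdiv
  have h1 : T3s (fw η (fun k => w k - 1) U) = T3s (fw η w U) - T3s (fw η (fun _ => 1) U) := by
    unfold T3s
    rw [← Summable.tsum_sub (S3s_fin w hS) (S3s_fin (fun _ => 1) hS)]
    refine tsum_congr fun x => ?_
    unfold fw
    push_cast
    ring
  rw [h1, h, sub_zero]

open Classical in
/-- The contribution of tame weights. -/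
theorem rand_bound {C H : ℝ} (hC : 0 ≤ C) (hT : Tame C ζ) (hζ : ∀ τ, |ζ τ| ≤ H)
    (h0 : (0 : K3) ∉ S) (hS : ∀ k ∉ S, U k = 0) (hdiv : ∀ k, dp (kc k) (U k) = 0)
    (hW : Monotone W) {j₀ : ℕ} (hW1 : ∀ j, j ≤ j₀ + 1 → W j = 1) (hJ : ∀ k ∈ S, kn k ≤ 2 ^ J)
    {R : ℝ} (hR : Real.sqrt (∑ k ∈ S, ∑ i, ‖U k i‖ ^ 2) ≤ R) :
    ‖T3s (fw (rwt ζ) (wt W J) U)‖ ≤ 162 * R * ∑ b ∈ Finset.range (J + 1), if j₀ ≤ b then
      (b + 1) * ((8 * C * (((b + 1 : ℕ) : ℝ) + 2) ^ 2 * (W (b + 1 + 1) - 1) * 2 ^ (b + 1 + 1))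
        * en S U b ^ 2) else 0 := by
  have hη := isWeight_rwt hζ
  rw [← T3s_sub_one hη hS hdiv, T3s_rwt h0 hS]
  have hW0 : W 0 = 1 := hW1 0 (by omega)
  have hWn : ∀ n, 0 ≤ W n - 1 := fun n => by
    have := hW (Nat.zero_le n)
    rw [hW0] at this
    linarith
  set G : ℕ → ℝ := fun M => 8 * C * ((M : ℝ) + 2) ^ 2 * (W (M + 1) - 1) * 2 ^ (M + 1) with hG
  have hG0 : ∀ n, 0 ≤ G n := fun n => by
    have := hWn (n + 1)
    simp only [hG]
    positivity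
  have hGm : Monotone G := by
    intro m n hmn
    simp only [hG]
    have h1 := hWn (m + 1)
    have h2 := hWn (n + 1)
    have h3 : W (m + 1) ≤ W (n + 1) := hW (by omega)
    have h4 : (m : ℝ) ≤ n := by exact_mod_cast hmn
    gcongr
    norm_num
  have hsum := triple_sum hG0 hGm (en_nonneg S U) (fun n => (en_le S U n).trans hR) j₀ (J + 1)
  have hone : ∀ i j : Fin 3, ‖Complex.I * ∑ k ∈ S, ∑ p ∈ S, ∑ q ∈ S,
      (Pool.Agent.H226.RT.tt ζ k p q : ℂ) * (((wt W J k - 1 : ℝ) : ℂ) * U k j) * U p i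
        * (kc q i * U q j)‖
      ≤ 18 * R * ∑ b ∈ Finset.range (J + 1), if j₀ ≤ b then
      (b + 1) * (G (b + 1) * en S U b ^ 2) else 0 := by
    intro i j
    rw [norm_mul, Complex.norm_I, one_mul, split3 h0 hJ]
    refine le_trans ?_ hsum
    refine (norm_sum_le _ _).trans (Finset.sum_le_sum fun a _ => ?_)
    refine (norm_sum_le _ _).trans (Finset.sum_le_sum fun b _ => ?_)
    refine (norm_sum_le _ _).trans (Finset.sum_le_sum fun c _ => ?_)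
    exact shell_form hC hT h0 hW hW1 i j a b c
  have h9 : ‖∑ i : Fin 3, ∑ j : Fin 3, Complex.I * ∑ k ∈ S, ∑ p ∈ S, ∑ q ∈ S,
      (Pool.Agent.H226.RT.tt ζ k p q : ℂ) * (((wt W J k - 1 : ℝ) : ℂ) * U k j) * U p i
        * (kc q i * U q j)‖
      ≤ ∑ i : Fin 3, ∑ j : Fin 3, 18 * R * ∑ b ∈ Finset.range (J + 1), if j₀ ≤ b then
      (b + 1) * (G (b + 1) * en S U b ^ 2) else 0 := by
    refine (norm_sum_le _ _).trans (Finset.sum_le_sum fun i _ => ?_)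
    exact (norm_sum_le _ _).trans (Finset.sum_le_sum fun j _ => hone i j)
  refine h9.trans (le_of_eq ?_)
  simp only [Finset.sum_const, Finset.card_univ, Fintype.card_fin, nsmul_eq_mul]
  push_cast
  simp only [hG]
  push_cast
  ring

/-- The contribution of tame weights is absorbed by the dissipation. -/
theorem rand_absorb {C H : ℝ} (hC : 0 ≤ C) (hT : Tame C ζ) (hζ : ∀ τ, |ζ τ| ≤ H)
    (h0 : (0 : K3) ∉ S) (hS : ∀ k ∉ S, U k = 0) (hdiv : ∀ k, dp (kc k) (U k) = 0)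
    (hW : Monotone W) {j₀ s : ℕ} (hW1 : ∀ j, j ≤ j₀ + 1 → W j = 1)
    (hWr : ∀ j, W (j + 1) ≤ 2 ^ s * W j) (hJ : ∀ k ∈ S, kn k ≤ 2 ^ J) (hD0 : ∀ k, 0 ≤ D k)
    {R : ℝ} (hR : Real.sqrt (∑ k ∈ S, ∑ i, ‖U k i‖ ^ 2) ≤ R)
    (hDr : ∀ b, j₀ ≤ b → ∀ k ∈ S, 2 ^ b ≤ kn k →
      4 * Real.pi * (5184 * C * R * (2 ^ s) ^ 2) * ((b + 3) ^ 3 * 2 ^ b) ≤ D k) :
    4 * Real.pi * ‖T3s (fw (rwt ζ) (wt W J) U)‖ ≤ nw S (fun k => wt W J k * D k) U := by
  classical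
  have hR0 : 0 ≤ R := (Real.sqrt_nonneg _).trans hR
  have hpi := Real.pi_pos
  have hW0 : W 0 = 1 := hW1 0 (by omega)
  have hWn : ∀ n, 1 ≤ W n := fun n => by
    have := hW (Nat.zero_le n)
    rwa [hW0] at this
  have h1 := rand_bound hC hT hζ h0 hS hdiv hW hW1 hJ hR
  have h2 : 4 * Real.pi * ‖T3s (fw (rwt ζ) (wt W J) U)‖
      ≤ ∑ b ∈ Finset.range (J + 1), if j₀ ≤ b then
        W b * (4 * Real.pi * (5184 * C * R * (2 ^ s) ^ 2) * ((b + 3) ^ 3 * 2 ^ b)) * en S U b ^ 2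
        else 0 := by
    refine le_trans (mul_le_mul_of_nonneg_left h1 (by positivity)) ?_
    rw [← mul_assoc, Finset.mul_sum]
    refine Finset.sum_le_sum fun b _ => ?_
    split_ifs
    · have hb : (0 : ℝ) ≤ b := by positivity
      have h3 : W (b + 1 + 1) - 1 ≤ (2 ^ s) ^ 2 * W b := by
        have a1 := hWr (b + 1)
        have a2 := hWr b
        have a3 : (0 : ℝ) ≤ 2 ^ s := by positivity
        have a4 : (2 : ℝ) ^ s * W (b + 1) ≤ 2 ^ s * (2 ^ s * W b) := by gcongr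
        linarith
      have h4 : ((b : ℝ) + 1) * (((b + 1 : ℕ) : ℝ) + 2) ^ 2 ≤ (b + 3) ^ 3 := by
        push_cast
        have e : ((b : ℝ) + 1 + 2) = b + 3 := by ring
        rw [e, pow_succ (n := 2), mul_comm]
        gcongr
        linarith
      have h5 := hWn b
      calc 4 * Real.pi * (162 * R) * ((b + 1) * ((8 * C * (((b + 1 : ℕ) : ℝ) + 2) ^ 2
            * (W (b + 1 + 1) - 1) * 2 ^ (b + 1 + 1)) * en S U b ^ 2))
          = 4 * Real.pi * (162 * R) * 8 * C * (((b : ℝ) + 1) * (((b + 1 : ℕ) : ℝ) + 2) ^ 2)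
            * (W (b + 1 + 1) - 1) * 2 ^ (b + 1 + 1) * en S U b ^ 2 := by ring
        _ ≤ 4 * Real.pi * (162 * R) * 8 * C * (((b : ℝ) + 3) ^ 3)
            * ((2 ^ s) ^ 2 * W b) * 2 ^ (b + 1 + 1) * en S U b ^ 2 := by
            have a1 := hWn (b + 1 + 1)
            have a2 : 0 ≤ W (b + 1 + 1) - 1 := by linarith
            gcongr
        _ = _ := by ring
    · simp
  refine h2.trans ?_
  have h3 : nw S (fun k => wt W J k * D k) U
      = ∑ b ∈ Finset.range (J + 1), ∑ k ∈ Sh S b, wt W J k * D k * ∑ i, ‖U k i‖ ^ 2 :=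
    (sum_Sh h0 hJ _).symm
  rw [h3]
  refine Finset.sum_le_sum fun b hb => ?_
  have hwt0 : ∀ k, 0 ≤ wt W J k := fun k => (by linarith [hWn 0] : (0 : ℝ) ≤ W 0).trans
    (wt_ge_zero hW k)
  split_ifs with hjb
  · rw [en_sq, Finset.mul_sum]
    refine Finset.sum_le_sum fun k hk => ?_
    have hkS := (mem_Sh.1 hk).1
    have hk0 : k ≠ 0 := fun e => h0 (e ▸ hkS)
    have h4 := (sx_spec hk0).1
    rw [(mem_Sh.1 hk).2] at h4
    have h5 := wt_ge (J := J) hW h4 (by rw [Finset.mem_range] at hb; omega)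
    have h6 := hDr b hjb k hkS h4
    have h7 := hwt0 k
    have h8 := hWn b
    gcongr
  · exact Finset.sum_nonneg fun k _ =>
      mul_nonneg (mul_nonneg (hwt0 k) (hD0 k)) (Finset.sum_nonneg fun _ _ => by positivity)

end Pool.Agent.H226.SW
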