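import Pool.Agent.H226.RT.Rform

/-!
The contribution of tame weights is absorbed by the dissipation.
-/

open MeasureTheory Set Filter Topology
open scoped ENNReal
open H459R3.NS Pool.Agent.X96.HT Pool.Agent.X96.DM
open Pool.Agent.H226.RT (tri cub mem_cub Tame nn nn_nonneg)

namespace Pool.Agent.H226.SW

variable {ζ : Finset K3 → ℝ} {U : K3 → C3} {S : Finset K3} {D : K3 → ℝ} {W : ℕ → ℝ} {J : ℕ}

/-! ### A sum over triples of indices -/

/-- the two largest indices differ by at most one -/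
def adm (a b c : ℕ) : Prop := a ≤ max b c + 1 ∧ b ≤ max a c + 1 ∧ c ≤ max a b + 1

open Classical in
lemma two_sum {G e : ℕ → ℝ} (hG : ∀ n, 0 ≤ G n) (he : ∀ n, 0 ≤ e n) {R : ℝ}
    (hR : ∀ n, e n ≤ R) (j₀ n : ℕ) :
    ∑ b ∈ Finset.range n, ∑ a ∈ Finset.range n, ∑ c ∈ Finset.range n,
      (if a ≤ b ∧ b ≤ c + 1 ∧ c ≤ b + 1 ∧ j₀ ≤ b then e a * (G (b + 1) * e b ^ 2) else 0)
      ≤ 3 * R * ∑ b ∈ Finset.range n, if j₀ ≤ b then (b + 1) * (G (b + 1) * e b ^ 2) else 0 := by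
  have hR0 : 0 ≤ R := (he 0).trans (hR 0)
  rw [Finset.mul_sum]
  refine Finset.sum_le_sum fun b _ => ?_
  by_cases hb : j₀ ≤ b
  · rw [if_pos hb]
    have hx : 0 ≤ G (b + 1) * e b ^ 2 := mul_nonneg (hG _) (by positivity)
    have h1 : ∀ a ∈ Finset.range n, ∑ c ∈ Finset.range n,
        (if a ≤ b ∧ b ≤ c + 1 ∧ c ≤ b + 1 ∧ j₀ ≤ b then e a * (G (b + 1) * e b ^ 2) else 0)
        ≤ if a ≤ b then 3 * (R * (G (b + 1) * e b ^ 2)) else 0 := by
      intro a _
      by_cases ha : a ≤ b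
      · rw [if_pos ha]
        have h2 : ∀ c ∈ Finset.range n,
            (if a ≤ b ∧ b ≤ c + 1 ∧ c ≤ b + 1 ∧ j₀ ≤ b then e a * (G (b + 1) * e b ^ 2) else 0)
            ≤ if c ∈ Finset.Icc (b - 1) (b + 1) then R * (G (b + 1) * e b ^ 2) else 0 := by
          intro c _
          have h3 := hR a
          by_cases hc : b ≤ c + 1 ∧ c ≤ b + 1
          · rw [if_pos ⟨ha, hc.1, hc.2, hb⟩, if_pos (by rw [Finset.mem_Icc]; omega)]
            gcongr
          · rw [if_neg (by tauto)]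
            split_ifs <;> positivity
        refine (Finset.sum_le_sum h2).trans ?_
        rw [← Finset.sum_filter, Finset.sum_const, nsmul_eq_mul]
        have h4 : (((Finset.range n).filter fun c => c ∈ Finset.Icc (b - 1) (b + 1)).card : ℝ)
            ≤ 3 := by
          have h5 : ((Finset.range n).filter fun c => c ∈ Finset.Icc (b - 1) (b + 1)).card ≤ 3 := by
            have h6 : (Finset.range n).filter (fun c => c ∈ Finset.Icc (b - 1) (b + 1))
                ⊆ Finset.Icc (b - 1) (b + 1) := fun c hc => (Finset.mem_filter.1 hc).2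
            refine (Finset.card_le_card h6).trans ?_
            rw [Nat.card_Icc]
            omega
          exact_mod_cast h5
        gcongr
      · rw [if_neg ha]
        refine le_of_eq (Finset.sum_eq_zero fun c _ => if_neg (by tauto))
    refine (Finset.sum_le_sum h1).trans ?_
    rw [← Finset.sum_filter, Finset.sum_const, nsmul_eq_mul]
    have h4 : (((Finset.range n).filter fun a => a ≤ b).card : ℝ) ≤ b + 1 := by
      have h5 : ((Finset.range n).filter fun a => a ≤ b).card ≤ b + 1 := by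
        have h6 : (Finset.range n).filter (fun a => a ≤ b) ⊆ Finset.range (b + 1) := fun a ha => by
          rw [Finset.mem_range]
          have := (Finset.mem_filter.1 ha).2
          omega
        exact (Finset.card_le_card h6).trans (by rw [Finset.card_range])
      exact_mod_cast h5
    calc (((Finset.range n).filter fun a => a ≤ b).card : ℝ) * (3 * (R * (G (b + 1) * e b ^ 2)))
        ≤ (b + 1) * (3 * (R * (G (b + 1) * e b ^ 2))) := by gcongr
      _ = _ := by ring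
  · rw [if_neg hb, mul_zero]
    refine le_of_eq (Finset.sum_eq_zero fun a _ => Finset.sum_eq_zero fun c _ => if_neg (by tauto))

open Classical in
/-- the term in which `a` is the smallest index -/
noncomputable def ph (G e : ℕ → ℝ) (j₀ a b c : ℕ) : ℝ :=
  (if a ≤ b ∧ b ≤ c + 1 ∧ c ≤ b + 1 ∧ j₀ ≤ b then e a * (G (b + 1) * e b ^ 2) else 0)
    + (if a ≤ c ∧ c ≤ b + 1 ∧ b ≤ c + 1 ∧ j₀ ≤ c then e a * (G (c + 1) * e c ^ 2) else 0)

lemma ph_nonneg {G e : ℕ → ℝ} (hG : ∀ n, 0 ≤ G n) (he : ∀ n, 0 ≤ e n) (j₀ a b c : ℕ) :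
    0 ≤ ph G e j₀ a b c := by
  unfold ph
  have h1 := mul_nonneg (he a) (mul_nonneg (hG (b + 1)) (sq_nonneg (e b)))
  have h2 := mul_nonneg (he a) (mul_nonneg (hG (c + 1)) (sq_nonneg (e c)))
  split_ifs <;> linarith

lemma sum_ph {G e : ℕ → ℝ} (hG : ∀ n, 0 ≤ G n) (he : ∀ n, 0 ≤ e n) {R : ℝ}
    (hR : ∀ n, e n ≤ R) (j₀ n : ℕ) :
    ∑ a ∈ Finset.range n, ∑ b ∈ Finset.range n, ∑ c ∈ Finset.range n, ph G e j₀ a b c
      ≤ 6 * R * ∑ b ∈ Finset.range n, if j₀ ≤ b then (b + 1) * (G (b + 1) * e b ^ 2) else 0 := by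
  have h := two_sum hG he hR j₀ n
  unfold ph
  simp only [Finset.sum_add_distrib]
  have e1 : ∑ a ∈ Finset.range n, ∑ b ∈ Finset.range n, ∑ c ∈ Finset.range n,
      (if a ≤ b ∧ b ≤ c + 1 ∧ c ≤ b + 1 ∧ j₀ ≤ b then e a * (G (b + 1) * e b ^ 2) else 0)
      = ∑ b ∈ Finset.range n, ∑ a ∈ Finset.range n, ∑ c ∈ Finset.range n,
      (if a ≤ b ∧ b ≤ c + 1 ∧ c ≤ b + 1 ∧ j₀ ≤ b then e a * (G (b + 1) * e b ^ 2) else 0) :=
    Finset.sum_comm
  have e2 : ∑ a ∈ Finset.range n, ∑ b ∈ Finset.range n, ∑ c ∈ Finset.range n,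
      (if a ≤ c ∧ c ≤ b + 1 ∧ b ≤ c + 1 ∧ j₀ ≤ c then e a * (G (c + 1) * e c ^ 2) else 0)
      = ∑ c ∈ Finset.range n, ∑ a ∈ Finset.range n, ∑ b ∈ Finset.range n,
      (if a ≤ c ∧ c ≤ b + 1 ∧ b ≤ c + 1 ∧ j₀ ≤ c then e a * (G (c + 1) * e c ^ 2) else 0) := by
    have : ∀ a ∈ Finset.range n, ∑ b ∈ Finset.range n, ∑ c ∈ Finset.range n,
        (if a ≤ c ∧ c ≤ b + 1 ∧ b ≤ c + 1 ∧ j₀ ≤ c then e a * (G (c + 1) * e c ^ 2) else 0)
        = ∑ c ∈ Finset.range n, ∑ b ∈ Finset.range n,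
        (if a ≤ c ∧ c ≤ b + 1 ∧ b ≤ c + 1 ∧ j₀ ≤ c then e a * (G (c + 1) * e c ^ 2) else 0) :=
      fun a _ => Finset.sum_comm
    rw [Finset.sum_congr rfl this]
    exact Finset.sum_comm
  rw [e1, e2]
  linarith

open Classical in
lemma le_ph {G e : ℕ → ℝ} (hG : ∀ n, 0 ≤ G n) (hGm : Monotone G) (he : ∀ n, 0 ≤ e n)
    (j₀ a b c : ℕ) :
    (if adm a b c ∧ j₀ < max a (max b c) then G (max a (max b c)) * (e a * e b * e c) else 0)
      ≤ ph G e j₀ a b c + ph G e j₀ b a c + ph G e j₀ c a b := by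
  have p1 := ph_nonneg hG he j₀ a b c
  have p2 := ph_nonneg hG he j₀ b a c
  have p3 := ph_nonneg hG he j₀ c a b
  split_ifs with h
  swap
  · positivity
  obtain ⟨⟨h1, h2, h3⟩, h4⟩ := h
  -- the case in which `a` is the smallest index
  have key : ∀ a b c : ℕ, a ≤ b → a ≤ c → b ≤ c + 1 → c ≤ b + 1 → j₀ < max b c →
      G (max b c) * (e a * e b * e c) ≤ ph G e j₀ a b c := by
    intro a b c hab hac hbc hcb hj
    have hb : j₀ ≤ b := by omega
    have hc : j₀ ≤ c := by omega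
    unfold ph
    rw [if_pos ⟨hab, hbc, hcb, hb⟩, if_pos ⟨hac, hcb, hbc, hc⟩]
    have g1 : G (max b c) ≤ G (b + 1) := hGm (by omega)
    have g2 : G (max b c) ≤ G (c + 1) := hGm (by omega)
    have ea := he a
    have eb := he b
    have ec := he c
    have gm := hG (max b c)
    have h5 : G (max b c) * e b ^ 2 ≤ G (b + 1) * e b ^ 2 := by gcongr
    have h6 : G (max b c) * e c ^ 2 ≤ G (c + 1) * e c ^ 2 := by gcongr
    have h7 : e b * e c ≤ e b ^ 2 + e c ^ 2 := by nlinarith [sq_nonneg (e b - e c), sq_nonneg (e b), sq_nonneg (e c)]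
    calc G (max b c) * (e a * e b * e c) = e a * (G (max b c) * (e b * e c)) := by ring
      _ ≤ e a * (G (max b c) * (e b ^ 2 + e c ^ 2)) := by gcongr
      _ = e a * (G (max b c) * e b ^ 2 + G (max b c) * e c ^ 2) := by ring
      _ ≤ e a * (G (b + 1) * e b ^ 2 + G (c + 1) * e c ^ 2) := by gcongr
      _ = _ := by ring
  rcases le_total a b with hab | hab
  · rcases le_total a c with hac | hac
    · have h5 := key a b c hab hac (by omega) (by omega) (by omega)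
      rw [show max a (max b c) = max b c by omega]
      linarith
    · have h5 := key c a b hac (by omega) (by omega) (by omega) (by omega)
      rw [show max a (max b c) = max a b by omega]
      have e1 : e c * e a * e b = e a * e b * e c := by ring
      rw [e1] at h5
      linarith
  · rcases le_total b c with hbc | hbc
    · have h5 := key b a c hab hbc (by omega) (by omega) (by omega)
      rw [show max a (max b c) = max a c by omega]
      have e1 : e b * e a * e c = e a * e b * e c := by ring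
      rw [e1] at h5
      linarith
    · have h5 := key c a b (by omega) hbc (by omega) (by omega) (by omega)
      rw [show max a (max b c) = max a b by omega]
      have e1 : e c * e a * e b = e a * e b * e c := by ring
      rw [e1] at h5
      linarith

open Classical in
lemma triple_sum {G e : ℕ → ℝ} (hG : ∀ n, 0 ≤ G n) (hGm : Monotone G) (he : ∀ n, 0 ≤ e n) {R : ℝ}
    (hR : ∀ n, e n ≤ R) (j₀ n : ℕ) :
    ∑ a ∈ Finset.range n, ∑ b ∈ Finset.range n, ∑ c ∈ Finset.range n,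
      (if adm a b c ∧ j₀ < max a (max b c) then G (max a (max b c)) * (e a * e b * e c) else 0)
      ≤ 18 * R * ∑ b ∈ Finset.range n, if j₀ ≤ b then (b + 1) * (G (b + 1) * e b ^ 2) else 0 := by
  have h := sum_ph hG he hR j₀ n
  have h1 : ∑ a ∈ Finset.range n, ∑ b ∈ Finset.range n, ∑ c ∈ Finset.range n,
      (if adm a b c ∧ j₀ < max a (max b c) then G (max a (max b c)) * (e a * e b * e c) else 0)
      ≤ ∑ a ∈ Finset.range n, ∑ b ∈ Finset.range n, ∑ c ∈ Finset.range n,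
        (ph G e j₀ a b c + ph G e j₀ b a c + ph G e j₀ c a b) :=
    Finset.sum_le_sum fun a _ => Finset.sum_le_sum fun b _ => Finset.sum_le_sum fun c _ =>
      le_ph hG hGm he j₀ a b c
  refine h1.trans ?_
  simp only [Finset.sum_add_distrib]
  have e1 : ∑ a ∈ Finset.range n, ∑ b ∈ Finset.range n, ∑ c ∈ Finset.range n, ph G e j₀ b a c
      = ∑ a ∈ Finset.range n, ∑ b ∈ Finset.range n, ∑ c ∈ Finset.range n, ph G e j₀ a b c :=
    Finset.sum_comm
  have e2 : ∑ a ∈ Finset.range n, ∑ b ∈ Finset.range n, ∑ c ∈ Finset.range n, ph G e j₀ c a b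
      = ∑ a ∈ Finset.range n, ∑ b ∈ Finset.range n, ∑ c ∈ Finset.range n, ph G e j₀ a b c := by
    have : ∀ a ∈ Finset.range n, ∑ b ∈ Finset.range n, ∑ c ∈ Finset.range n, ph G e j₀ c a b
        = ∑ c ∈ Finset.range n, ∑ b ∈ Finset.range n, ph G e j₀ c a b := fun a _ => Finset.sum_comm
    rw [Finset.sum_congr rfl this]
    exact Finset.sum_comm
  rw [e1, e2]
  linarith

/-! ### Shells -/

open Classical in
/-- the dyadic index of a frequency -/
noncomputable def sx (k : K3) : ℕ := if h : k ≠ 0 then (exists_dyadic h).choose else 0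

lemma sx_spec {k : K3} (hk : k ≠ 0) : (2 : ℝ) ^ sx k ≤ kn k ∧ kn k < 2 ^ (sx k + 1) := by
  unfold sx
  rw [dif_pos hk]
  exact (exists_dyadic hk).choose_spec

/-- the shell of index `a` -/
noncomputable def Sh (S : Finset K3) (a : ℕ) : Finset K3 := S.filter fun k => sx k = a

lemma mem_Sh {S : Finset K3} {a : ℕ} {k : K3} : k ∈ Sh S a ↔ k ∈ S ∧ sx k = a := Finset.mem_filter

lemma sx_le (h0 : (0 : K3) ∉ S) (hJ : ∀ k ∈ S, kn k ≤ 2 ^ J) {k : K3}
    (hk : k ∈ S) : sx k ∈ Finset.range (J + 1) := by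
  have hk0 : k ≠ 0 := fun e => h0 (e ▸ hk)
  rw [Finset.mem_range]
  by_contra hc
  have h5 : (2 : ℝ) ^ J < 2 ^ sx k := pow_lt_pow_right₀ (by norm_num) (by omega)
  linarith [hJ k hk, (sx_spec hk0).1]

lemma sum_Sh {M : Type*} [AddCommMonoid M] (h0 : (0 : K3) ∉ S) (hJ : ∀ k ∈ S, kn k ≤ 2 ^ J)
    (f : K3 → M) : ∑ a ∈ Finset.range (J + 1), ∑ k ∈ Sh S a, f k = ∑ k ∈ S, f k :=
  Finset.sum_fiberwise_of_maps_to (fun k hk => sx_le h0 hJ hk) f

/-- the energy of a shell -/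
noncomputable def en (S : Finset K3) (U : K3 → C3) (a : ℕ) : ℝ :=
  Real.sqrt (∑ k ∈ Sh S a, ∑ i, ‖U k i‖ ^ 2)

lemma en_nonneg (S : Finset K3) (U : K3 → C3) (a : ℕ) : 0 ≤ en S U a := Real.sqrt_nonneg _

lemma en_sq (S : Finset K3) (U : K3 → C3) (a : ℕ) :
    en S U a ^ 2 = ∑ k ∈ Sh S a, ∑ i, ‖U k i‖ ^ 2 :=
  Real.sq_sqrt (Finset.sum_nonneg fun _ _ => Finset.sum_nonneg fun _ _ => by positivity)

lemma en_le (S : Finset K3) (U : K3 → C3) (a : ℕ) :
    en S U a ≤ Real.sqrt (∑ k ∈ S, ∑ i, ‖U k i‖ ^ 2) := by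
  apply Real.sqrt_le_sqrt
  exact Finset.sum_le_sum_of_subset_of_nonneg (Finset.filter_subset _ _)
    fun _ _ _ => Finset.sum_nonneg fun _ _ => by positivity

lemma nc_le_en {A : ℝ} (hA : 0 ≤ A) {a : ℕ} {x : K3 → ℂ} (i : Fin 3)
    (hx : ∀ k ∈ Sh S a, ‖x k‖ ≤ A * ‖U k i‖) : nc (Sh S a) x ≤ A * en S U a := by
  unfold nc en
  refine Real.sqrt_le_iff.2 ⟨by positivity, ?_⟩
  rw [mul_pow, Real.sq_sqrt (Finset.sum_nonneg fun _ _ => Finset.sum_nonneg fun _ _ => by positivity),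
    Finset.mul_sum]
  refine Finset.sum_le_sum fun k hk => ?_
  have h1 := hx k hk
  have h2 : ‖U k i‖ ^ 2 ≤ ∑ i, ‖U k i‖ ^ 2 :=
    Finset.single_le_sum (f := fun i => ‖U k i‖ ^ 2) (fun _ _ => by positivity) (Finset.mem_univ i)
  calc ‖x k‖ ^ 2 ≤ (A * ‖U k i‖) ^ 2 := by gcongr
    _ = A ^ 2 * ‖U k i‖ ^ 2 := by ring
    _ ≤ _ := by gcongr

/-! ### The form on three shells -/

lemma tt_zero_of_not_adm {a b c : ℕ} (h : ¬ adm a b c) {k p q : K3} (hk0 : k ≠ 0) (hp0 : p ≠ 0)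
    (hq0 : q ≠ 0) (hk : sx k = a) (hp : sx p = b) (hq : sx q = c) :
    Pool.Agent.H226.RT.tt ζ k p q = 0 := by
  unfold Pool.Agent.H226.RT.tt
  refine if_neg fun hs => h ?_
  obtain ⟨k1, k2⟩ := sx_spec hk0
  obtain ⟨p1, p2⟩ := sx_spec hp0
  obtain ⟨q1, q2⟩ := sx_spec hq0
  rw [hk] at k1 k2
  rw [hp] at p1 p2
  rw [hq] at q1 q2
  have t1 : kn q ≤ kn k + kn p := kn_tri hs
  have t2 : kn k ≤ kn p + kn q := kn_tri (by rw [← hs]; abel)
  have t3 : kn p ≤ kn q + kn k := kn_tri (by rw [← hs]; abel)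
  have key : ∀ {x y z : ℕ} {u v w : ℝ}, (2 : ℝ) ^ z ≤ w → w ≤ u + v → u < 2 ^ (x + 1) →
      v < 2 ^ (y + 1) → z ≤ max x y + 1 := by
    intro x y z u v w h1 h2 h3 h4
    by_contra hc
    push Not at hc
    have h5 : (2 : ℝ) ^ (x + 1) ≤ 2 ^ (z - 1) := pow_le_pow_right₀ (by norm_num) (by omega)
    have h6 : (2 : ℝ) ^ (y + 1) ≤ 2 ^ (z - 1) := pow_le_pow_right₀ (by norm_num) (by omega)
    have h7 : (2 : ℝ) ^ z = 2 * 2 ^ (z - 1) := by
      rw [← pow_succ']; congr 1; omega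
    linarith
  refine ⟨key k1 t2 p2 q2, ?_, key q1 t1 k2 p2⟩
  rw [max_comm]
  exact key p1 t3 q2 k2

open Classical in
/-- the form on three shells -/
lemma shell_form {C : ℝ} (hC : 0 ≤ C) (hT : Tame C ζ) (h0 : (0 : K3) ∉ S) (hW : Monotone W)
    {j₀ : ℕ} (hW1 : ∀ j, j ≤ j₀ + 1 → W j = 1) (i j : Fin 3) (a b c : ℕ) :
    ‖∑ k ∈ Sh S a, ∑ p ∈ Sh S b, ∑ q ∈ Sh S c, (Pool.Agent.H226.RT.tt ζ k p q : ℂ)
        * (((wt W J k - 1 : ℝ) : ℂ) * U k j) * U p i * (kc q i * U q j)‖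
      ≤ if adm a b c ∧ j₀ < max a (max b c) then
        (8 * C * (((max a (max b c) : ℕ) : ℝ) + 2) ^ 2 * (W (max a (max b c) + 1) - 1)
          * 2 ^ (max a (max b c) + 1)) * (en S U a * en S U b * en S U c) else 0 := by
  set M := max a (max b c) with hM
  have hW0 : W 0 = 1 := hW1 0 (by omega)
  have hne : ∀ {k : K3} {a : ℕ}, k ∈ Sh S a → k ≠ 0 := fun hk e =>
    h0 (e ▸ (mem_Sh.1 hk).1)
  by_cases had : adm a b c
  swap
  · rw [if_neg (by tauto)]
    refine le_of_eq ?_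
    rw [norm_eq_zero]
    refine Finset.sum_eq_zero fun k hk => Finset.sum_eq_zero fun p hp =>
      Finset.sum_eq_zero fun q hq => ?_
    rw [tt_zero_of_not_adm had (hne hk) (hne hp) (hne hq) (mem_Sh.1 hk).2 (mem_Sh.1 hp).2
      (mem_Sh.1 hq).2]
    simp
  by_cases hj : j₀ < M
  swap
  · rw [if_neg (by tauto)]
    refine le_of_eq ?_
    rw [norm_eq_zero]
    refine Finset.sum_eq_zero fun k hk => Finset.sum_eq_zero fun p hp =>
      Finset.sum_eq_zero fun q hq => ?_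
    have h1 : wt W J k = 1 := by
      have h2 := (sx_spec (hne hk)).2
      rw [(mem_Sh.1 hk).2] at h2
      refine le_antisymm ((wt_le hW h2.le).trans (le_of_eq (hW1 _ (by omega)))) ?_
      rw [← hW0]
      exact wt_ge_zero hW k
    rw [h1]
    simp
  rw [if_pos ⟨had, hj⟩]
  have hcub : ∀ x, x ≤ M → Sh S x ⊆ cub (M + 1) := by
    intro x hx k hk
    rw [mem_cub]
    have h2 := (sx_spec (hne hk)).2
    rw [(mem_Sh.1 hk).2] at h2
    have h3 : (N k : ℝ) ≤ 2 ^ (M + 1) := (N_le_kn k).trans (h2.le.trans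
      (pow_le_pow_right₀ (by norm_num) (by omega)))
    exact_mod_cast h3
  have haM : a ≤ M := le_max_left _ _
  have hbM : b ≤ M := (le_max_left _ _).trans (le_max_right _ _)
  have hcM : c ≤ M := (le_max_right _ _).trans (le_max_right _ _)
  have h1 := tame_complex hC hT (hcub a haM) (hcub b hbM) (hcub c hcM)
    (fun k => ((wt W J k - 1 : ℝ) : ℂ) * U k j) (fun p => U p i) (fun q => kc q i * U q j)
  refine h1.trans ?_
  have hWM : 0 ≤ W (M + 1) - 1 := by
    have := hW (Nat.zero_le (M + 1))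
    rw [hW0] at this
    linarith
  have n1 : nc (Sh S a) (fun k => ((wt W J k - 1 : ℝ) : ℂ) * U k j)
      ≤ (W (M + 1) - 1) * en S U a := by
    refine nc_le_en hWM j fun k hk => ?_
    rw [norm_mul, Complex.norm_real, Real.norm_eq_abs]
    have h2 := (sx_spec (hne hk)).2
    rw [(mem_Sh.1 hk).2] at h2
    have h3 : wt W J k ≤ W (M + 1) := (wt_le hW h2.le).trans (hW (by omega))
    have h4 : 1 ≤ wt W J k := by rw [← hW0]; exact wt_ge_zero hW k
    rw [abs_of_nonneg (by linarith)]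
    gcongr
  have n2 : nc (Sh S b) (fun p => U p i) ≤ 1 * en S U b :=
    nc_le_en zero_le_one i fun k _ => by rw [one_mul]
  have n3 : nc (Sh S c) (fun q => kc q i * U q j) ≤ 2 ^ (M + 1) * en S U c := by
    refine nc_le_en (by positivity) j fun k hk => ?_
    rw [norm_mul]
    have h2 := (sx_spec (hne hk)).2
    rw [(mem_Sh.1 hk).2] at h2
    have h3 : ‖kc k i‖ ≤ 2 ^ (M + 1) := (norm_le_pi_norm _ i).trans ((norm_kc_le k).trans
      (h2.le.trans (pow_le_pow_right₀ (by norm_num) (by omega))))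
    gcongr
  have e1 := en_nonneg S U a
  have e2 := en_nonneg S U b
  have e3 := en_nonneg S U c
  have m1 := nc_nonneg (Sh S a) (fun k => ((wt W J k - 1 : ℝ) : ℂ) * U k j)
  have m2 := nc_nonneg (Sh S b) (fun p => U p i)
  have m3 := nc_nonneg (Sh S c) (fun q => kc q i * U q j)
  calc 8 * (C * (((M + 1 : ℕ) : ℝ) + 1) ^ 2 * (nc (Sh S a) (fun k => ((wt W J k - 1 : ℝ) : ℂ) * U k j)
      * nc (Sh S b) (fun p => U p i) * nc (Sh S c) (fun q => kc q i * U q j)))
      ≤ 8 * (C * (((M + 1 : ℕ) : ℝ) + 1) ^ 2 * (((W (M + 1) - 1) * en S U a) * (1 * en S U b)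
        * (2 ^ (M + 1) * en S U c))) := by gcongr
    _ = _ := by push_cast; ring

end Pool.Agent.H226.SW
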