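import Pool.Agent.H226.RT.Tame
import Pool.Agent.H226.RT.FluxH

/-!
The trilinear form of tame weights.
-/

open MeasureTheory Set Filter Topology
open scoped ENNReal
open H459R3.NS Pool.Agent.X96.HT Pool.Agent.X96.DM
open Pool.Agent.H226.RT (tri tt cub mem_cub Tame nn nn_nonneg)

namespace Pool.Agent.H226.SW

variable {ζ : Finset K3 → ℝ} {U : K3 → C3} {S : Finset K3} {D : K3 → ℝ} {W : ℕ → ℝ} {J : ℕ}

lemma tri_swap (k p q : K3) : tri p k q = tri k p q := by
  ext x; simp only [tri, Finset.mem_insert, Finset.mem_singleton]; tauto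

lemma tri_rot (k p q : K3) : tri p q k = tri k p q := by
  ext x; simp only [tri, Finset.mem_insert, Finset.mem_singleton]; tauto

lemma tri_neg (k p q : K3) : tri (-k) (-p) (-q) = tri k p q := by
  ext x; simp only [tri, Finset.mem_insert, Finset.mem_singleton, neg_neg]; tauto

/-- the weights of the triads, as weights of the helical triads -/
def rwt (ζ : Finset K3 → ℝ) (a b c : Md) : ℝ := ζ (tri a.1 b.1 c.1)

lemma isWeight_rwt {H : ℝ} (hH : ∀ τ, |ζ τ| ≤ H) : IsWeight (rwt ζ) where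
  swap := fun a b c => by unfold rwt; rw [tri_swap]
  rot := fun a b c => by unfold rwt; rw [tri_rot]
  neg := fun a b c => by unfold rwt; rw [tri_neg]
  bdd := ⟨H, fun a b c => hH _⟩

/-! ### Complex sequences -/

lemma sum_ind {s A : Finset K3} (hA : A ⊆ s) (f : K3 → ℝ) :
    ∑ k ∈ s, (if k ∈ A then f k else 0) = ∑ k ∈ A, f k := by
  rw [← Finset.sum_filter, Finset.filter_mem_eq_inter, Finset.inter_eq_right.2 hA]

lemma nn_ind {s A : Finset K3} (hA : A ⊆ s) (x : K3 → ℝ) :
    nn s (fun k => if k ∈ A then x k else 0) = nn A x := by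
  unfold nn
  congr 1
  rw [← sum_ind hA]
  refine Finset.sum_congr rfl fun k _ => ?_
  by_cases hk : k ∈ A <;> simp [hk]

lemma tame_real {C : ℝ} (hT : Tame C ζ) {J : ℕ} {A B E : Finset K3} (hA : A ⊆ cub J)
    (hB : B ⊆ cub J) (hE : E ⊆ cub J) (x y z : K3 → ℝ) :
    |∑ k ∈ A, ∑ p ∈ B, ∑ q ∈ E, tt ζ k p q * x k * y p * z q|
      ≤ C * (J + 1) ^ 2 * (nn A x * nn B y * nn E z) := by
  have h := hT J (fun k => if k ∈ A then x k else 0) (fun k => if k ∈ B then y k else 0)
    (fun k => if k ∈ E then z k else 0)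
  rw [nn_ind hA, nn_ind hB, nn_ind hE] at h
  have e : ∑ k ∈ cub J, ∑ p ∈ cub J, ∑ q ∈ cub J, tt ζ k p q * (if k ∈ A then x k else 0)
      * (if p ∈ B then y p else 0) * (if q ∈ E then z q else 0)
      = ∑ k ∈ A, ∑ p ∈ B, ∑ q ∈ E, tt ζ k p q * x k * y p * z q := by
    rw [← sum_ind hA]
    refine Finset.sum_congr rfl fun k _ => ?_
    split_ifs with hk
    · rw [← sum_ind hB]
      refine Finset.sum_congr rfl fun p _ => ?_
      split_ifs with hp
      · rw [← sum_ind hE]
        refine Finset.sum_congr rfl fun q _ => ?_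
        split_ifs with hq
        · rfl
        · ring
      · simp
    · simp
  rw [e] at h
  exact h

/-- the norm of a complex sequence -/
noncomputable def nc (A : Finset K3) (x : K3 → ℂ) : ℝ := Real.sqrt (∑ k ∈ A, ‖x k‖ ^ 2)

lemma nc_nonneg (A : Finset K3) (x : K3 → ℂ) : 0 ≤ nc A x := Real.sqrt_nonneg _

lemma nn_re (A : Finset K3) (x : K3 → ℂ) : nn A (fun k => (x k).re) ≤ nc A x := by
  unfold nn nc
  apply Real.sqrt_le_sqrt
  refine Finset.sum_le_sum fun k _ => ?_
  rw [← sq_abs]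
  gcongr
  exact Complex.abs_re_le_norm _

lemma nn_im (A : Finset K3) (x : K3 → ℂ) : nn A (fun k => (x k).im) ≤ nc A x := by
  unfold nn nc
  apply Real.sqrt_le_sqrt
  refine Finset.sum_le_sum fun k _ => ?_
  rw [← sq_abs]
  gcongr
  exact Complex.abs_im_le_norm _

lemma tame_complex {C : ℝ} (hC : 0 ≤ C) (hT : Tame C ζ) {J : ℕ} {A B E : Finset K3}
    (hA : A ⊆ cub J) (hB : B ⊆ cub J) (hE : E ⊆ cub J) (x y z : K3 → ℂ) :
    ‖∑ k ∈ A, ∑ p ∈ B, ∑ q ∈ E, (tt ζ k p q : ℂ) * x k * y p * z q‖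
      ≤ 8 * (C * (J + 1) ^ 2 * (nc A x * nc B y * nc E z)) := by
  set M := C * (J + 1) ^ 2 * (nc A x * nc B y * nc E z) with hM
  set T : (K3 → ℝ) → (K3 → ℝ) → (K3 → ℝ) → ℝ := fun x y z =>
    ∑ k ∈ A, ∑ p ∈ B, ∑ q ∈ E, tt ζ k p q * x k * y p * z q with hTdef
  have hb : ∀ a b c : K3 → ℝ, nn A a ≤ nc A x → nn B b ≤ nc B y → nn E c ≤ nc E z →
      |T a b c| ≤ M := by
    intro a b c h1 h2 h3
    refine (tame_real hT hA hB hE a b c).trans ?_
    have := nn_nonneg A a
    have := nn_nonneg B b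
    have := nn_nonneg E c
    have := nc_nonneg A x
    have := nc_nonneg B y
    rw [hM]
    gcongr
  set xr : K3 → ℝ := fun k => (x k).re
  set xi : K3 → ℝ := fun k => (x k).im
  set yr : K3 → ℝ := fun k => (y k).re
  set yi : K3 → ℝ := fun k => (y k).im
  set zr : K3 → ℝ := fun k => (z k).re
  set zi : K3 → ℝ := fun k => (z k).im
  have hre : (∑ k ∈ A, ∑ p ∈ B, ∑ q ∈ E, (tt ζ k p q : ℂ) * x k * y p * z q).re
      = T xr yr zr - T xi yi zr - T xi yr zi - T xr yi zi := by
    simp only [hTdef, Complex.re_sum, ← Finset.sum_sub_distrib]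
    refine Finset.sum_congr rfl fun k _ => Finset.sum_congr rfl fun p _ =>
      Finset.sum_congr rfl fun q _ => ?_
    simp only [Complex.mul_re, Complex.mul_im, Complex.ofReal_re, Complex.ofReal_im, xr, xi, yr, yi,
      zr, zi]
    ring
  have him : (∑ k ∈ A, ∑ p ∈ B, ∑ q ∈ E, (tt ζ k p q : ℂ) * x k * y p * z q).im
      = T xi yr zr + T xr yi zr + T xr yr zi - T xi yi zi := by
    simp only [hTdef, Complex.im_sum, ← Finset.sum_sub_distrib, ← Finset.sum_add_distrib]
    refine Finset.sum_congr rfl fun k _ => Finset.sum_congr rfl fun p _ =>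
      Finset.sum_congr rfl fun q _ => ?_
    simp only [Complex.mul_re, Complex.mul_im, Complex.ofReal_re, Complex.ofReal_im, xr, xi, yr, yi,
      zr, zi]
    ring
  have a1 := abs_le.1 (hb xr yr zr (nn_re A x) (nn_re B y) (nn_re E z))
  have a2 := abs_le.1 (hb xi yi zr (nn_im A x) (nn_im B y) (nn_re E z))
  have a3 := abs_le.1 (hb xi yr zi (nn_im A x) (nn_re B y) (nn_im E z))
  have a4 := abs_le.1 (hb xr yi zi (nn_re A x) (nn_im B y) (nn_im E z))
  have b1 := abs_le.1 (hb xi yr zr (nn_im A x) (nn_re B y) (nn_re E z))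
  have b2 := abs_le.1 (hb xr yi zr (nn_re A x) (nn_im B y) (nn_re E z))
  have b3 := abs_le.1 (hb xr yr zi (nn_re A x) (nn_re B y) (nn_im E z))
  have b4 := abs_le.1 (hb xi yi zi (nn_im A x) (nn_im B y) (nn_im E z))
  refine (Complex.norm_le_abs_re_add_abs_im _).trans ?_
  rw [hre, him]
  have c1 : |T xr yr zr - T xi yi zr - T xi yr zi - T xr yi zi| ≤ 4 * M := by
    rw [abs_le]; constructor <;> linarith [a1.1, a1.2, a2.1, a2.2, a3.1, a3.2, a4.1, a4.2]
  have c2 : |T xi yr zr + T xr yi zr + T xr yr zi - T xi yi zi| ≤ 4 * M := by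
    rw [abs_le]; constructor <;> linarith [b1.1, b1.2, b2.1, b2.2, b3.1, b3.2, b4.1, b4.2]
  linarith

/-! ### The form on vector fields -/

lemma t0_expand (q : K3) (a a' b b' c c' : C3) :
    t0 q (a + a') (b + b') (c + c') = t0 q a b c + t0 q a b c' + (t0 q a b' c + t0 q a b' c')
      + (t0 q a' b c + t0 q a' b c' + (t0 q a' b' c + t0 q a' b' c')) := by
  unfold t0 dp
  simp only [Pi.add_apply]
  ring

lemma fw_rwt (hU0 : U 0 = 0) (w : K3 → ℝ) (k p q : K3) :
    fw (rwt ζ) w U k p q = w k * ((ζ (tri k p q) : ℂ) * t0 q (U k) (U p) (U q)) := by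
  have hpar : ∀ k, par true k (U k) + par false k (U k) = U k := by
    intro k
    by_cases hk : k = 0
    · subst hk; rw [par_zero, par_zero, hU0, add_zero]
    · exact par_add hk _
  have h := t0_expand q (par true k (U k)) (par false k (U k)) (par true p (U p))
    (par false p (U p)) (par true q (U q)) (par false q (U q))
  rw [hpar, hpar, hpar] at h
  unfold fw rwt
  rw [h]
  simp only [Fintype.sum_bool]
  ring

lemma T3s_rwt (h0 : (0 : K3) ∉ S) (hS : ∀ k ∉ S, U k = 0) (w : K3 → ℝ) :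
    T3s (fw (rwt ζ) w U) = ∑ i : Fin 3, ∑ j : Fin 3, Complex.I * ∑ k ∈ S, ∑ p ∈ S, ∑ q ∈ S,
      (tt ζ k p q : ℂ) * ((w k : ℂ) * U k j) * U p i * (kc q i * U q j) := by
  have hU0 : U 0 = 0 := hS 0 h0
  have h1 : ∀ k p : K3, fw (rwt ζ) w U k p (-k - p) = ∑ q ∈ S, (tt ζ k p q : ℂ) *
      (w k * t0 q (U k) (U p) (U q)) := by
    intro k p
    rw [fw_rwt hU0]
    have e : ∀ q ∈ S, (tt ζ k p q : ℂ) * (w k * t0 q (U k) (U p) (U q))
        = if q = -k - p then w k * ((ζ (tri k p (-k - p)) : ℂ) * t0 (-k - p) (U k) (U p) (U (-k - p)))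
          else 0 := by
      intro q _
      unfold Pool.Agent.H226.RT.tt
      by_cases hq : q = -k - p
      · rw [if_pos hq, if_pos (by rw [hq]; abel), hq]
        ring
      · rw [if_neg hq, if_neg]
        · simp
        · intro h
          apply hq
          rw [eq_sub_iff_add_eq, eq_neg_iff_add_eq_zero, ← h]
          abel
    rw [Finset.sum_congr rfl e, Finset.sum_ite_eq']
    split_ifs with h
    · rfl
    · rw [hS _ h]
      unfold t0 dp
      simp
  have h2 : T3s (fw (rwt ζ) w U) = ∑ k ∈ S, ∑ p ∈ S, fw (rwt ζ) w U k p (-k - p) := by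
    unfold T3s
    rw [tsum_eq_sum (s := S ×ˢ S), Finset.sum_product]
    intro x hx
    rw [Finset.mem_product, not_and_or] at hx
    rcases hx with hx | hx
    · exact fw_zero1 w (hS _ hx)
    · exact fw_zero2 w (hS _ hx)
  rw [h2]
  simp_rw [h1]
  simp only [Fin.sum_univ_three, Finset.mul_sum, ← Finset.sum_add_distrib]
  refine Finset.sum_congr rfl fun k _ => Finset.sum_congr rfl fun p _ =>
    Finset.sum_congr rfl fun q _ => ?_
  unfold t0 dp
  ring

end Pool.Agent.H226.SW
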