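import Pool.Agent.H226.RT.Union
import Pool.Agent.H226.SW.Est

/-!
Random weights on the triads of frequencies: the norm of the trilinear form.
-/

open Finset MeasureTheory ProbabilityTheory Filter
open scoped ENNReal NNReal
open H459R3.NS Pool.Agent.X96.HT Pool.Agent.X96.DM

namespace Pool.Agent.H226.RT

/-- the coefficients of the trilinear form -/
def tt (ζ : Finset K3 → ℝ) (k p q : K3) : ℝ := if k + p + q = 0 then ζ (tri k p q) else 0

/-- the frequencies of size at most `2 ^ J` -/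
noncomputable def cub (J : ℕ) : Finset K3 := (finite_cube (2 ^ J)).toFinset

lemma mem_cub {J : ℕ} {k : K3} : k ∈ cub J ↔ N k ≤ 2 ^ J := by
  unfold cub; rw [Set.Finite.mem_toFinset]; rfl

lemma cub_mono : Monotone cub := by
  intro i j h k hk
  rw [mem_cub] at *
  exact hk.trans (Nat.pow_le_pow_right (by norm_num) h)

lemma card_cub (J : ℕ) : ((cub J).card : ℝ) = (2 * 2 ^ J + 1) ^ 3 := by
  unfold cub; rw [card_cube]; push_cast; ring

lemma card_cub_ge (J : ℕ) : 2 ^ J ≤ (cub J).card := by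
  have h := card_cub J
  have h1 : (1 : ℝ) ≤ 2 ^ J := one_le_pow₀ (by norm_num)
  have h2 : (2 : ℝ) ^ J ≤ (cub J).card := by
    rw [h]
    calc (2 : ℝ) ^ J ≤ (2 * 2 ^ J + 1) ^ 1 := by rw [pow_one]; linarith
      _ ≤ _ := pow_le_pow_right₀ (by linarith) (by norm_num)
  exact_mod_cast h2

lemma log_cub (J : ℕ) : Real.log (cub J).card ≤ 6 * (J + 1) := by
  rw [card_cub, Real.log_pow]
  have h1 : (1 : ℝ) ≤ 2 ^ J := one_le_pow₀ (by norm_num)
  have h2 : Real.log (2 * 2 ^ J + 1) ≤ Real.log (2 ^ (J + 2)) := by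
    apply Real.log_le_log (by positivity)
    rw [pow_add]
    linarith
  rw [Real.log_pow] at h2
  have h3 : Real.log 2 ≤ 1 := by
    have := Real.log_two_lt_d9
    linarith
  push_cast at *
  have h4 : ((J : ℝ) + 2) * Real.log 2 ≤ ((J : ℝ) + 2) * 1 := by gcongr
  have h5 : (0 : ℝ) ≤ J := by positivity
  linarith

lemma hh_cub (J : ℕ) : hh (cub J).card ≤ 7 * (J + 1) := by
  have h1 := harmonic_le_one_add_log (cub J).card
  have h2 : hh (cub J).card = (harmonic (cub J).card : ℝ) := by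
    unfold hh harmonic
    push_cast
    exact sum_congr rfl fun i _ => by rw [one_div]
  rw [h2]
  have h3 := log_cub J
  have h4 : (0 : ℝ) ≤ J := by positivity
  linarith

lemma rs_eq_tt (X : Finset K3 → ℝ) (A B C : Finset K3) :
    rs X A B C = ∑ k ∈ A, ∑ p ∈ B, ∑ q ∈ C, tt X k p q := by
  have h : ∀ k p : K3, ∑ q ∈ C, tt X k p q
      = if -k - p ∈ C then X (tri k p (-k - p)) else 0 := by
    intro k p
    have e : ∀ q, tt X k p q = if q = -k - p then X (tri k p (-k - p)) else 0 := by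
      intro q
      unfold tt
      by_cases hq : q = -k - p
      · rw [if_pos hq, if_pos (by rw [hq]; abel), hq]
      · rw [if_neg hq, if_neg]
        intro h
        apply hq
        rw [eq_sub_iff_add_eq, eq_neg_iff_add_eq_zero, ← h]
        abel
    simp_rw [e]
    rw [sum_ite_eq']
  simp_rw [h]
  unfold rs pairs
  rw [sum_filter, sum_product]

/-- the trilinear form of the weights has a norm which grows like the square of the logarithm -/
def Tame (C : ℝ) (ζ : Finset K3 → ℝ) : Prop :=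
  ∀ (J : ℕ) (x y z : K3 → ℝ), |∑ k ∈ cub J, ∑ p ∈ cub J, ∑ q ∈ cub J, tt ζ k p q * x k * y p * z q|
    ≤ C * (J + 1) ^ 2 * (nn (cub J) x * nn (cub J) y * nn (cub J) z)

variable {Ω : Type*} [MeasurableSpace Ω] {P : Measure Ω}

lemma tame_of_rs {X : Finset K3 → ℝ} {c : ℝ≥0} {J₁ : ℕ}
    (h : ∀ J, ∀ A ⊆ cub J, ∀ B ⊆ cub J, ∀ C ⊆ cub J,
      |rs X A B C| ≤ thr c (cub (max J J₁)).card A B C) :
    Tame (Real.sqrt (2592 * c * (J₁ + 1)) * Real.sqrt 14 ^ 3) X := by
  intro J x y z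
  have hJ0 : (0 : ℝ) ≤ J := by positivity
  set κ := Real.sqrt (2592 * c * (J₁ + 1)) * Real.sqrt (J + 1) with hκ
  have hκ0 : 0 ≤ κ := by positivity
  have h1 : ∀ A ⊆ cub J, ∀ B ⊆ cub J, ∀ C ⊆ cub J, |∑ k ∈ A, ∑ p ∈ B, ∑ q ∈ C, tt X k p q|
      ≤ κ * Real.sqrt A.card * Real.sqrt B.card * Real.sqrt C.card := by
    intro A hA B hB C hC
    rw [← rs_eq_tt]
    refine (h J A hA B hB C hC).trans ?_
    have e : κ * Real.sqrt A.card * Real.sqrt B.card * Real.sqrt C.card
        = Real.sqrt (2592 * c * (J₁ + 1) * (J + 1) * (A.card * B.card * C.card)) := by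
      rw [hκ, ← Real.sqrt_mul (by positivity), mul_assoc, mul_assoc, ← Real.sqrt_mul (by positivity),
        ← Real.sqrt_mul (by positivity), ← Real.sqrt_mul (by positivity)]
      congr 1
      ring
    rw [e]
    unfold thr
    apply Real.sqrt_le_sqrt
    have h2 := log_cub (max J J₁)
    have h3 : ((max J J₁ : ℕ) : ℝ) + 1 ≤ (J₁ + 1) * (J + 1) := by
      have h4 : max J J₁ + 1 ≤ (J₁ + 1) * (J + 1) := by
        rcases le_total J J₁ with h | h
        · rw [max_eq_right h]; nlinarith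
        · rw [max_eq_left h]; nlinarith
      exact_mod_cast h4
    have h5 : Real.log (cub (max J J₁)).card ≤ 6 * ((J₁ + 1) * (J + 1)) := by linarith
    calc 432 * (c : ℝ) * Real.log (cub (max J J₁)).card * (A.card * B.card * C.card)
        ≤ 432 * (c : ℝ) * (6 * ((J₁ + 1) * (J + 1))) * (A.card * B.card * C.card) := by gcongr
      _ = _ := by ring
  refine (tri_bound (tt X) hκ0 (cub J) h1 x y z).trans ?_
  have h6 : Real.sqrt (2 * hh (cub J).card) ≤ Real.sqrt 14 * Real.sqrt (J + 1) := by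
    rw [← Real.sqrt_mul (by norm_num)]
    apply Real.sqrt_le_sqrt
    have := hh_cub J
    linarith
  have h7 : 0 ≤ nn (cub J) x * nn (cub J) y * nn (cub J) z :=
    mul_nonneg (mul_nonneg (nn_nonneg _ _) (nn_nonneg _ _)) (nn_nonneg _ _)
  calc κ * Real.sqrt (2 * hh (cub J).card) ^ 3 * (nn (cub J) x * nn (cub J) y * nn (cub J) z)
      ≤ κ * (Real.sqrt 14 * Real.sqrt (J + 1)) ^ 3
        * (nn (cub J) x * nn (cub J) y * nn (cub J) z) := by gcongr
    _ = Real.sqrt (2592 * c * (J₁ + 1)) * Real.sqrt 14 ^ 3 * (Real.sqrt (J + 1) ^ 2) ^ 2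
        * (nn (cub J) x * nn (cub J) y * nn (cub J) z) := by rw [hκ]; ring
    _ = _ := by rw [Real.sq_sqrt (by positivity)]

/-- Independent bounded weights, minus their expectations, are almost surely tame. -/
theorem ae_tame [IsProbabilityMeasure P] {ξ : Finset K3 → Ω → ℝ} (hi : iIndepFun ξ P)
    (hm : ∀ τ, AEMeasurable (ξ τ) P) {H : ℝ} (hH : ∀ τ, ∀ᵐ ω ∂P, |ξ τ ω| ≤ H) :
    ∀ᵐ ω ∂P, ∃ C, Tame C fun τ => ξ τ ω - ∫ ω', ξ τ ω' ∂P := by
  set H' : ℝ := |H| + 1 with hH'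
  have hH'0 : 0 < H' := by positivity
  have h1 : ∀ τ, HasSubgaussianMGF (fun ω => ξ τ ω - ∫ ω', ξ τ ω' ∂P) ((‖H' - -H'‖₊ / 2) ^ 2) P := by
    intro τ
    refine hasSubgaussianMGF_of_mem_Icc (hm τ) ?_
    filter_upwards [hH τ] with ω hω
    have h2 : |ξ τ ω| ≤ H' := hω.trans (by rw [hH']; linarith [le_abs_self H])
    exact abs_le.1 h2
  have h2 : iIndepFun (fun τ ω => ξ τ ω - ∫ ω', ξ τ ω' ∂P) P :=
    hi.comp (fun τ => fun x : ℝ => x - ∫ ω', ξ τ ω' ∂P) fun τ => by fun_prop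
  have hc : (0 : ℝ≥0) < (‖H' - -H'‖₊ / 2) ^ 2 := by
    have : H' - -H' ≠ 0 := by linarith
    have : 0 < ‖H' - -H'‖₊ := nnnorm_pos.2 this
    positivity
  filter_upwards [ae_rs h2 hc h1 cub_mono card_cub_ge] with ω hω
  obtain ⟨J₁, hJ₁⟩ := hω
  exact ⟨_, tame_of_rs hJ₁⟩

end Pool.Agent.H226.RT
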