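import Pool.Agent.H226.RT.Prob

/-!
The union bound and the Borel-Cantelli lemma.
-/

open Finset MeasureTheory ProbabilityTheory Filter
open scoped ENNReal NNReal

namespace Pool.Agent.H226.RT

variable {G : Type*} [AddCommGroup G] [DecidableEq G]
variable {Ω : Type*} [MeasurableSpace Ω] {P : Measure Ω}

lemma rs_neg (X : Finset G → ℝ) (A B C : Finset G) : rs (fun τ => -X τ) A B C = -rs X A B C := by
  unfold rs; rw [sum_neg_distrib]

/-- the threshold -/
noncomputable def thr (c : ℝ≥0) (n : ℕ) (A B C : Finset G) : ℝ :=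
  Real.sqrt (432 * c * Real.log n * (A.card * B.card * C.card))

lemma prob_one [IsProbabilityMeasure P] {X : Finset G → Ω → ℝ} (hi : iIndepFun X P) {c : ℝ≥0}
    (hc : 0 < c) (hX : ∀ τ, HasSubgaussianMGF (X τ) c P) {A B C : Finset G} {n : ℕ} (hn : 2 ≤ n)
    (hA : A.Nonempty) (hB : B.Nonempty) (hC : C.Nonempty) :
    P.real {ω | thr c n A B C ≤ rs (fun τ => X τ ω) A B C}
      ≤ 1 / (n : ℝ) ^ 3 * ((1 / (n : ℝ)) ^ A.card * (1 / (n : ℝ)) ^ B.card
        * (1 / (n : ℝ)) ^ C.card) := by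
  have hn0 : (0 : ℝ) < n := by positivity
  have hn1 : (1 : ℝ) < n := by exact_mod_cast hn
  have hlog : 0 < Real.log n := Real.log_pos hn1
  have ha : 1 ≤ A.card := card_pos.2 hA
  have hb : 1 ≤ B.card := card_pos.2 hB
  have hcc : 1 ≤ C.card := card_pos.2 hC
  have hc' : (0 : ℝ) < c := by exact_mod_cast hc
  have ha' : (1 : ℝ) ≤ A.card := by exact_mod_cast ha
  have hb' : (1 : ℝ) ≤ B.card := by exact_mod_cast hb
  have hcc' : (1 : ℝ) ≤ C.card := by exact_mod_cast hcc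
  have hthr : 0 < thr c n A B C := Real.sqrt_pos.2 (by positivity)
  rcases (pairs A B C).eq_empty_or_nonempty with h | h
  · have e : {ω | thr c n A B C ≤ rs (fun τ => X τ ω) A B C} = ∅ := by
      ext ω
      simp only [Set.mem_ofPred_eq, Set.mem_empty_iff_false, iff_false, not_le]
      unfold rs
      rw [h, sum_empty]
      exact hthr
    rw [e]
    simp only [measureReal_empty]
    positivity
  · have hN : (0 : ℝ) < (pairs A B C).card := by exact_mod_cast card_pos.2 h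
    refine (hoeff hi hX A B C hthr.le).trans ?_
    have h1 : ((pairs A B C).card : ℝ) * (A.card + B.card + C.card)
        ≤ 3 * (A.card * B.card * C.card) := by exact_mod_cast card_pairs_mul A B C
    have h2 : 2 * ((A.card : ℝ) + B.card + C.card) * Real.log n
        ≤ thr c n A B C ^ 2 / (2 * (36 * c * (pairs A B C).card)) := by
      unfold thr
      rw [Real.sq_sqrt (by positivity), le_div_iff₀ (by positivity)]
      have h3 : 0 ≤ 144 * (c : ℝ) * Real.log n := by positivity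
      nlinarith [mul_le_mul_of_nonneg_left h1 h3]
    have h3 : -thr c n A B C ^ 2 / (2 * (36 * c * (pairs A B C).card))
        ≤ -(((3 + A.card + B.card + C.card : ℕ) : ℝ) * Real.log n) := by
      rw [neg_div]
      refine neg_le_neg (le_trans ?_ h2)
      push_cast
      gcongr
      linarith
    refine (Real.exp_le_exp.2 h3).trans (le_of_eq ?_)
    rw [Real.exp_neg, mul_comm, Real.exp_mul, Real.exp_log hn0, Real.rpow_natCast]
    rw [pow_add, pow_add, pow_add]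
    simp only [one_div, inv_pow]
    field_simp

lemma prob_abs [IsProbabilityMeasure P] {X : Finset G → Ω → ℝ} (hi : iIndepFun X P) {c : ℝ≥0}
    (hc : 0 < c) (hX : ∀ τ, HasSubgaussianMGF (X τ) c P) {A B C : Finset G} {n : ℕ} (hn : 2 ≤ n)
    (hA : A.Nonempty) (hB : B.Nonempty) (hC : C.Nonempty) :
    P.real {ω | thr c n A B C ≤ |rs (fun τ => X τ ω) A B C|}
      ≤ 2 * (1 / (n : ℝ) ^ 3) * ((1 / (n : ℝ)) ^ A.card * (1 / (n : ℝ)) ^ B.card
        * (1 / (n : ℝ)) ^ C.card) := by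
  have h1 := prob_one hi hc hX hn hA hB hC
  have hi' : iIndepFun (fun τ ω => -X τ ω) P :=
    hi.comp (fun _ => fun x : ℝ => -x) fun _ => by fun_prop
  have h2 := prob_one hi' hc (fun τ => (hX τ).neg) hn hA hB hC
  simp only [rs_neg] at h2
  have h3 : {ω | thr c n A B C ≤ |rs (fun τ => X τ ω) A B C|}
      ⊆ {ω | thr c n A B C ≤ rs (fun τ => X τ ω) A B C}
        ∪ {ω | thr c n A B C ≤ -rs (fun τ => X τ ω) A B C} := by
    intro ω hω
    rw [Set.mem_ofPred_eq] at hω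
    exact le_abs.1 hω
  have h4 := (measureReal_mono (μ := P) h3 (measure_ne_top P _)).trans (measureReal_union_le _ _)
  linarith

/-- the bad event -/
def bad (X : Finset G → Ω → ℝ) (c : ℝ≥0) (S : Finset G) : Set Ω :=
  ⋃ A ∈ S.powerset.filter Finset.Nonempty, ⋃ B ∈ S.powerset.filter Finset.Nonempty,
    ⋃ C ∈ S.powerset.filter Finset.Nonempty,
      {ω | thr c S.card A B C ≤ |rs (fun τ => X τ ω) A B C|}

omit [AddCommGroup G] [DecidableEq G] in
lemma sum_pow (S : Finset G) {n : ℕ} (hn : S.card = n) (h0 : 2 ≤ n) :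
    ∑ A ∈ S.powerset.filter Finset.Nonempty, (1 / (n : ℝ)) ^ A.card ≤ 3 := by
  have hn0 : (0 : ℝ) < n := by positivity
  have h1 : ∑ A ∈ S.powerset.filter Finset.Nonempty, (1 / (n : ℝ)) ^ A.card
      ≤ ∑ A ∈ S.powerset, (1 / (n : ℝ)) ^ A.card :=
    sum_le_sum_of_subset_of_nonneg (filter_subset _ _) fun A _ _ => by positivity
  have h2 := Finset.sum_pow_mul_eq_add_pow (1 / (n : ℝ)) 1 S
  simp only [one_pow, mul_one] at h2
  rw [h2, hn] at h1
  refine h1.trans ?_
  have h3 : (1 / (n : ℝ) + 1) ^ n ≤ Real.exp (1 / n) ^ n := by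
    gcongr
    exact Real.add_one_le_exp _
  refine h3.trans ?_
  rw [← Real.exp_nat_mul, mul_one_div_cancel hn0.ne']
  have := Real.exp_one_lt_d9
  linarith

lemma prob_bad [IsProbabilityMeasure P] {X : Finset G → Ω → ℝ} (hi : iIndepFun X P) {c : ℝ≥0}
    (hc : 0 < c) (hX : ∀ τ, HasSubgaussianMGF (X τ) c P) {S : Finset G} (hn : 2 ≤ S.card) :
    P.real (bad X c S) ≤ 54 / (S.card : ℝ) ^ 3 := by
  set n := S.card with hn'
  have hn0 : (0 : ℝ) < n := by positivity
  set F := S.powerset.filter Finset.Nonempty with hF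
  set z : Finset G → ℝ := fun A => (1 / (n : ℝ)) ^ A.card with hz
  have hz0 : ∀ A, 0 ≤ z A := fun A => by positivity
  have h1 : P.real (bad X c S) ≤ ∑ A ∈ F, ∑ B ∈ F, ∑ C ∈ F,
      2 * (1 / (n : ℝ) ^ 3) * (z A * z B * z C) := by
    unfold bad
    refine (measureReal_biUnion_finset_le _ _).trans (sum_le_sum fun A hA => ?_)
    refine (measureReal_biUnion_finset_le _ _).trans (sum_le_sum fun B hB => ?_)
    refine (measureReal_biUnion_finset_le _ _).trans (sum_le_sum fun C hC => ?_)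
    exact prob_abs hi hc hX hn (mem_filter.1 hA).2 (mem_filter.1 hB).2 (mem_filter.1 hC).2
  refine h1.trans ?_
  have h2 : ∑ A ∈ F, ∑ B ∈ F, ∑ C ∈ F, 2 * (1 / (n : ℝ) ^ 3) * (z A * z B * z C)
      = 2 * (1 / (n : ℝ) ^ 3) * (∑ A ∈ F, z A) ^ 3 := by
    have e : (∑ A ∈ F, z A) ^ 3 = ∑ A ∈ F, ∑ B ∈ F, ∑ C ∈ F, z A * z B * z C := by
      rw [pow_succ, sq, sum_mul_sum, sum_mul]
      refine sum_congr rfl fun A _ => ?_
      rw [sum_mul]
      refine sum_congr rfl fun B _ => ?_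
      rw [mul_sum]
    rw [e, mul_sum]
    refine sum_congr rfl fun A _ => ?_
    rw [mul_sum]
    refine sum_congr rfl fun B _ => ?_
    rw [mul_sum]
  rw [h2]
  have h3 : ∑ A ∈ F, z A ≤ 3 := sum_pow S rfl hn
  have h4 : 0 ≤ ∑ A ∈ F, z A := sum_nonneg fun A _ => hz0 A
  calc 2 * (1 / (n : ℝ) ^ 3) * (∑ A ∈ F, z A) ^ 3 ≤ 2 * (1 / (n : ℝ) ^ 3) * 3 ^ 3 := by gcongr
    _ = _ := by ring

omit [MeasurableSpace Ω] in
lemma not_bad {X : Finset G → Ω → ℝ} {c : ℝ≥0} {S : Finset G} {ω : Ω} (h : ω ∉ bad X c S)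
    {A B C : Finset G} (hA : A ⊆ S) (hB : B ⊆ S) (hC : C ⊆ S) :
    |rs (fun τ => X τ ω) A B C| ≤ thr c S.card A B C := by
  by_cases hne : A.Nonempty ∧ B.Nonempty ∧ C.Nonempty
  · obtain ⟨h1, h2, h3⟩ := hne
    by_contra hcon
    push Not at hcon
    refine h ?_
    unfold bad
    simp only [Set.mem_iUnion, mem_filter, mem_powerset]
    exact ⟨A, ⟨hA, h1⟩, B, ⟨hB, h2⟩, C, ⟨hC, h3⟩, hcon.le⟩
  · have e : pairs A B C = ∅ := by
      by_contra hcon
      obtain ⟨x, hx⟩ := nonempty_iff_ne_empty.2 hcon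
      have := mem_pairs.1 hx
      exact hne ⟨⟨_, this.1⟩, ⟨_, this.2.1⟩, ⟨_, this.2.2⟩⟩
    unfold rs
    rw [e, sum_empty, abs_zero]
    exact Real.sqrt_nonneg _

/-- Almost surely the random sums are bounded by a multiple of the threshold, at all scales. -/
theorem ae_rs [IsProbabilityMeasure P] {X : Finset G → Ω → ℝ} (hi : iIndepFun X P) {c : ℝ≥0}
    (hc : 0 < c) (hX : ∀ τ, HasSubgaussianMGF (X τ) c P) {S : ℕ → Finset G} (hS : Monotone S)
    (hn : ∀ J, 2 ^ J ≤ (S J).card) :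
    ∀ᵐ ω ∂P, ∃ J₁, ∀ J, ∀ A ⊆ S J, ∀ B ⊆ S J, ∀ C ⊆ S J,
      |rs (fun τ => X τ ω) A B C| ≤ thr c (S (max J J₁)).card A B C := by
  have h1 : ∑' J, P (bad X c (S (J + 1))) ≠ ∞ := by
    have h2 : Summable fun J : ℕ => 54 * ((1 : ℝ) / 8) ^ (J + 1) :=
      ((summable_nat_add_iff 1).2 (summable_geometric_of_lt_one (by norm_num) (by norm_num))).mul_left _
    refine ne_top_of_le_ne_top h2.tsum_ofReal_ne_top (ENNReal.tsum_le_tsum fun J => ?_)
    rw [← ofReal_measureReal]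
    refine ENNReal.ofReal_le_ofReal ?_
    have h3 : 2 ≤ (S (J + 1)).card := le_trans (by
      rw [pow_succ]
      have : 1 ≤ 2 ^ J := Nat.one_le_two_pow
      omega) (hn (J + 1))
    refine (prob_bad hi hc hX h3).trans ?_
    have h4 : (2 : ℝ) ^ (J + 1) ≤ (S (J + 1)).card := by exact_mod_cast hn (J + 1)
    rw [one_div, inv_pow, ← div_eq_mul_inv]
    have h5 : (8 : ℝ) ^ (J + 1) = ((2 : ℝ) ^ (J + 1)) ^ 3 := by
      rw [← pow_mul, mul_comm, pow_mul]; norm_num
    rw [h5]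
    gcongr
  filter_upwards [ae_eventually_notMem h1] with ω hω
  obtain ⟨J₁, hJ₁⟩ := eventually_atTop.1 hω
  refine ⟨J₁ + 1, fun J A hA B hB C hC => ?_⟩
  have h2 : ω ∉ bad X c (S (max J (J₁ + 1))) := by
    have h3 := hJ₁ (max J (J₁ + 1) - 1) (by omega)
    rwa [Nat.sub_add_cancel (by omega)] at h3
  have h4 : S J ⊆ S (max J (J₁ + 1)) := hS (le_max_left _ _)
  exact not_bad h2 (hA.trans h4) (hB.trans h4) (hC.trans h4)

end Pool.Agent.H226.RT
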